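import Mathlib

/-!
Boolean circuits as straight-line directed acyclic graphs, following MP_7713c5_lc:
sources are labelled by input variables or constants, every other node is an AND or OR gate of
fan-in two or a NOT gate of fan-in one, size counts gates and depth counts the gates on a longest
directed path from a source to the output.
-/

namespace Pool.Agent.BoolCirc

/-- A node that may feed gate number `i` of a circuit on `n` inputs: a source labelled by an input
variable, a source labelled by a constant, or one of the gates with a smaller number. -/
inductive Src (n i : ℕ) : Type
  | input (j : Fin n) : Src n i
  | const (b : Bool) : Src n i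
  | gate (j : Fin i) : Src n i

/-- A gate together with the nodes that feed it. -/
inductive Gate (n i : ℕ) : Type
  | and (a b : Src n i) : Gate n i
  | or (a b : Src n i) : Gate n i
  | not (a : Src n i) : Gate n i

/-- A Boolean circuit on `n` inputs: gates number `0, ..., size - 1`, listed in a topological
order of the directed acyclic graph, and a designated output node. -/
structure Circuit (n : ℕ) where
  /-- number of gates -/
  size : ℕ
  /-- gate number `i` -/
  gate : (i : Fin size) → Gate n i
  /-- the output node -/
  out : Src n size

namespace Src

variable {n i : ℕ}

/-- value of a node, given the values of the inputs and of the earlier gates -/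
def eval (x : Fin n → Bool) (v : Fin i → Bool) : Src n i → Bool
  | input j => x j
  | const b => b
  | gate j => v j

/-- number of gates on a longest path from a source to the node, given these numbers for the
earlier gates -/
def depth (d : Fin i → ℕ) : Src n i → ℕ
  | input _ => 0
  | const _ => 0
  | gate j => d j

end Src

namespace Gate

variable {n i : ℕ}

/-- value of a gate, given the values of the inputs and of the earlier gates -/
def eval (x : Fin n → Bool) (v : Fin i → Bool) : Gate n i → Bool
  | and a b => a.eval x v && b.eval x v
  | or a b => a.eval x v || b.eval x v
  | not a => ! a.eval x v

/-- number of gates on a longest path from a source to the gate (the gate included) -/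
def depth (d : Fin i → ℕ) : Gate n i → ℕ
  | and a b => max (a.depth d) (b.depth d) + 1
  | or a b => max (a.depth d) (b.depth d) + 1
  | not a => a.depth d + 1

/-- the list of the nodes feeding the gate (with multiplicity) -/
def operands : Gate n i → List (Src n i)
  | and a b => [a, b]
  | or a b => [a, b]
  | not a => [a]

end Gate

namespace Circuit

variable {n : ℕ}

/-- value of gate number `i` on input `x` -/
def val (C : Circuit n) (x : Fin n → Bool) (i : Fin C.size) : Bool :=
  (C.gate i).eval x (fun j => C.val x ⟨j.1, j.2.trans i.2⟩)
termination_by i.1
decreasing_by exact j.2

/-- depth of gate number `i` -/
def gateDepth (C : Circuit n) (i : Fin C.size) : ℕ :=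
  (C.gate i).depth (fun j => C.gateDepth ⟨j.1, j.2.trans i.2⟩)
termination_by i.1
decreasing_by exact j.2

/-- the function computed by the circuit -/
def eval (C : Circuit n) (x : Fin n → Bool) : Bool := C.out.eval x (C.val x)

/-- the depth of the circuit -/
def depth (C : Circuit n) : ℕ := C.out.depth C.gateDepth

end Circuit

end Pool.Agent.BoolCirc
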