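import Mathlib
import Pool.Agent.BoolCirc.Basic

/-!
Formulas, their conversion to circuits, and the balancing theorem of Spira and Brent.
-/

namespace Pool.Agent.BoolCirc

/-- Boolean formulas over AND, OR, NOT with constants. -/
inductive Fm (n : ℕ) : Type
  | inp (i : Fin n) : Fm n
  | cst (b : Bool) : Fm n
  | and (a b : Fm n) : Fm n
  | or (a b : Fm n) : Fm n
  | not (a : Fm n) : Fm n

namespace Fm

variable {n : ℕ}

/-- value of a formula -/
def eval (x : Fin n → Bool) : Fm n → Bool
  | inp i => x i
  | cst b => b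
  | and a b => a.eval x && b.eval x
  | or a b => a.eval x || b.eval x
  | not a => ! a.eval x

/-- depth of a formula (all gates counted) -/
def depth : Fm n → ℕ
  | inp _ => 0
  | cst _ => 0
  | and a b => max a.depth b.depth + 1
  | or a b => max a.depth b.depth + 1
  | not a => a.depth + 1

/-- number of gates of a formula -/
def gates : Fm n → ℕ
  | inp _ => 0
  | cst _ => 0
  | and a b => a.gates + b.gates + 1
  | or a b => a.gates + b.gates + 1
  | not a => a.gates + 1

theorem gates_lt (F : Fm n) : F.gates + 1 ≤ 2 ^ F.depth := by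
  induction F with
  | inp i => simp [gates, depth]
  | cst b => simp [gates, depth]
  | and a b iha ihb =>
    simp only [gates, depth, pow_succ]
    have h1 : 2 ^ a.depth ≤ 2 ^ (max a.depth b.depth) := Nat.pow_le_pow_right (by norm_num) (le_max_left _ _)
    have h2 : 2 ^ b.depth ≤ 2 ^ (max a.depth b.depth) := Nat.pow_le_pow_right (by norm_num) (le_max_right _ _)
    omega
  | or a b iha ihb =>
    simp only [gates, depth, pow_succ]
    have h1 : 2 ^ a.depth ≤ 2 ^ (max a.depth b.depth) := Nat.pow_le_pow_right (by norm_num) (le_max_left _ _)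
    have h2 : 2 ^ b.depth ≤ 2 ^ (max a.depth b.depth) := Nat.pow_le_pow_right (by norm_num) (le_max_right _ _)
    omega
  | not a iha =>
    simp only [gates, depth, pow_succ]
    have : 1 ≤ 2 ^ a.depth := Nat.one_le_two_pow
    omega

end Fm

/-! ### from formulas to circuits -/

namespace Src

variable {n i j : ℕ}

/-- renumbering of gates -/
def map (f : Fin i → Fin j) : Src n i → Src n j
  | input k => input k
  | const b => const b
  | gate k => gate (f k)

theorem eval_map (f : Fin i → Fin j) (o : Src n i) (x : Fin n → Bool) (v : Fin j → Bool) :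
    (o.map f).eval x v = o.eval x (fun k => v (f k)) := by
  cases o <;> rfl

theorem depth_map (f : Fin i → Fin j) (o : Src n i) (v : Fin j → ℕ) :
    (o.map f).depth v = o.depth (fun k => v (f k)) := by
  cases o <;> rfl

end Src

namespace Gate

variable {n i j : ℕ}

/-- renumbering of gates -/
def map (f : Fin i → Fin j) : Gate n i → Gate n j
  | and a b => and (a.map f) (b.map f)
  | or a b => or (a.map f) (b.map f)
  | not a => not (a.map f)

theorem eval_map (f : Fin i → Fin j) (o : Gate n i) (x : Fin n → Bool) (v : Fin j → Bool) :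
    (o.map f).eval x v = o.eval x (fun k => v (f k)) := by
  cases o <;> simp [map, eval, Src.eval_map]

theorem depth_map (f : Fin i → Fin j) (o : Gate n i) (v : Fin j → ℕ) :
    (o.map f).depth v = o.depth (fun k => v (f k)) := by
  cases o <;> simp [map, depth, Src.depth_map]

end Gate

namespace Circuit

variable {n : ℕ}

/-- add one gate at the end and make it the output -/
@[reducible] def snoc (C : Circuit n) (g : Gate n C.size) : Circuit n where
  size := C.size + 1
  gate := fun i => if h : i.1 < C.size then C.gate ⟨i.1, h⟩ else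
    g.map (fun j => ⟨j.1, by omega⟩)
  out := Src.gate ⟨C.size, Nat.lt_succ_self _⟩

/-- put two circuits side by side; the output is an arbitrary node -/
@[reducible] def append (C D : Circuit n) (o : Src n (C.size + D.size)) : Circuit n where
  size := C.size + D.size
  gate := fun i => if h : i.1 < C.size then C.gate ⟨i.1, h⟩ else
    (D.gate ⟨i.1 - C.size, by omega⟩).map (fun j => ⟨C.size + j.1, by
      have h2 : j.1 < i.1 - C.size := j.2
      omega⟩)
  out := o

theorem snoc_val_lt (C : Circuit n) (g : Gate n C.size) (x : Fin n → Bool) :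
    ∀ (i : ℕ) (h : i < C.size), (C.snoc g).val x ⟨i, Nat.lt_succ_of_lt h⟩ = C.val x ⟨i, h⟩ := by
  intro i
  induction i using Nat.strong_induction_on with
  | _ i ih =>
    intro h
    rw [val, val]
    simp only [snoc, h, dif_pos]
    congr 1
    funext j
    exact ih j.1 j.2 (j.2.trans h)

theorem snoc_gateDepth_lt (C : Circuit n) (g : Gate n C.size) :
    ∀ (i : ℕ) (h : i < C.size), (C.snoc g).gateDepth ⟨i, Nat.lt_succ_of_lt h⟩ = C.gateDepth ⟨i, h⟩ := by
  intro i
  induction i using Nat.strong_induction_on with
  | _ i ih =>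
    intro h
    rw [gateDepth, gateDepth]
    simp only [snoc, h, dif_pos]
    congr 1
    funext j
    exact ih j.1 j.2 (j.2.trans h)

theorem snoc_eval (C : Circuit n) (g : Gate n C.size) (x : Fin n → Bool) :
    (C.snoc g).eval x = g.eval x (C.val x) := by
  show (C.snoc g).val x ⟨C.size, _⟩ = _
  rw [val]
  simp only [snoc, lt_irrefl, dif_neg, not_false_eq_true]
  rw [Gate.eval_map]
  congr 1
  funext j
  exact snoc_val_lt C g x j.1 j.2

theorem snoc_depth (C : Circuit n) (g : Gate n C.size) :
    (C.snoc g).depth = g.depth C.gateDepth := by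
  show (C.snoc g).gateDepth ⟨C.size, _⟩ = _
  rw [gateDepth]
  simp only [snoc, lt_irrefl, dif_neg, not_false_eq_true]
  rw [Gate.depth_map]
  congr 1
  funext j
  exact snoc_gateDepth_lt C g j.1 j.2

theorem append_val_left (C D : Circuit n) (o) (x : Fin n → Bool) :
    ∀ (i : ℕ) (h : i < C.size), (C.append D o).val x ⟨i, Nat.lt_add_right _ h⟩ = C.val x ⟨i, h⟩ := by
  intro i
  induction i using Nat.strong_induction_on with
  | _ i ih =>
    intro h
    rw [val, val]
    simp only [append, h, dif_pos]
    congr 1
    funext j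
    exact ih j.1 j.2 (j.2.trans h)

theorem append_gateDepth_left (C D : Circuit n) (o) :
    ∀ (i : ℕ) (h : i < C.size), (C.append D o).gateDepth ⟨i, Nat.lt_add_right _ h⟩ = C.gateDepth ⟨i, h⟩ := by
  intro i
  induction i using Nat.strong_induction_on with
  | _ i ih =>
    intro h
    rw [gateDepth, gateDepth]
    simp only [append, h, dif_pos]
    congr 1
    funext j
    exact ih j.1 j.2 (j.2.trans h)

theorem append_val_right (C D : Circuit n) (o) (x : Fin n → Bool) :
    ∀ (i : ℕ) (h : i < D.size), (C.append D o).val x ⟨C.size + i, Nat.add_lt_add_left h _⟩ = D.val x ⟨i, h⟩ := by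
  intro i
  induction i using Nat.strong_induction_on with
  | _ i ih =>
    intro h
    rw [val, val]
    have h1 : ¬ (C.size + i < C.size) := by omega
    simp only [append, h1, dif_neg, not_false_eq_true]
    have key : ∀ (m : ℕ) (hm : m = i) (hm' : m < D.size),
        ((D.gate ⟨m, hm'⟩).map (fun j => (⟨C.size + j.1, by have h2 : j.1 < m := j.2; omega⟩ : Fin (C.size + i)))).eval x
          (fun j => (C.append D o).val x ⟨j.1, j.2.trans (Nat.add_lt_add_left h _)⟩) =
        (D.gate ⟨i, h⟩).eval x (fun j => D.val x ⟨j.1, j.2.trans h⟩) := by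
      intro m hm hm'
      subst hm
      rw [Gate.eval_map]
      congr 1
      funext j
      exact ih j.1 j.2 (j.2.trans h)
    exact key (C.size + i - C.size) (by omega) (by omega)

theorem append_gateDepth_right (C D : Circuit n) (o) :
    ∀ (i : ℕ) (h : i < D.size), (C.append D o).gateDepth ⟨C.size + i, Nat.add_lt_add_left h _⟩ = D.gateDepth ⟨i, h⟩ := by
  intro i
  induction i using Nat.strong_induction_on with
  | _ i ih =>
    intro h
    rw [gateDepth, gateDepth]
    have h1 : ¬ (C.size + i < C.size) := by omega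
    simp only [append, h1, dif_neg, not_false_eq_true]
    have key : ∀ (m : ℕ) (hm : m = i) (hm' : m < D.size),
        ((D.gate ⟨m, hm'⟩).map (fun j => (⟨C.size + j.1, by have h2 : j.1 < m := j.2; omega⟩ : Fin (C.size + i)))).depth
          (fun j => (C.append D o).gateDepth ⟨j.1, j.2.trans (Nat.add_lt_add_left h _)⟩) =
        (D.gate ⟨i, h⟩).depth (fun j => D.gateDepth ⟨j.1, j.2.trans h⟩) := by
      intro m hm hm'
      subst hm
      rw [Gate.depth_map]
      congr 1
      funext j
      exact ih j.1 j.2 (j.2.trans h)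
    exact key (C.size + i - C.size) (by omega) (by omega)

theorem append_eval_left (C D : Circuit n) (o) (x : Fin n → Bool) :
    (C.out.map (fun j => (⟨j.1, Nat.lt_add_right _ j.2⟩ : Fin (C.size + D.size)))).eval x
      ((C.append D o).val x) = C.eval x := by
  rw [Src.eval_map]
  unfold eval
  congr 1
  funext j
  exact append_val_left C D o x j.1 j.2

theorem append_eval_right (C D : Circuit n) (o) (x : Fin n → Bool) :
    (D.out.map (fun j => (⟨C.size + j.1, Nat.add_lt_add_left j.2 _⟩ : Fin (C.size + D.size)))).eval x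
      ((C.append D o).val x) = D.eval x := by
  rw [Src.eval_map]
  unfold eval
  congr 1
  funext j
  exact append_val_right C D o x j.1 j.2

theorem append_depth_left (C D : Circuit n) (o) :
    (C.out.map (fun j => (⟨j.1, Nat.lt_add_right _ j.2⟩ : Fin (C.size + D.size)))).depth
      ((C.append D o).gateDepth) = C.depth := by
  rw [Src.depth_map]
  unfold depth
  congr 1
  funext j
  exact append_gateDepth_left C D o j.1 j.2

theorem append_depth_right (C D : Circuit n) (o) :
    (D.out.map (fun j => (⟨C.size + j.1, Nat.add_lt_add_left j.2 _⟩ : Fin (C.size + D.size)))).depth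
      ((C.append D o).gateDepth) = D.depth := by
  rw [Src.depth_map]
  unfold depth
  congr 1
  funext j
  exact append_gateDepth_right C D o j.1 j.2

end Circuit

/-- Every formula is a circuit of the same depth whose size is the number of gates. -/
theorem Fm.exists_circuit {n : ℕ} (F : Fm n) :
    ∃ C : Circuit n, (∀ x, C.eval x = F.eval x) ∧ C.depth = F.depth ∧ C.size = F.gates := by
  induction F with
  | inp i => exact ⟨⟨0, fun j => j.elim0, Src.input i⟩, fun x => rfl, rfl, rfl⟩
  | cst b => exact ⟨⟨0, fun j => j.elim0, Src.const b⟩, fun x => rfl, rfl, rfl⟩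
  | and a b iha ihb =>
    obtain ⟨C, hC, hCd, hCs⟩ := iha
    obtain ⟨D, hD, hDd, hDs⟩ := ihb
    refine ⟨(C.append D (Src.const false)).snoc (Gate.and
      (C.out.map (fun j => (⟨j.1, Nat.lt_add_right _ j.2⟩ : Fin (C.size + D.size))))
      (D.out.map (fun j => (⟨C.size + j.1, Nat.add_lt_add_left j.2 _⟩ : Fin (C.size + D.size))))), ?_, ?_, ?_⟩
    · intro x
      rw [Circuit.snoc_eval]
      simp only [Gate.eval, Fm.eval, ← hC, ← hD]
      erw [Circuit.append_eval_left, Circuit.append_eval_right]
    · rw [Circuit.snoc_depth]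
      simp only [Gate.depth, Fm.depth, ← hCd, ← hDd]
      erw [Circuit.append_depth_left, Circuit.append_depth_right]
    · simp [Fm.gates, hCs, hDs]
  | or a b iha ihb =>
    obtain ⟨C, hC, hCd, hCs⟩ := iha
    obtain ⟨D, hD, hDd, hDs⟩ := ihb
    refine ⟨(C.append D (Src.const false)).snoc (Gate.or
      (C.out.map (fun j => (⟨j.1, Nat.lt_add_right _ j.2⟩ : Fin (C.size + D.size))))
      (D.out.map (fun j => (⟨C.size + j.1, Nat.add_lt_add_left j.2 _⟩ : Fin (C.size + D.size))))), ?_, ?_, ?_⟩
    · intro x
      rw [Circuit.snoc_eval]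
      simp only [Gate.eval, Fm.eval, ← hC, ← hD]
      erw [Circuit.append_eval_left, Circuit.append_eval_right]
    · rw [Circuit.snoc_depth]
      simp only [Gate.depth, Fm.depth, ← hCd, ← hDd]
      erw [Circuit.append_depth_left, Circuit.append_depth_right]
    · simp [Fm.gates, hCs, hDs]
  | not a iha =>
    obtain ⟨C, hC, hCd, hCs⟩ := iha
    refine ⟨C.snoc (Gate.not C.out), ?_, ?_, ?_⟩
    · intro x
      rw [Circuit.snoc_eval]
      simp only [Gate.eval, Fm.eval, ← hC]
      rfl
    · rw [Circuit.snoc_depth]
      simp only [Gate.depth, Fm.depth, ← hCd]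
      rfl
    · simp [Fm.gates, hCs]

/-! ### depth complexity of functions -/

/-- `DepthLE f t`: the function `f` is computed by a formula of depth at most the real number
`t`. -/
def DepthLE {n : ℕ} (f : (Fin n → Bool) → Bool) (t : ℝ) : Prop :=
  ∃ F : Fm n, (∀ x, F.eval x = f x) ∧ (F.depth : ℝ) ≤ t

namespace DepthLE

variable {n : ℕ} {f g h : (Fin n → Bool) → Bool} {s t : ℝ}

theorem mono (hf : DepthLE f s) (h : s ≤ t) : DepthLE f t := by
  obtain ⟨F, h1, h2⟩ := hf
  exact ⟨F, h1, h2.trans h⟩

theorem nonneg (hf : DepthLE f s) : 0 ≤ s := by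
  obtain ⟨F, h1, h2⟩ := hf
  exact (Nat.cast_nonneg _).trans h2

theorem const (b : Bool) (ht : 0 ≤ t) : DepthLE (fun _ : Fin n → Bool => b) t :=
  ⟨Fm.cst b, fun _ => rfl, by simpa [Fm.depth] using ht⟩

theorem input (i : Fin n) (ht : 0 ≤ t) : DepthLE (fun x : Fin n → Bool => x i) t :=
  ⟨Fm.inp i, fun _ => rfl, by simpa [Fm.depth] using ht⟩

theorem not (hf : DepthLE f t) : DepthLE (fun x => ! f x) (t + 1) := by
  obtain ⟨F, h1, h2⟩ := hf
  exact ⟨Fm.not F, fun x => by simp [Fm.eval, h1], by simp only [Fm.depth]; push_cast; linarith⟩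

theorem and (hf : DepthLE f t) (hg : DepthLE g t) : DepthLE (fun x => f x && g x) (t + 1) := by
  obtain ⟨F, h1, h2⟩ := hf
  obtain ⟨G, h3, h4⟩ := hg
  refine ⟨Fm.and F G, fun x => by simp [Fm.eval, h1, h3], ?_⟩
  simp only [Fm.depth]; push_cast
  have := max_le h2 h4
  linarith

theorem or (hf : DepthLE f t) (hg : DepthLE g t) : DepthLE (fun x => f x || g x) (t + 1) := by
  obtain ⟨F, h1, h2⟩ := hf
  obtain ⟨G, h3, h4⟩ := hg
  refine ⟨Fm.or F G, fun x => by simp [Fm.eval, h1, h3], ?_⟩
  simp only [Fm.depth]; push_cast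
  have := max_le h2 h4
  linarith

/-- if `f` then `g` else `h` -/
theorem ite (hf : DepthLE f t) (hg : DepthLE g (t + 1)) (hh : DepthLE h (t + 1)) :
    DepthLE (fun x => if f x then g x else h x) (t + 3) := by
  have h1 := (hf.mono (by linarith : t ≤ t + 1)).and hg
  have h2 := hf.not.and hh
  have h3 := h1.or h2
  have e : (fun x => if f x then g x else h x) = fun x => (f x && g x) || ((! f x) && h x) := by
    funext x
    cases f x <;> simp
  rw [e]
  exact h3.mono (by linarith)

theorem congr (hf : DepthLE f t) (e : ∀ x, g x = f x) : DepthLE g t := by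
  obtain ⟨F, h1, h2⟩ := hf
  exact ⟨F, fun x => (h1 x).trans (e x).symm, h2⟩

end DepthLE

/-! ### Spira and Brent -/

/-- If a formula has more than `m` gates, it can be split at a subformula `H` whose proper
subformulas have at most `m` gates. -/
theorem Fm.split {n : ℕ} (m : ℕ) (F : Fm n) (hF : m < F.gates) :
    ∃ H G₀ G₁ : Fm n, (∀ x, F.eval x = if H.eval x then G₁.eval x else G₀.eval x) ∧
      m < H.gates ∧ G₀.gates + H.gates ≤ F.gates ∧ G₁.gates + H.gates ≤ F.gates ∧
      ((∃ A B : Fm n, (H = Fm.and A B ∨ H = Fm.or A B) ∧ A.gates ≤ m ∧ B.gates ≤ m) ∨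
        ∃ A : Fm n, H = Fm.not A ∧ A.gates ≤ m) := by
  induction F with
  | inp i => simp [gates] at hF
  | cst b => simp [gates] at hF
  | and a b iha ihb =>
    by_cases ha : m < a.gates
    · obtain ⟨H, G₀, G₁, h1, h2, h3, h4, h5⟩ := iha ha
      refine ⟨H, Fm.and G₀ b, Fm.and G₁ b, ?_, h2, ?_, ?_, h5⟩
      · intro x
        simp only [eval, h1 x]
        cases H.eval x <;> simp
      · simp only [gates]; omega
      · simp only [gates]; omega
    · by_cases hb : m < b.gates
      · obtain ⟨H, G₀, G₁, h1, h2, h3, h4, h5⟩ := ihb hb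
        refine ⟨H, Fm.and a G₀, Fm.and a G₁, ?_, h2, ?_, ?_, h5⟩
        · intro x
          simp only [eval, h1 x]
          cases H.eval x <;> simp
        · simp only [gates]; omega
        · simp only [gates]; omega
      · refine ⟨Fm.and a b, Fm.cst false, Fm.cst true, ?_, hF, ?_, ?_, ?_⟩
        · intro x
          simp only [eval]
          simp
        · simp [gates]
        · simp [gates]
        · exact Or.inl ⟨a, b, Or.inl rfl, by omega, by omega⟩
  | or a b iha ihb =>
    by_cases ha : m < a.gates
    · obtain ⟨H, G₀, G₁, h1, h2, h3, h4, h5⟩ := iha ha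
      refine ⟨H, Fm.or G₀ b, Fm.or G₁ b, ?_, h2, ?_, ?_, h5⟩
      · intro x
        simp only [eval, h1 x]
        cases H.eval x <;> simp
      · simp only [gates]; omega
      · simp only [gates]; omega
    · by_cases hb : m < b.gates
      · obtain ⟨H, G₀, G₁, h1, h2, h3, h4, h5⟩ := ihb hb
        refine ⟨H, Fm.or a G₀, Fm.or a G₁, ?_, h2, ?_, ?_, h5⟩
        · intro x
          simp only [eval, h1 x]
          cases H.eval x <;> simp
        · simp only [gates]; omega
        · simp only [gates]; omega
      · refine ⟨Fm.or a b, Fm.cst false, Fm.cst true, ?_, hF, ?_, ?_, ?_⟩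
        · intro x
          simp only [eval]
          simp
        · simp [gates]
        · simp [gates]
        · exact Or.inl ⟨a, b, Or.inr rfl, by omega, by omega⟩
  | not a iha =>
    by_cases ha : m < a.gates
    · obtain ⟨H, G₀, G₁, h1, h2, h3, h4, h5⟩ := iha ha
      refine ⟨H, Fm.not G₀, Fm.not G₁, ?_, h2, ?_, ?_, h5⟩
      · intro x
        simp only [eval, h1 x]
        cases H.eval x <;> simp
      · simp only [gates]; omega
      · simp only [gates]; omega
    · refine ⟨Fm.not a, Fm.cst false, Fm.cst true, ?_, hF, ?_, ?_, ?_⟩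
      · intro x
        simp only [eval]
        simp
      · simp [gates]
      · simp [gates]
      · exact Or.inr ⟨a, rfl, by omega⟩

/-- Formula balancing: a formula with `s` gates has depth complexity at most `4 log₂ (s + 1)`. -/
theorem Fm.spira {n : ℕ} : ∀ (s : ℕ) (F : Fm n), F.gates ≤ s →
    DepthLE F.eval (4 * Real.logb 2 (s + 1)) := by
  intro s
  induction s using Nat.strong_induction_on with
  | _ s ih =>
    intro F hF
    have hlog : 0 ≤ Real.logb 2 ((s : ℝ) + 1) := by
      apply Real.logb_nonneg (by norm_num)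
      have : (0 : ℝ) ≤ s := Nat.cast_nonneg _
      linarith
    by_cases h0 : F.gates = 0
    · refine ⟨F, fun _ => rfl, ?_⟩
      have : F.depth = 0 := by
        cases F <;> simp_all [gates, depth]
      rw [this]
      simpa using hlog
    · have hs1 : 1 ≤ s := by omega
      set m := F.gates / 3 with hm
      have hmF : m < F.gates := by omega
      obtain ⟨H, G₀, G₁, h1, h2, h3, h4, h5⟩ := Fm.split m F hmF
      have hm3 : 3 * m ≤ s := by omega
      have hm1 : 2 * (m + 1) ≤ s + 1 := by omega
      have hmlt : m < s := by omega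
      have hG₀ : G₀.gates < s := by omega
      have hG₁ : G₁.gates < s := by omega
      -- numeric facts
      have l1 : 4 * Real.logb 2 ((m : ℝ) + 1) + 4 ≤ 4 * Real.logb 2 ((s : ℝ) + 1) := by
        have hle : (2 : ℝ) * ((m : ℝ) + 1) ≤ (s : ℝ) + 1 := by exact_mod_cast hm1
        have hpos : (0 : ℝ) < (m : ℝ) + 1 := by positivity
        have : Real.logb 2 (2 * ((m : ℝ) + 1)) ≤ Real.logb 2 ((s : ℝ) + 1) :=
          Real.logb_le_logb_of_le (by norm_num) (by positivity) hle
        rw [Real.logb_mul (by norm_num) hpos.ne', Real.logb_self_eq_one (by norm_num)] at this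
        linarith
      have l2 : ∀ g : ℕ, g + m + 1 ≤ F.gates → 4 * Real.logb 2 ((g : ℝ) + 1) + 2 ≤ 4 * Real.logb 2 ((s : ℝ) + 1) := by
        intro g hg
        have hge : 3 * (g + 1) ≤ 2 * (s + 1) := by omega
        have hpos : (0 : ℝ) < (g : ℝ) + 1 := by positivity
        have hle : (3 : ℝ) / 2 * ((g : ℝ) + 1) ≤ (s : ℝ) + 1 := by
          have : (3 : ℝ) * ((g : ℝ) + 1) ≤ 2 * ((s : ℝ) + 1) := by exact_mod_cast hge
          linarith
        have h6 : Real.logb 2 ((3 : ℝ) / 2 * ((g : ℝ) + 1)) ≤ Real.logb 2 ((s : ℝ) + 1) :=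
          Real.logb_le_logb_of_le (by norm_num) (by positivity) hle
        rw [Real.logb_mul (by norm_num) hpos.ne'] at h6
        have h7 : (1 : ℝ) / 2 ≤ Real.logb 2 (3 / 2) := by
          rw [Real.le_logb_iff_rpow_le (by norm_num) (by norm_num)]
          rw [← Real.sqrt_eq_rpow]
          rw [Real.sqrt_le_left (by norm_num)]
          norm_num
        linarith
      have dH : DepthLE H.eval (4 * Real.logb 2 ((m : ℝ) + 1) + 1) := by
        rcases h5 with ⟨A, B, hAB, hA, hB⟩ | ⟨A, hA, hA'⟩
        · have dA := ih m hmlt A hA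
          have dB := ih m hmlt B hB
          rcases hAB with rfl | rfl
          · exact (dA.and dB).congr (fun x => rfl)
          · exact (dA.or dB).congr (fun x => rfl)
        · have dA := ih m hmlt A hA'
          subst hA
          exact dA.not.congr (fun x => rfl)
      set t := 4 * Real.logb 2 ((s : ℝ) + 1) with ht
      have key : DepthLE (fun x => if H.eval x then G₁.eval x else G₀.eval x) (t - 3 + 3) := by
        apply DepthLE.ite
        · exact dH.mono (by linarith)
        · exact (ih G₁.gates hG₁ G₁ le_rfl).mono (by have := l2 G₁.gates (by omega); linarith)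
        · exact (ih G₀.gates hG₀ G₀ le_rfl).mono (by have := l2 G₀.gates (by omega); linarith)
      exact (key.mono (by linarith)).congr (fun x => h1 x)

end Pool.Agent.BoolCirc
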