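import Mathlib
import Pool.Agent.BoolCirc.Formula

/-!
Building circuits step by step: functions available at the nodes of a circuit, extension of a
circuit by a formula over available functions, unfolding of circuits into formulas, substitution.
-/

namespace Pool.Agent.BoolCirc

variable {m : ℕ}

/-- the function `f` is computed by some node of `C` of depth at most `d` -/
def Avail (C : Circuit m) (f : (Fin m → Bool) → Bool) (d : ℕ) : Prop :=
  ∃ o : Src m C.size, (∀ x, o.eval x (C.val x) = f x) ∧ o.depth C.gateDepth ≤ d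

theorem Avail.input (C : Circuit m) (i : Fin m) (d : ℕ) : Avail C (fun x => x i) d :=
  ⟨Src.input i, fun _ => rfl, Nat.zero_le _⟩

theorem Avail.const (C : Circuit m) (b : Bool) (d : ℕ) : Avail C (fun _ => b) d :=
  ⟨Src.const b, fun _ => rfl, Nat.zero_le _⟩

theorem Avail.mono {C : Circuit m} {f : (Fin m → Bool) → Bool} {d d' : ℕ} (h : Avail C f d)
    (hd : d ≤ d') : Avail C f d' := by
  obtain ⟨o, h1, h2⟩ := h
  exact ⟨o, h1, h2.trans hd⟩

theorem Avail.congr {C : Circuit m} {f g : (Fin m → Bool) → Bool} {d : ℕ} (h : Avail C f d)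
    (e : ∀ x, g x = f x) : Avail C g d := by
  obtain ⟨o, h1, h2⟩ := h
  exact ⟨o, fun x => (h1 x).trans (e x).symm, h2⟩

/-- an available function is computed by a circuit with the same gates -/
theorem Avail.exists_circuit {C : Circuit m} {f : (Fin m → Bool) → Bool} {d : ℕ}
    (h : Avail C f d) : ∃ C' : Circuit m, (∀ x, C'.eval x = f x) ∧ C'.depth ≤ d ∧
      C'.size = C.size := by
  obtain ⟨o, h1, h2⟩ := h
  have hval : ∀ (x : Fin m → Bool) (i : ℕ) (hi : i < C.size),
      Circuit.val (⟨C.size, C.gate, o⟩ : Circuit m) x ⟨i, hi⟩ = C.val x ⟨i, hi⟩ := by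
    intro x i
    induction i using Nat.strong_induction_on with
    | _ i ih =>
      intro hi
      rw [Circuit.val, Circuit.val]
      congr 1
      funext j
      exact ih j.1 j.2 (j.2.trans hi)
  have hdep : ∀ (i : ℕ) (hi : i < C.size),
      Circuit.gateDepth (⟨C.size, C.gate, o⟩ : Circuit m) ⟨i, hi⟩ = C.gateDepth ⟨i, hi⟩ := by
    intro i
    induction i using Nat.strong_induction_on with
    | _ i ih =>
      intro hi
      rw [Circuit.gateDepth, Circuit.gateDepth]
      congr 1
      funext j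
      exact ih j.1 j.2 (j.2.trans hi)
  refine ⟨⟨C.size, C.gate, o⟩, fun x => ?_, ?_, rfl⟩
  · rw [← h1 x]
    unfold Circuit.eval
    congr 1
    funext j
    exact hval x j.1 j.2
  · refine le_trans (le_of_eq ?_) h2
    unfold Circuit.depth
    congr 1
    funext j
    exact hdep j.1 j.2

/-- `C'` extends `C`: everything available in `C` stays available -/
def Ext (C C' : Circuit m) : Prop := ∀ f d, Avail C f d → Avail C' f d

theorem Ext.refl (C : Circuit m) : Ext C C := fun _ _ h => h

theorem Ext.trans {C C' C'' : Circuit m} (h : Ext C C') (h' : Ext C' C'') : Ext C C'' :=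
  fun f d hf => h' f d (h f d hf)

theorem ext_snoc (C : Circuit m) (g : Gate m C.size) : Ext C (C.snoc g) := by
  rintro f d ⟨o, h1, h2⟩
  refine ⟨o.map (fun j => (⟨j.1, Nat.lt_succ_of_lt j.2⟩ : Fin (C.size + 1))), fun x => ?_, ?_⟩
  · rw [← h1 x]
    refine (Src.eval_map _ _ _ _).trans ?_
    congr 1
    funext j
    exact C.snoc_val_lt g x j.1 j.2
  · refine le_trans (le_of_eq ?_) h2
    refine (Src.depth_map _ _ _).trans ?_
    congr 1
    funext j
    exact C.snoc_gateDepth_lt g j.1 j.2

theorem avail_snoc (C : Circuit m) (g : Gate m C.size) :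
    Avail (C.snoc g) (fun x => g.eval x (C.val x)) (g.depth C.gateDepth) :=
  ⟨(C.snoc g).out, fun x => C.snoc_eval g x, le_of_eq (C.snoc_depth g)⟩

theorem ext_and {C : Circuit m} {f g : (Fin m → Bool) → Bool} {d e : ℕ} (hf : Avail C f d)
    (hg : Avail C g e) : ∃ C' : Circuit m, Ext C C' ∧ C'.size = C.size + 1 ∧
      Avail C' (fun x => f x && g x) (max d e + 1) := by
  obtain ⟨o, h1, h2⟩ := hf
  obtain ⟨p, h3, h4⟩ := hg
  refine ⟨C.snoc (Gate.and o p), ext_snoc _ _, rfl, ?_⟩
  refine ((avail_snoc C (Gate.and o p)).mono ?_).congr ?_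
  · simp only [Gate.depth]; omega
  · intro x; simp only [Gate.eval, h1, h3]

theorem ext_or {C : Circuit m} {f g : (Fin m → Bool) → Bool} {d e : ℕ} (hf : Avail C f d)
    (hg : Avail C g e) : ∃ C' : Circuit m, Ext C C' ∧ C'.size = C.size + 1 ∧
      Avail C' (fun x => f x || g x) (max d e + 1) := by
  obtain ⟨o, h1, h2⟩ := hf
  obtain ⟨p, h3, h4⟩ := hg
  refine ⟨C.snoc (Gate.or o p), ext_snoc _ _, rfl, ?_⟩
  refine ((avail_snoc C (Gate.or o p)).mono ?_).congr ?_
  · simp only [Gate.depth]; omega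
  · intro x; simp only [Gate.eval, h1, h3]

theorem ext_not {C : Circuit m} {f : (Fin m → Bool) → Bool} {d : ℕ} (hf : Avail C f d) :
    ∃ C' : Circuit m, Ext C C' ∧ C'.size = C.size + 1 ∧ Avail C' (fun x => ! f x) (d + 1) := by
  obtain ⟨o, h1, h2⟩ := hf
  refine ⟨C.snoc (Gate.not o), ext_snoc _ _, rfl, ?_⟩
  refine ((avail_snoc C (Gate.not o)).mono ?_).congr ?_
  · simp only [Gate.depth]; omega
  · intro x; simp only [Gate.eval, h1]

/-- extension by a formula over available functions -/
theorem ext_fm {k : ℕ} (F : Fm k) (g : Fin k → (Fin m → Bool) → Bool) (d : ℕ) :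
    ∀ C : Circuit m, (∀ i, Avail C (g i) d) → ∃ C' : Circuit m, Ext C C' ∧
      C'.size = C.size + F.gates ∧ Avail C' (fun x => F.eval (fun i => g i x)) (d + F.depth) := by
  induction F with
  | inp i => exact fun C h => ⟨C, Ext.refl C, rfl, h i⟩
  | cst b => exact fun C _ => ⟨C, Ext.refl C, rfl, Avail.const C b _⟩
  | and a b iha ihb =>
    intro C h
    obtain ⟨C1, h1, h2, h3⟩ := iha C h
    obtain ⟨C2, h4, h5, h6⟩ := ihb C1 (fun i => h1 _ _ (h i))
    obtain ⟨C3, h7, h8, h9⟩ := ext_and (h4 _ _ h3) h6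
    refine ⟨C3, (h1.trans h4).trans h7, ?_, h9.mono ?_⟩
    · simp only [Fm.gates]; omega
    · simp only [Fm.depth]; omega
  | or a b iha ihb =>
    intro C h
    obtain ⟨C1, h1, h2, h3⟩ := iha C h
    obtain ⟨C2, h4, h5, h6⟩ := ihb C1 (fun i => h1 _ _ (h i))
    obtain ⟨C3, h7, h8, h9⟩ := ext_or (h4 _ _ h3) h6
    refine ⟨C3, (h1.trans h4).trans h7, ?_, h9.mono ?_⟩
    · simp only [Fm.gates]; omega
    · simp only [Fm.depth]; omega
  | not a iha =>
    intro C h
    obtain ⟨C1, h1, h2, h3⟩ := iha C h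
    obtain ⟨C3, h7, h8, h9⟩ := ext_not h3
    refine ⟨C3, h1.trans h7, ?_, h9.mono ?_⟩
    · simp only [Fm.gates]; omega
    · simp only [Fm.depth]; omega

/-- the circuit without gates -/
def Circuit.empty (m : ℕ) : Circuit m := ⟨0, fun i => i.elim0, Src.const false⟩

/-- unfolding of a node -/
theorem Circuit.exists_fm_gate (C : Circuit m) : ∀ (i : ℕ) (hi : i < C.size),
    ∃ F : Fm m, (∀ x, F.eval x = C.val x ⟨i, hi⟩) ∧ F.depth = C.gateDepth ⟨i, hi⟩ := by
  intro i
  induction i using Nat.strong_induction_on with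
  | _ i ih =>
    intro hi
    have aux : ∀ o : Src m i, ∃ F : Fm m,
        (∀ x, F.eval x = o.eval x (fun j => C.val x ⟨j.1, j.2.trans hi⟩)) ∧
        F.depth = o.depth (fun j => C.gateDepth ⟨j.1, j.2.trans hi⟩) := by
      intro o
      cases o with
      | input k => exact ⟨Fm.inp k, fun _ => rfl, rfl⟩
      | const b => exact ⟨Fm.cst b, fun _ => rfl, rfl⟩
      | gate j => exact ih j.1 j.2 (j.2.trans hi)
    cases hg : C.gate ⟨i, hi⟩ with
    | and a b =>
      obtain ⟨A, hA, hA'⟩ := aux a
      obtain ⟨B, hB, hB'⟩ := aux b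
      refine ⟨Fm.and A B, fun x => ?_, ?_⟩
      · rw [Circuit.val, hg]; simp only [Fm.eval, hA, hB, Gate.eval]
      · rw [Circuit.gateDepth, hg]; simp only [Fm.depth, hA', hB', Gate.depth]
    | or a b =>
      obtain ⟨A, hA, hA'⟩ := aux a
      obtain ⟨B, hB, hB'⟩ := aux b
      refine ⟨Fm.or A B, fun x => ?_, ?_⟩
      · rw [Circuit.val, hg]; simp only [Fm.eval, hA, hB, Gate.eval]
      · rw [Circuit.gateDepth, hg]; simp only [Fm.depth, hA', hB', Gate.depth]
    | not a =>
      obtain ⟨A, hA, hA'⟩ := aux a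
      refine ⟨Fm.not A, fun x => ?_, ?_⟩
      · rw [Circuit.val, hg]; simp only [Fm.eval, hA, Gate.eval]
      · rw [Circuit.gateDepth, hg]; simp only [Fm.depth, hA', Gate.depth]

/-- unfolding of a circuit -/
theorem Circuit.exists_fm (C : Circuit m) :
    ∃ F : Fm m, (∀ x, F.eval x = C.eval x) ∧ F.depth = C.depth := by
  unfold Circuit.eval Circuit.depth
  cases C.out with
  | input k => exact ⟨Fm.inp k, fun _ => rfl, rfl⟩
  | const b => exact ⟨Fm.cst b, fun _ => rfl, rfl⟩
  | gate j => exact C.exists_fm_gate j.1 j.2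

theorem Circuit.depthLE (C : Circuit m) {f : (Fin m → Bool) → Bool} {t : ℝ}
    (h : ∀ x, C.eval x = f x) (ht : (C.depth : ℝ) ≤ t) : DepthLE f t := by
  obtain ⟨F, h1, h2⟩ := C.exists_fm
  exact ⟨F, fun x => (h1 x).trans (h x), by rw [h2]; exact ht⟩

/-- substitution -/
theorem DepthLE.subst {k : ℕ} {f : (Fin k → Bool) → Bool} {g : Fin k → (Fin m → Bool) → Bool}
    {s t : ℝ} (hf : DepthLE f s) (hg : ∀ i, DepthLE (g i) t) (ht : 0 ≤ t) :
    DepthLE (fun x => f (fun i => g i x)) (t + s) := by
  obtain ⟨F, h1, h2⟩ := hf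
  have key : ∀ F : Fm k, DepthLE (fun x => F.eval (fun i => g i x)) (t + F.depth) := by
    intro F
    induction F with
    | inp i => exact (hg i).mono (by simp [Fm.depth])
    | cst b => exact DepthLE.const b (by simp [Fm.depth]; exact ht)
    | and a b iha ihb =>
      have h3 := (iha.mono (t := t + (max a.depth b.depth : ℕ)) (by
        have : (a.depth : ℝ) ≤ (max a.depth b.depth : ℕ) := by exact_mod_cast le_max_left _ _
        linarith)).and (ihb.mono (t := t + (max a.depth b.depth : ℕ)) (by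
        have : (b.depth : ℝ) ≤ (max a.depth b.depth : ℕ) := by exact_mod_cast le_max_right _ _
        linarith))
      refine h3.mono ?_
      simp only [Fm.depth]; push_cast; linarith
    | or a b iha ihb =>
      have h3 := (iha.mono (t := t + (max a.depth b.depth : ℕ)) (by
        have : (a.depth : ℝ) ≤ (max a.depth b.depth : ℕ) := by exact_mod_cast le_max_left _ _
        linarith)).or (ihb.mono (t := t + (max a.depth b.depth : ℕ)) (by
        have : (b.depth : ℝ) ≤ (max a.depth b.depth : ℕ) := by exact_mod_cast le_max_right _ _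
        linarith))
      refine h3.mono ?_
      simp only [Fm.depth]; push_cast; linarith
    | not a iha =>
      refine iha.not.mono ?_
      simp only [Fm.depth]; push_cast; linarith
  exact ((key F).mono (by linarith)).congr (fun x => (h1 _).symm)

end Pool.Agent.BoolCirc
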