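import Mathlib
import Pool.Agent.BoolCirc.Basic

/-!
Fan-out of the gates of a circuit and the number of excess wires.
-/

namespace Pool.Agent.BoolCirc

/-- `1` if the node is gate number `j`, otherwise `0` -/
def Src.uses {n i : ℕ} (j : ℕ) : Src n i → ℕ
  | input _ => 0
  | const _ => 0
  | gate k => if k.1 = j then 1 else 0

/-- number of wires from gate number `j` into the given gate -/
def Gate.uses {n i : ℕ} (j : ℕ) : Gate n i → ℕ
  | and a b => a.uses j + b.uses j
  | or a b => a.uses j + b.uses j
  | not a => a.uses j

/-- the fan-out of gate number `j`: the number of wires leaving it -/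
def Circuit.fanout {n : ℕ} (C : Circuit n) (j : ℕ) : ℕ := ∑ i : Fin C.size, (C.gate i).uses j

/-- The number of excess wires of a circuit: the sum over its gates of (fan-out minus one), where
gates of fan-out at most one contribute nothing. It is `0` exactly for formulas. -/
def Circuit.excess {n : ℕ} (C : Circuit n) : ℕ := ∑ j : Fin C.size, (C.fanout j - 1)

end Pool.Agent.BoolCirc
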