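import Mathlib
import Pool.Agent.BoolCirc.Formula

/-!
A Paterson-Valiant type theorem for networks whose nodes have two predecessors and whose node
functions have truth tables that are functions of the input.
-/

namespace Pool.Agent.BoolCirc

/-- a network with nodes `0, 1, 2, ...` -/
structure Net (n : ℕ) where
  p : ℕ → Option ℕ
  q : ℕ → Option ℕ
  hp : ∀ i j, p i = some j → j < i
  hq : ∀ i j, q i = some j → j < i
  t : ℕ → Bool → Bool → (Fin n → Bool) → Bool

/-- value of an optional predecessor -/
def opt {n : ℕ} (v : ℕ → (Fin n → Bool) → Bool) : Option ℕ → (Fin n → Bool) → Bool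
  | none => fun _ => false
  | some j => v j

namespace Net

variable {n : ℕ}

/-- Values of the nodes when the nodes below `lo` are given the values `e`. -/
def ev (N : Net n) (lo : ℕ) (e : ℕ → (Fin n → Bool) → Bool) (i : ℕ) : (Fin n → Bool) → Bool :=
  if i < lo then e i else fun x =>
    N.t i (match h : N.p i with | none => false | some j => N.ev lo e j x)
      (match h : N.q i with | none => false | some j => N.ev lo e j x) x
termination_by i
decreasing_by
  · exact N.hp i j h
  · exact N.hq i j h

theorem ev_lt (N : Net n) {lo : ℕ} (e : ℕ → (Fin n → Bool) → Bool) {i : ℕ} (h : i < lo) :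
    N.ev lo e i = e i := by
  rw [ev, if_pos h]

theorem ev_ge (N : Net n) {lo : ℕ} (e : ℕ → (Fin n → Bool) → Bool) {i : ℕ} (h : lo ≤ i) :
    N.ev lo e i = fun x => N.t i (opt (N.ev lo e) (N.p i) x) (opt (N.ev lo e) (N.q i) x) x := by
  rw [ev, if_neg (not_lt.mpr h)]
  funext x
  congr 1
  · split <;> rename_i h1 <;> rw [h1] <;> rfl
  · split <;> rename_i h1 <;> rw [h1] <;> rfl

/-- locality: the value at `x` depends only on the environment at `x` -/
theorem ev_local (N : Net n) (lo : ℕ) (e e' : ℕ → (Fin n → Bool) → Bool) (x : Fin n → Bool)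
    (h : ∀ g, e g x = e' g x) : ∀ i, N.ev lo e i x = N.ev lo e' i x := by
  intro i
  induction i using Nat.strong_induction_on with
  | _ i ih =>
    by_cases hi : i < lo
    · rw [ev_lt N e hi, ev_lt N e' hi, h]
    · rw [ev_ge N e (not_lt.mp hi), ev_ge N e' (not_lt.mp hi)]
      have h1 : ∀ o : Option ℕ, (∀ j, o = some j → j < i) →
          opt (N.ev lo e) o x = opt (N.ev lo e') o x := by
        intro o ho
        cases o with
        | none => rfl
        | some j => exact ih j (ho j rfl)
      simp only [h1 _ (N.hp i), h1 _ (N.hq i)]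

/-- changing the environment to the values computed so far -/
theorem ev_ev (N : Net n) {lo j : ℕ} (hj : lo ≤ j) (e : ℕ → (Fin n → Bool) → Bool) :
    ∀ i, N.ev j (N.ev lo e) i = N.ev lo e i := by
  intro i
  induction i using Nat.strong_induction_on with
  | _ i ih =>
    by_cases hi : i < j
    · rw [ev_lt N _ hi]
    · rw [ev_ge N _ (not_lt.mp hi), ev_ge N e (hj.trans (not_lt.mp hi))]
      have h1 : ∀ o : Option ℕ, (∀ k, o = some k → k < i) →
          opt (N.ev j (N.ev lo e)) o = opt (N.ev lo e) o := by
        intro o ho
        cases o with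
        | none => rfl
        | some k => exact ih k (ho k rfl)
      rw [h1 _ (N.hp i), h1 _ (N.hq i)]

/-- does the optional predecessor lie at or above `lo`? -/
def cnt (lo : ℕ) : Option ℕ → ℕ
  | none => 0
  | some j => if lo ≤ j then 1 else 0

/-- the optional predecessor, if it lies in `[lo, j)` -/
def cs (lo j : ℕ) : Option ℕ → Finset ℕ
  | none => ∅
  | some g => if lo ≤ g ∧ g < j then {g} else ∅

theorem cnt_eq {lo j : ℕ} (h : lo ≤ j) (o : Option ℕ) : cnt lo o = cnt j o + (cs lo j o).card := by
  cases o with
  | none => simp [cnt, cs]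
  | some g =>
    simp only [cnt, cs]
    by_cases h1 : j ≤ g
    · have h2 : lo ≤ g := h.trans h1
      have h3 : ¬ (lo ≤ g ∧ g < j) := by omega
      rw [if_pos h2, if_pos h1, if_neg h3]; simp
    · by_cases h2 : lo ≤ g
      · have h3 : lo ≤ g ∧ g < j := by omega
        rw [if_pos h2, if_neg h1, if_pos h3]; simp
      · have h3 : ¬ (lo ≤ g ∧ g < j) := by omega
        rw [if_neg h2, if_neg h1, if_neg h3]; simp

/-- number of wires into node `i` from nodes at or above `lo` -/
def w (N : Net n) (lo i : ℕ) : ℕ := cnt lo (N.p i) + cnt lo (N.q i)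

/-- number of wires inside `[lo, hi)` -/
def r (N : Net n) (lo hi : ℕ) : ℕ := ∑ i ∈ Finset.Ico lo hi, N.w lo i

/-- number of wires from `[lo, j)` to `[j, hi)` -/
def cr (N : Net n) (lo j hi : ℕ) : ℕ :=
  ∑ i ∈ Finset.Ico j hi, ((cs lo j (N.p i)).card + (cs lo j (N.q i)).card)

/-- the set of their tails -/
def G (N : Net n) (lo j hi : ℕ) : Finset ℕ :=
  (Finset.Ico j hi).biUnion (fun i => cs lo j (N.p i) ∪ cs lo j (N.q i))

theorem card_G_le (N : Net n) (lo j hi : ℕ) : (N.G lo j hi).card ≤ N.cr lo j hi := by
  unfold G cr
  refine Finset.card_biUnion_le.trans (Finset.sum_le_sum fun i _ => Finset.card_union_le _ _)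

theorem r_split (N : Net n) {lo j hi : ℕ} (h1 : lo ≤ j) (h2 : j ≤ hi) :
    N.r lo hi = N.r lo j + N.r j hi + N.cr lo j hi := by
  unfold r cr
  rw [← Finset.sum_Ico_consecutive _ h1 h2, add_assoc, ← Finset.sum_add_distrib]
  congr 1
  apply Finset.sum_congr rfl
  intro i _
  unfold w
  rw [cnt_eq h1 (N.p i), cnt_eq h1 (N.q i)]
  ring

theorem r_mono (N : Net n) {lo j hi : ℕ} (h2 : j ≤ hi) : N.r lo j ≤ N.r lo hi := by
  unfold r
  exact Finset.sum_le_sum_of_subset (Finset.Ico_subset_Ico le_rfl h2)

theorem r_self (N : Net n) (lo : ℕ) : N.r lo lo = 0 := by simp [r]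

/-- a balanced cut -/
theorem exists_cut (N : Net n) {lo hi : ℕ} (h : lo ≤ hi) :
    ∃ j, lo ≤ j ∧ j ≤ hi ∧ 2 * N.r lo j ≤ N.r lo hi ∧ 2 * N.r j hi ≤ N.r lo hi := by
  classical
  let P : ℕ → Prop := fun j => 2 * N.r lo j ≤ N.r lo hi
  have hP0 : P lo := by show 2 * N.r lo lo ≤ _; rw [r_self]; omega
  let j := Nat.findGreatest P hi
  have hj1 : lo ≤ j := Nat.le_findGreatest h hP0
  have hj2 : j ≤ hi := Nat.findGreatest_le hi
  have hj3 : P j := Nat.findGreatest_spec (P := P) h hP0
  refine ⟨j, hj1, hj2, hj3, ?_⟩
  rcases Nat.lt_or_ge j hi with hlt | hge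
  · have hnot : ¬ P (j + 1) := fun hh => by
      have := Nat.le_findGreatest (P := P) (show j + 1 ≤ hi from hlt) hh
      omega
    have h1 : N.r lo hi < 2 * N.r lo (j + 1) := not_le.mp hnot
    -- wires inside `[j, hi)` have their heads at or above `j + 1`
    have h2 : N.r j hi ≤ ∑ i ∈ Finset.Ico (j + 1) hi, N.w lo i := by
      have h3 : N.r j hi = N.w j j + ∑ i ∈ Finset.Ico (j + 1) hi, N.w j i := by
        unfold r
        rw [← Finset.sum_Ico_consecutive _ (Nat.le_succ j) hlt]
        simp
      have h4 : N.w j j = 0 := by
        have aux : ∀ o : Option ℕ, (∀ k, o = some k → k < j) → cnt j o = 0 := by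
          intro o ho
          cases o with
          | none => rfl
          | some k =>
            have := ho k rfl
            simp only [cnt]
            rw [if_neg (by omega)]
        unfold w
        rw [aux _ (N.hp j), aux _ (N.hq j)]
      rw [h3, h4, zero_add]
      apply Finset.sum_le_sum
      intro i _
      unfold w
      rw [cnt_eq hj1 (N.p i), cnt_eq hj1 (N.q i)]
      omega
    have h5 : N.r lo hi = N.r lo (j + 1) + ∑ i ∈ Finset.Ico (j + 1) hi, N.w lo i := by
      unfold r
      rw [Finset.sum_Ico_consecutive _ (by omega) hlt]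
    omega
  · have : j = hi := le_antisymm hj2 hge
    rw [this, r_self]; omega

end Net

/-- the depth of a node whose truth table has depth `D₀` entries -/
theorem DepthLE.node {n : ℕ} {a b : (Fin n → Bool) → Bool}
    {t : Bool → Bool → (Fin n → Bool) → Bool} {D : ℝ} (ha : DepthLE a D) (hb : DepthLE b D)
    (ht : ∀ u v, DepthLE (t u v) D) : DepthLE (fun x => t (a x) (b x) x) (D + 5) := by
  have i1 : ∀ u, DepthLE (fun x => if b x then t u true x else t u false x) (D + 3) := fun u =>
    hb.ite ((ht u true).mono (by linarith)) ((ht u false).mono (by linarith))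
  have i2 := (ha.mono (by linarith : D ≤ D + 2)).ite
    ((i1 true).mono (by linarith : D + 3 ≤ D + 2 + 1)) ((i1 false).mono (by linarith : D + 3 ≤ D + 2 + 1))
  refine (i2.mono (by linarith)).congr ?_
  intro x
  cases a x <;> cases b x <;> simp

/-- guessing the values of a finite set of functions -/
theorem depthLE_guess {n : ℕ} {H : (ℕ → (Fin n → Bool) → Bool) → (Fin n → Bool) → Bool}
    (loc : ∀ e e' x, (∀ g, e g x = e' g x) → H e x = H e' x) (G : Finset ℕ) (t u : ℝ) :
    ∀ e : ℕ → (Fin n → Bool) → Bool, (∀ g ∈ G, DepthLE (e g) u) →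
    (∀ e' : ℕ → (Fin n → Bool) → Bool, (∀ g ∈ G, ∃ b, e' g = fun _ => b) →
      (∀ g, g ∉ G → e' g = e g) → DepthLE (H e') t) →
    DepthLE (H e) (max t u + 1 + 2 * G.card) := by
  classical
  induction G using Finset.induction_on with
  | empty =>
    intro e _ h2
    refine (h2 e (by simp) (fun _ _ => rfl)).mono ?_
    have := le_max_left t u
    simp only [Finset.card_empty]
    push_cast
    linarith
  | insert g G hg ih =>
    intro e h1 h2
    have key : ∀ b : Bool, DepthLE (H (Function.update e g (fun _ => b))) (max t u + 1 + 2 * G.card) := by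
      intro b
      apply ih
      · intro g' hg'
        have hne : g' ≠ g := fun h => hg (h ▸ hg')
        rw [Function.update_of_ne hne]
        exact h1 g' (Finset.mem_insert_of_mem hg')
      · intro e' he1 he2
        apply h2
        · intro g' hg'
          rcases Finset.mem_insert.mp hg' with rfl | hg'
          · exact ⟨b, by rw [he2 g' hg, Function.update_self]⟩
          · exact he1 g' hg'
        · intro g' hg'
          have hne : g' ≠ g := fun h => hg' (h ▸ Finset.mem_insert_self _ _)
          rw [he2 g' (fun h => hg' (Finset.mem_insert_of_mem h)), Function.update_of_ne hne]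
    have hu : DepthLE (e g) (max t u + 2 * G.card) :=
      (h1 g (Finset.mem_insert_self _ _)).mono (by
        have := le_max_right t u
        have : (0 : ℝ) ≤ G.card := Nat.cast_nonneg _
        linarith)
    have i1 := hu.ite ((key true).mono (by linarith : _ ≤ max t u + 2 * (G.card : ℝ) + 1))
      ((key false).mono (by linarith : _ ≤ max t u + 2 * (G.card : ℝ) + 1))
    rw [Finset.card_insert_of_notMem hg]
    push_cast
    refine (i1.mono (by linarith)).congr ?_
    intro x
    cases hx : e g x with
    | true =>
      simp only [if_true]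
      apply loc
      intro g'
      by_cases h : g' = g
      · subst h; rw [Function.update_self, hx]
      · rw [Function.update_of_ne h]
    | false =>
      simp only [Bool.false_eq_true, if_false]
      apply loc
      intro g'
      by_cases h : g' = g
      · subst h; rw [Function.update_self, hx]
      · rw [Function.update_of_ne h]

namespace Net

variable {n : ℕ}

/-- the naive bound -/
theorem naive (N : Net n) {D₀ D : ℝ} (h0 : 0 ≤ D₀) (hD : D₀ ≤ D)
    (ht : ∀ i a b, DepthLE (N.t i a b) D₀) (lo : ℕ) (e : ℕ → (Fin n → Bool) → Bool)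
    (he : ∀ g < lo, DepthLE (e g) D) :
    ∀ i, lo ≤ i → DepthLE (N.ev lo e i) (D + 5 * ((N.r lo (i + 1) : ℝ) + 1)) := by
  intro i
  induction i using Nat.strong_induction_on with
  | _ i ih =>
    intro hi
    rw [ev_ge N e hi]
    set R : ℝ := (N.r lo (i + 1) : ℝ) with hR
    have hR0 : 0 ≤ R := Nat.cast_nonneg _
    have hDnn : 0 ≤ D := h0.trans hD
    -- the predecessors
    have hpre : ∀ o : Option ℕ, (∀ k, o = some k → k < i) → (cnt lo o ≤ N.w lo i) →
        DepthLE (opt (N.ev lo e) o) (D + 5 * R) := by
      intro o ho hc
      cases o with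
      | none => exact DepthLE.const false (by positivity)
      | some k =>
        show DepthLE (N.ev lo e k) _
        have hk := ho k rfl
        by_cases hlo : k < lo
        · rw [ev_lt N e hlo]
          exact (he k hlo).mono (by linarith)
        · have hlo' : lo ≤ k := not_lt.mp hlo
          refine (ih k hk hlo').mono ?_
          have h1 : N.r lo (k + 1) + N.w lo i ≤ N.r lo (i + 1) := by
            have h2 : N.r lo (i + 1) = N.r lo i + N.w lo i := by
              unfold r
              rw [Finset.sum_Ico_succ_top hi]
            rw [h2]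
            have := N.r_mono (lo := lo) (show k + 1 ≤ i from hk)
            omega
          have h3 : cnt lo (some k) = 1 := by simp [cnt, hlo']
          have h4 : N.r lo (k + 1) + 1 ≤ N.r lo (i + 1) := by omega
          have h5 : (N.r lo (k + 1) : ℝ) + 1 ≤ R := by rw [hR]; exact_mod_cast h4
          linarith
    have h1 := DepthLE.node (t := N.t i) (hpre (N.p i) (N.hp i) (by unfold w; omega))
      (hpre (N.q i) (N.hq i) (by unfold w; omega))
      (fun u v => (ht i u v).mono (by linarith : D₀ ≤ D + 5 * R))
    exact h1.mono (by linarith)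

/-- The Paterson-Valiant induction. -/
theorem pv (N : Net n) {D₀ : ℝ} (h0 : 0 ≤ D₀) (ht : ∀ i a b, DepthLE (N.t i a b) D₀) :
    ∀ (l lo hi : ℕ) (e : ℕ → (Fin n → Bool) → Bool) (D : ℝ), lo ≤ hi → D₀ ≤ D →
    (∀ g < lo, DepthLE (e g) D) → ∀ i, lo ≤ i → i < hi →
    DepthLE (N.ev lo e i) (D + 5 * (8 / ((l : ℝ) + 8)) * N.r lo hi + 5 * 2 ^ l) := by
  intro l
  induction l with
  | zero =>
    intro lo hi e D _ hD he i hi1 hi2
    refine (N.naive h0 hD ht lo e he i hi1).mono ?_
    have h1 : (N.r lo (i + 1) : ℝ) ≤ N.r lo hi := by exact_mod_cast N.r_mono hi2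
    norm_num
    linarith
  | succ l ih =>
    intro lo hi e D hlh hD he i hi1 hi2
    obtain ⟨j, hj1, hj2, hr1, hr2⟩ := N.exists_cut hlh
    have hsplit := N.r_split hj1 hj2
    set R : ℝ := (N.r lo hi : ℝ) with hR
    set R1 : ℝ := (N.r lo j : ℝ) with hR1
    set R2 : ℝ := (N.r j hi : ℝ) with hR2
    set A : ℝ := (N.cr lo j hi : ℝ) with hA
    have hsum : R = R1 + R2 + A := by rw [hR, hR1, hR2, hA]; exact_mod_cast hsplit
    have h1R : 2 * R1 ≤ R := by rw [hR, hR1]; exact_mod_cast hr1
    have h2R : 2 * R2 ≤ R := by rw [hR, hR2]; exact_mod_cast hr2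
    have hRnn : 0 ≤ R := Nat.cast_nonneg _
    have hR1nn : 0 ≤ R1 := Nat.cast_nonneg _
    have hR2nn : 0 ≤ R2 := Nat.cast_nonneg _
    have hAnn : 0 ≤ A := Nat.cast_nonneg _
    have hDnn : 0 ≤ D := h0.trans hD
    have hl0 : (0 : ℝ) ≤ l := Nat.cast_nonneg _
    set lam : ℝ := 8 / ((l : ℝ) + 8) with hlam
    set lam' : ℝ := 8 / (((l + 1 : ℕ) : ℝ) + 8) with hlam'
    have hlam0 : 0 < lam := by rw [hlam]; positivity
    have hlam'0 : 0 < lam' := by rw [hlam']; positivity
    have q1 : lam * (1 - lam / 8) ≤ lam' := by
      rw [hlam, hlam']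
      push_cast
      rw [show (8 : ℝ) / (l + 8) * (1 - 8 / (l + 8) / 8) = 8 * (l + 7) / (l + 8) ^ 2 by
        field_simp; ring]
      rw [div_le_div_iff₀ (by positivity) (by positivity)]
      nlinarith
    have q2 : 11 / 4 * lam ≤ 5 * lam' := by
      rw [hlam, hlam']
      push_cast
      rw [← mul_div_assoc, ← mul_div_assoc, div_le_div_iff₀ (by positivity) (by positivity)]
      nlinarith
    have hpow : (5 : ℝ) * 2 ^ (l + 1) = 5 * 2 ^ l + 5 * 2 ^ l := by rw [pow_succ]; ring
    have hpow1 : (1 : ℝ) ≤ 2 ^ l := one_le_pow₀ (by norm_num)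
    -- the lower part
    have low : ∀ g, g < j → lo ≤ g → DepthLE (N.ev lo e g) (D + 5 * lam * R1 + 5 * 2 ^ l) :=
      fun g hg hg' => ih lo j e D hj1 hD he g hg' hg
    have lowall : ∀ g, g < j → DepthLE (N.ev lo e g) (D + 5 * lam * R1 + 5 * 2 ^ l) := by
      intro g hg
      by_cases hg' : g < lo
      · rw [ev_lt N e hg']
        exact (he g hg').mono (by have : 0 ≤ 5 * lam * R1 := by positivity
                                  linarith)
      · exact low g hg (not_lt.mp hg')
    rcases Nat.lt_or_ge i j with hij | hij
    · refine (low i hij hi1).mono ?_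
      rw [hpow]
      have e1 : 5 * lam * R1 ≤ 5 * lam' * R := by
        have : 5 * lam * R1 ≤ 5 / 2 * lam * R := by nlinarith
        have : 5 / 2 * lam * R ≤ 11 / 4 * lam * R := by nlinarith
        have : 11 / 4 * lam * R ≤ 5 * lam' * R := mul_le_mul_of_nonneg_right q2 hRnn
        linarith
      linarith
    · rw [← N.ev_ev hj1 e i]
      by_cases hcase : lam * R / 8 ≤ A
      · -- many crossing wires
        have up := ih j hi (N.ev lo e) (D + 5 * lam * R1 + 5 * 2 ^ l) hj2
          (by have : 0 ≤ 5 * lam * R1 := by positivity
              linarith) (fun g hg => lowall g hg) i hij hi2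
        refine up.mono ?_
        rw [hpow]
        have e1 : 5 * lam * (R1 + R2) ≤ 5 * lam' * R := by
          have e2 : R1 + R2 ≤ R - lam * R / 8 := by linarith
          have e3 : 5 * lam * (R1 + R2) ≤ 5 * lam * (R - lam * R / 8) :=
            mul_le_mul_of_nonneg_left e2 (by positivity)
          have e4 : 5 * lam * (R - lam * R / 8) = 5 * (lam * (1 - lam / 8)) * R := by ring
          have e5 : 5 * (lam * (1 - lam / 8)) * R ≤ 5 * lam' * R :=
            mul_le_mul_of_nonneg_right (by linarith) hRnn
          linarith
        have e6 : 5 * lam * (R1 + R2) = 5 * lam * R1 + 5 * lam * R2 := by ring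
        linarith
      · -- few crossing wires: guess the values of their tails
        push Not at hcase
        have hcard : ((N.G lo j hi).card : ℝ) ≤ A := by
          rw [hA]; exact_mod_cast N.card_G_le lo j hi
        -- an environment that forgets the irrelevant nodes
        classical
        set e1 : ℕ → (Fin n → Bool) → Bool := fun g =>
          if g ∈ N.G lo j hi ∨ g < lo then N.ev lo e g else fun _ => false with he1
        have heq : ∀ k, j ≤ k → k < hi → N.ev j (N.ev lo e) k = N.ev j e1 k := by
          intro k
          induction k using Nat.strong_induction_on with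
          | _ k ihk =>
            intro hk1 hk2
            rw [ev_ge N _ hk1, ev_ge N _ hk1]
            have aux : ∀ o : Option ℕ, (∀ m, o = some m → m < k) →
                cs lo j o ⊆ N.G lo j hi → opt (N.ev j (N.ev lo e)) o = opt (N.ev j e1) o := by
              intro o ho hsub
              cases o with
              | none => rfl
              | some m =>
                show N.ev j (N.ev lo e) m = N.ev j e1 m
                have hm := ho m rfl
                by_cases hmj : m < j
                · rw [ev_lt N _ hmj, ev_lt N _ hmj, he1]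
                  by_cases hmlo : m < lo
                  · simp only [hmlo, or_true, if_true]
                  · have hmem : m ∈ N.G lo j hi := by
                      apply hsub
                      simp only [cs]
                      rw [if_pos ⟨not_lt.mp hmlo, hmj⟩]
                      exact Finset.mem_singleton_self m
                    simp only [hmem, true_or, if_true]
                · exact ihk m hm (not_lt.mp hmj) (hm.trans hk2)
            have hkmem : k ∈ Finset.Ico j hi := Finset.mem_Ico.mpr ⟨hk1, hk2⟩
            have s1 : cs lo j (N.p k) ⊆ N.G lo j hi := by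
              unfold G
              exact (Finset.subset_union_left).trans
                (Finset.subset_biUnion_of_mem (fun i => cs lo j (N.p i) ∪ cs lo j (N.q i)) hkmem)
            have s2 : cs lo j (N.q k) ⊆ N.G lo j hi := by
              unfold G
              exact (Finset.subset_union_right).trans
                (Finset.subset_biUnion_of_mem (fun i => cs lo j (N.p i) ∪ cs lo j (N.q i)) hkmem)
            rw [aux _ (N.hp k) s1, aux _ (N.hq k) s2]
        rw [heq i hij hi2]
        have guess := depthLE_guess (H := fun e' => N.ev j e' i)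
          (fun e e' x h => N.ev_local j e e' x h i) (N.G lo j hi)
          (D + 5 * lam * R2 + 5 * 2 ^ l) (D + 5 * lam * R1 + 5 * 2 ^ l) e1
          (by
            intro g hg
            have hgj : g < j := by
              unfold G at hg
              rw [Finset.mem_biUnion] at hg
              obtain ⟨k, _, hk⟩ := hg
              have aux : ∀ o : Option ℕ, g ∈ cs lo j o → g < j := by
                intro o ho
                cases o with
                | none => simp [cs] at ho
                | some m =>
                  simp only [cs] at ho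
                  split_ifs at ho with hh
                  · rw [Finset.mem_singleton] at ho
                    omega
                  · simp at ho
              rcases Finset.mem_union.mp hk with h | h
              · exact aux _ h
              · exact aux _ h
            have : e1 g = N.ev lo e g := by
              rw [he1]; simp only [hg, true_or, if_true]
            rw [this]
            exact lowall g hgj)
          (by
            intro e' h1 h2
            refine ih j hi e' D hj2 hD ?_ i hij hi2
            intro g hg
            by_cases hgG : g ∈ N.G lo j hi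
            · obtain ⟨b, hb⟩ := h1 g hgG
              rw [hb]
              exact DepthLE.const b hDnn
            · rw [h2 g hgG, he1]
              by_cases hglo : g < lo
              · simp only [hglo, or_true, if_true]
                rw [ev_lt N e hglo]
                exact he g hglo
              · simp only [hgG, hglo, or_self, if_false]
                exact DepthLE.const false hDnn)
        refine guess.mono ?_
        rw [hpow]
        have m1 : max (D + 5 * lam * R2 + 5 * 2 ^ l) (D + 5 * lam * R1 + 5 * 2 ^ l) ≤
            D + 5 / 2 * lam * R + 5 * 2 ^ l := by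
          apply max_le
          · nlinarith
          · nlinarith
        have m2 : 2 * ((N.G lo j hi).card : ℝ) ≤ lam * R / 4 := by linarith
        have m3 : 5 / 2 * lam * R + lam * R / 4 = 11 / 4 * lam * R := by ring
        have m4 : 11 / 4 * lam * R ≤ 5 * lam' * R := mul_le_mul_of_nonneg_right q2 hRnn
        linarith

end Net

end Pool.Agent.BoolCirc
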