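import Mathlib
import Pool.Agent.BoolCirc.PV

/-!
Contraction of the tree-like parts of a circuit: the skeleton network.
-/

namespace Pool.Agent.BoolCirc

/-- operands with gates numbered by natural numbers -/
inductive Opd (n : ℕ) : Type
  | inp (i : Fin n) : Opd n
  | cst (b : Bool) : Opd n
  | gt (j : ℕ) : Opd n

/-- the three kinds of gates -/
inductive Kind : Type
  | and | or | not

/-- operation of a kind (a NOT gate ignores its second argument) -/
def Kind.fn : Kind → Bool → Bool → Bool
  | Kind.and, u, v => u && v
  | Kind.or, u, v => u || v
  | Kind.not, u, _ => ! u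

/-- operation of a kind on formulas -/
def Kind.fm {n : ℕ} : Kind → Fm n → Fm n → Fm n
  | Kind.and, u, v => Fm.and u v
  | Kind.or, u, v => Fm.or u v
  | Kind.not, u, _ => Fm.not u

theorem Kind.eval_fm {n : ℕ} (k : Kind) (F G : Fm n) (x : Fin n → Bool) :
    (k.fm F G).eval x = k.fn (F.eval x) (G.eval x) := by
  cases k <;> rfl

theorem Kind.gates_fm {n : ℕ} (k : Kind) (F G : Fm n) :
    (k.fm F G).gates ≤ F.gates + G.gates + 1 := by
  cases k <;> simp only [Kind.fm, Fm.gates] <;> omega

/-- A circuit with gates numbered by natural numbers. -/
structure Dag (n : ℕ) where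
  kind : ℕ → Kind
  a : ℕ → Opd n
  b : ℕ → Opd n
  ha : ∀ i j, a i = Opd.gt j → j < i
  hb : ∀ i j, b i = Opd.gt j → j < i

namespace Dag

variable {n : ℕ}

/-- value of an operand given the values of the gates -/
def ov (v : ℕ → (Fin n → Bool) → Bool) : Opd n → (Fin n → Bool) → Bool
  | Opd.inp i => fun x => x i
  | Opd.cst b => fun _ => b
  | Opd.gt j => v j

/-- value of gate `i` -/
def val (D : Dag n) (i : ℕ) (x : Fin n → Bool) : Bool :=
  (D.kind i).fn
    (match h : D.a i with | Opd.inp k => x k | Opd.cst b => b | Opd.gt j => D.val j x)
    (match h : D.b i with | Opd.inp k => x k | Opd.cst b => b | Opd.gt j => D.val j x)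
termination_by i
decreasing_by
  · exact D.ha i j h
  · exact D.hb i j h

theorem val_eq (D : Dag n) (i : ℕ) :
    D.val i = fun x => (D.kind i).fn (ov D.val (D.a i) x) (ov D.val (D.b i) x) := by
  funext x
  rw [val]
  congr 1
  · split <;> rename_i h1 <;> rw [h1] <;> rfl
  · split <;> rename_i h1 <;> rw [h1] <;> rfl

/-- combination rule for pivots -/
def comb (K : Bool) (i : ℕ) (s t : Option ℕ) : Option ℕ :=
  if K then some i else
    match s, t with
    | some _, some _ => some i
    | some p, none => some p
    | none, some p => some p
    | none, none => none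

/-- The pivot of gate `i`: the highest skeleton gate on which its value depends apart from the
input; `none` if the part of the circuit below it is a formula in the input. -/
def cp (D : Dag n) (K : ℕ → Bool) (i : ℕ) : Option ℕ :=
  comb (K i) i
    (match h : D.a i with | Opd.gt j => D.cp K j | Opd.inp _ => none | Opd.cst _ => none)
    (match h : D.b i with | Opd.gt j => D.cp K j | Opd.inp _ => none | Opd.cst _ => none)
termination_by i
decreasing_by
  · exact D.ha i j h
  · exact D.hb i j h

/-- pivot of an operand -/
def co (f : ℕ → Option ℕ) : Opd n → Option ℕ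
  | Opd.gt j => f j
  | Opd.inp _ => none
  | Opd.cst _ => none

theorem cp_eq (D : Dag n) (K : ℕ → Bool) (i : ℕ) :
    D.cp K i = comb (K i) i (co (D.cp K) (D.a i)) (co (D.cp K) (D.b i)) := by
  rw [cp]
  congr 1
  · split <;> rename_i h1 <;> rw [h1] <;> rfl
  · split <;> rename_i h1 <;> rw [h1] <;> rfl

theorem comb_cases {K : Bool} {i p : ℕ} {s t : Option ℕ} (h : comb K i s t = some p) :
    p = i ∨ s = some p ∨ t = some p := by
  unfold comb at h
  split_ifs at h
  · left; exact (Option.some.inj h).symm
  · cases s <;> cases t <;> simp at h <;> simp [h]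

theorem cp_le (D : Dag n) (K : ℕ → Bool) : ∀ i p, D.cp K i = some p → p ≤ i := by
  intro i
  induction i using Nat.strong_induction_on with
  | _ i ih =>
    intro p hp
    rw [cp_eq] at hp
    have aux : ∀ o : Opd n, (∀ j, o = Opd.gt j → j < i) → co (D.cp K) o = some p → p ≤ i := by
      intro o ho h
      cases o with
      | gt j => exact (ih j (ho j rfl) p h).trans (ho j rfl).le
      | inp k => simp [co] at h
      | cst b => simp [co] at h
    rcases comb_cases hp with rfl | h | h
    · exact le_rfl
    · exact aux _ (D.ha i) h
    · exact aux _ (D.hb i) h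

theorem co_lt (D : Dag n) (K : ℕ → Bool) {i p : ℕ} {o : Opd n} (ho : ∀ j, o = Opd.gt j → j < i)
    (h : co (D.cp K) o = some p) : p < i := by
  cases o with
  | gt j => exact (D.cp_le K j p h).trans_lt (ho j rfl)
  | inp k => simp [co] at h
  | cst b => simp [co] at h

theorem cp_idem (D : Dag n) (K : ℕ → Bool) : ∀ i p, D.cp K i = some p → D.cp K p = some p := by
  intro i
  induction i using Nat.strong_induction_on with
  | _ i ih =>
    intro p hp
    have hp' := hp
    rw [cp_eq] at hp
    have aux : ∀ o : Opd n, (∀ j, o = Opd.gt j → j < i) → co (D.cp K) o = some p →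
        D.cp K p = some p := by
      intro o ho h
      cases o with
      | gt j => exact ih j (ho j rfl) p h
      | inp k => simp [co] at h
      | cst b => simp [co] at h
    rcases comb_cases hp with rfl | h | h
    · exact hp'
    · exact aux _ (D.ha i) h
    · exact aux _ (D.hb i) h

/-- the formula for gate `i` with the value of its pivot replaced by `β` -/
def PF (D : Dag n) (K : ℕ → Bool) (β : Bool) (i : ℕ) : Fm n :=
  (D.kind i).fm
    (match h : D.a i with
      | Opd.inp k => Fm.inp k
      | Opd.cst b => Fm.cst b
      | Opd.gt j => if D.cp K j = some j then Fm.cst β else D.PF K β j)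
    (match h : D.b i with
      | Opd.inp k => Fm.inp k
      | Opd.cst b => Fm.cst b
      | Opd.gt j => if D.cp K j = some j then Fm.cst β else D.PF K β j)
termination_by i
decreasing_by
  · exact D.ha i j h
  · exact D.hb i j h

/-- the formula for an operand -/
def fF (D : Dag n) (K : ℕ → Bool) (β : Bool) : Opd n → Fm n
  | Opd.inp k => Fm.inp k
  | Opd.cst b => Fm.cst b
  | Opd.gt j => if D.cp K j = some j then Fm.cst β else D.PF K β j

theorem PF_eq (D : Dag n) (K : ℕ → Bool) (β : Bool) (i : ℕ) :
    D.PF K β i = (D.kind i).fm (D.fF K β (D.a i)) (D.fF K β (D.b i)) := by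
  rw [PF]
  congr 1
  · split <;> rename_i h1 <;> rw [h1] <;> rfl
  · split <;> rename_i h1 <;> rw [h1] <;> rfl

/-- without a pivot the formula does not depend on the guess -/
theorem PF_indep (D : Dag n) (K : ℕ → Bool) (β β' : Bool) :
    ∀ i, D.cp K i = none → D.PF K β i = D.PF K β' i := by
  intro i
  induction i using Nat.strong_induction_on with
  | _ i ih =>
    intro hi
    have hi' := hi
    rw [cp_eq] at hi
    have hab : co (D.cp K) (D.a i) = none ∧ co (D.cp K) (D.b i) = none := by
      unfold comb at hi
      split_ifs at hi
      revert hi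
      cases co (D.cp K) (D.a i) <;> cases co (D.cp K) (D.b i) <;> simp
    have aux : ∀ o : Opd n, (∀ j, o = Opd.gt j → j < i) → co (D.cp K) o = none →
        D.fF K β o = D.fF K β' o := by
      intro o ho h
      cases o with
      | gt j =>
        simp only [co] at h
        simp only [fF, h]
        simp only [reduceCtorEq, if_false]
        exact ih j (ho j rfl) h
      | inp k => rfl
      | cst b => rfl
    rw [PF_eq, PF_eq, aux _ (D.ha i) hab.1, aux _ (D.hb i) hab.2]

theorem fF_indep (D : Dag n) (K : ℕ → Bool) (β β' : Bool) (o : Opd n)
    (h : co (D.cp K) o = none) : D.fF K β o = D.fF K β' o := by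
  cases o with
  | gt j =>
    simp only [co] at h
    simp only [fF, h]
    simp only [reduceCtorEq, if_false]
    exact D.PF_indep K β β' j h
  | inp k => rfl
  | cst b => rfl

/-- correctness of the operand formulas -/
theorem fF_correct (D : Dag n) (K : ℕ → Bool) (x : Fin n → Bool) :
    ∀ (i : ℕ) (o : Opd n), (∀ j, o = Opd.gt j → j < i) →
    (D.fF K (opt D.val (co (D.cp K) o) x) o).eval x = ov D.val o x := by
  intro i
  induction i with
  | zero =>
    intro o ho
    cases o with
    | gt j => exact absurd (ho j rfl) (Nat.not_lt_zero _)
    | inp k => rfl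
    | cst b => rfl
  | succ i ih =>
    intro o ho
    cases o with
    | inp k => rfl
    | cst b => rfl
    | gt j =>
      have hj : j < i + 1 := ho j rfl
      have hja : ∀ m, D.a j = Opd.gt m → m < i := fun m hm => by
        have := D.ha j m hm; omega
      have hjb : ∀ m, D.b j = Opd.gt m → m < i := fun m hm => by
        have := D.hb j m hm; omega
      have iha := ih (D.a j) hja
      have ihb := ih (D.b j) hjb
      simp only [co, ov, fF]
      by_cases hself : D.cp K j = some j
      · rw [if_pos hself, hself]; rfl
      · rw [if_neg hself, PF_eq, Kind.eval_fm, val_eq]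
        have hcp := D.cp_eq K j
        have hna : co (D.cp K) (D.a j) ≠ some j := fun h => by
          have := D.co_lt K (D.ha j) h; omega
        have hnb : co (D.cp K) (D.b j) ≠ some j := fun h => by
          have := D.co_lt K (D.hb j) h; omega
        show (D.kind j).fn _ _ = (D.kind j).fn _ _
        unfold comb at hcp
        split_ifs at hcp with hK
        · exact absurd hcp hself
        · cases hA : co (D.cp K) (D.a j) with
          | none =>
            cases hB : co (D.cp K) (D.b j) with
            | none =>
              rw [hA, hB] at hcp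
              simp only at hcp
              rw [hA] at iha
              rw [hB] at ihb
              rw [hcp, iha, ihb]
            | some p =>
              rw [hA, hB] at hcp
              simp only at hcp
              rw [hB] at ihb
              rw [hcp, ihb, ← iha]
              rw [D.fF_indep K _ (opt D.val (co (D.cp K) (D.a j)) x) (D.a j) hA]
          | some p =>
            cases hB : co (D.cp K) (D.b j) with
            | none =>
              rw [hA, hB] at hcp
              simp only at hcp
              rw [hA] at iha
              rw [hcp, iha, ← ihb]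
              rw [D.fF_indep K _ (opt D.val (co (D.cp K) (D.b j)) x) (D.b j) hB]
            | some q =>
              rw [hA, hB] at hcp
              simp only at hcp
              exact absurd hcp hself

/-- the skeleton network -/
def net (D : Dag n) (K : ℕ → Bool) : Net n where
  p := fun i => if D.cp K i = some i then co (D.cp K) (D.a i) else none
  q := fun i => if D.cp K i = some i then co (D.cp K) (D.b i) else none
  hp := by
    intro i j h
    split_ifs at h
    exact D.co_lt K (D.ha i) h
  hq := by
    intro i j h
    split_ifs at h
    exact D.co_lt K (D.hb i) h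
  t := fun i α β x => (D.kind i).fn ((D.fF K α (D.a i)).eval x) ((D.fF K β (D.b i)).eval x)

theorem net_correct (D : Dag n) (K : ℕ → Bool) (e : ℕ → (Fin n → Bool) → Bool)
    (x : Fin n → Bool) :
    ∀ i, D.cp K i = some i → (D.net K).ev 0 e i x = D.val i x := by
  intro i
  induction i using Nat.strong_induction_on with
  | _ i ih =>
    intro hi
    rw [Net.ev_ge _ _ (Nat.zero_le _), val_eq]
    have hp : (D.net K).p i = co (D.cp K) (D.a i) := by
      show (if D.cp K i = some i then _ else none) = _
      rw [if_pos hi]
    have hq : (D.net K).q i = co (D.cp K) (D.b i) := by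
      show (if D.cp K i = some i then _ else none) = _
      rw [if_pos hi]
    have aux : ∀ o : Opd n, (∀ j, o = Opd.gt j → j < i) →
        opt ((D.net K).ev 0 e) (co (D.cp K) o) x = opt D.val (co (D.cp K) o) x := by
      intro o ho
      cases h : co (D.cp K) o with
      | none => rfl
      | some p =>
        show (D.net K).ev 0 e p x = D.val p x
        have hlt : p < i := D.co_lt K ho h
        apply ih p hlt
        cases o with
        | gt j => exact D.cp_idem K j p h
        | inp k => simp [co] at h
        | cst b => simp [co] at h
    simp only [hp, hq]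
    rw [aux _ (D.ha i), aux _ (D.hb i)]
    show (D.kind i).fn _ _ = _
    rw [D.fF_correct K x i _ (D.ha i), D.fF_correct K x i _ (D.hb i)]

/-! ### counting -/

/-- number of operands of gate `i` equal to gate `j` -/
def oc (o : Opd n) (j : ℕ) : ℕ :=
  match o with
  | Opd.gt k => if k = j then 1 else 0
  | Opd.inp _ => 0
  | Opd.cst _ => 0

def cn (D : Dag n) (i j : ℕ) : ℕ := oc (D.a i) j + oc (D.b i) j

/-- number of wires from gate `j` to gates below `S` -/
def fo (D : Dag n) (S j : ℕ) : ℕ := ∑ i ∈ Finset.range S, D.cn i j

theorem sum_oc {o : Opd n} {S : ℕ} (ho : ∀ j, o = Opd.gt j → j < S) (f : ℕ → ℕ) :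
    ∑ h ∈ Finset.range S, oc o h * f h = match o with
      | Opd.gt k => f k
      | Opd.inp _ => 0
      | Opd.cst _ => 0 := by
  cases o with
  | gt k =>
    simp only [oc]
    rw [Finset.sum_eq_single k]
    · simp
    · intro b _ hb
      rw [if_neg (Ne.symm hb)]; simp
    · intro h
      exact absurd (Finset.mem_range.mpr (ho k rfl)) h
  | inp k => simp [oc]
  | cst b => simp [oc]

/-- size of the unfolding of gate `i`, cut at the gates in `K` -/
def W (D : Dag n) (K : ℕ → Bool) (i : ℕ) : ℕ :=
  1 + (match h : D.a i with
        | Opd.gt j => if K j then 0 else D.W K j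
        | Opd.inp _ => 0
        | Opd.cst _ => 0)
    + (match h : D.b i with
        | Opd.gt j => if K j then 0 else D.W K j
        | Opd.inp _ => 0
        | Opd.cst _ => 0)
termination_by i
decreasing_by
  · exact D.ha i j h
  · exact D.hb i j h

/-- the same for operands -/
def Wo (D : Dag n) (K : ℕ → Bool) : Opd n → ℕ
  | Opd.gt j => if K j then 0 else D.W K j
  | Opd.inp _ => 0
  | Opd.cst _ => 0

theorem W_eq (D : Dag n) (K : ℕ → Bool) (i : ℕ) :
    D.W K i = 1 + D.Wo K (D.a i) + D.Wo K (D.b i) := by
  rw [W]
  congr 1
  · congr 1
    split <;> rename_i h1 <;> rw [h1] <;> rfl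
  · split <;> rename_i h1 <;> rw [h1] <;> rfl

theorem Wo_sum (D : Dag n) (K : ℕ → Bool) {o : Opd n} {S : ℕ} (ho : ∀ j, o = Opd.gt j → j < S) :
    D.Wo K o = ∑ h ∈ Finset.range S, oc o h * (if K h then 0 else D.W K h) := by
  rw [sum_oc ho]
  cases o <;> rfl

theorem W_sum (D : Dag n) (K : ℕ → Bool) (i : ℕ) :
    D.W K i = 1 + ∑ h ∈ Finset.range i, D.cn i h * (if K h then 0 else D.W K h) := by
  rw [W_eq, D.Wo_sum K (D.ha i), D.Wo_sum K (D.hb i), add_assoc, ← Finset.sum_add_distrib]
  congr 1
  apply Finset.sum_congr rfl
  intro h _
  unfold cn
  ring

theorem gates_PF_le (D : Dag n) (K : ℕ → Bool) (β : Bool) (i : ℕ) :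
    (D.PF K β i).gates ≤ D.W K i := by
  induction i using Nat.strong_induction_on with
  | _ i ih =>
    have aux : ∀ o : Opd n, (∀ j, o = Opd.gt j → j < i) → (D.fF K β o).gates ≤ D.Wo K o := by
      intro o ho
      cases o with
      | inp k => simp [fF, Fm.gates]
      | cst b => simp [fF, Fm.gates]
      | gt j =>
        simp only [fF, Wo]
        by_cases h : D.cp K j = some j
        · rw [if_pos h]; simp [Fm.gates]
        · rw [if_neg h]
          have hK : K j = false := by
            by_contra hc
            have hc' : K j = true := by simpa using hc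
            apply h
            rw [cp_eq]
            unfold comb
            rw [if_pos hc']
          rw [hK]
          simp only [Bool.false_eq_true, if_false]
          exact ih j (ho j rfl)
    rw [PF_eq, W_eq]
    refine (Kind.gates_fm _ _ _).trans ?_
    have h1 := aux _ (D.ha i)
    have h2 := aux _ (D.hb i)
    omega

theorem gates_fF_le (D : Dag n) (K : ℕ → Bool) (β : Bool) (o : Opd n) :
    (D.fF K β o).gates ≤ D.Wo K o := by
  cases o with
  | inp k => simp [fF, Fm.gates]
  | cst b => simp [fF, Fm.gates]
  | gt j =>
    simp only [fF, Wo]
    by_cases h : D.cp K j = some j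
    · rw [if_pos h]; simp [Fm.gates]
    · rw [if_neg h]
      have hK : K j = false := by
        by_contra hc
        have hc' : K j = true := by simpa using hc
        apply h
        rw [cp_eq]
        unfold comb
        rw [if_pos hc']
      rw [hK]
      simp only [Bool.false_eq_true, if_false]
      exact D.gates_PF_le K β j

theorem cn_eq_zero (D : Dag n) {i j : ℕ} (h : i ≤ j) : D.cn i j = 0 := by
  have aux : ∀ o : Opd n, (∀ k, o = Opd.gt k → k < i) → oc o j = 0 := by
    intro o ho
    cases o with
    | gt k =>
      have := ho k rfl
      simp only [oc]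
      rw [if_neg (by omega)]
    | inp k => rfl
    | cst b => rfl
  unfold cn
  rw [aux _ (D.ha i), aux _ (D.hb i)]

/-- The potential argument: unfoldings are small. -/
theorem W_le (D : Dag n) (K : ℕ → Bool) (S : ℕ) (hK : ∀ j < S, K j = false → D.fo S j ≤ 1) :
    ∀ i < S, D.W K i ≤ S := by
  classical
  let A : ℕ → ℕ → ℕ := fun t h => if K h = true ∨ ∀ i < t, D.cn i h = 0 then 1 else 0
  have step : ∀ t, t < S → ∀ h, h < t →
      A (t + 1) h + D.cn t h * (if K h then 0 else 1) ≤ A t h := by
    intro t ht h hh
    by_cases hKh : K h = true
    · simp [A, hKh]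
    · have hKf : K h = false := by simpa using hKh
      have hfo := hK h (hh.trans ht) hKf
      simp only [hKf, Bool.false_eq_true, if_false, mul_one]
      by_cases hc : D.cn t h = 0
      · rw [hc, add_zero]
        by_cases hall : ∀ i < t + 1, D.cn i h = 0
        · have hall' : ∀ i < t, D.cn i h = 0 := fun i hi => hall i (by omega)
          simp only [A]
          rw [if_pos (Or.inr hall), if_pos (Or.inr hall')]
        · simp only [A]
          rw [if_neg (by rintro (h1 | h1); exact hKh h1; exact hall h1)]
          exact Nat.zero_le _
      · have h1 : ¬ (K h = true ∨ ∀ i < t + 1, D.cn i h = 0) := by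
          rintro (h1 | h1)
          · exact hKh h1
          · exact hc (h1 t (Nat.lt_succ_self _))
        have hsum : ∀ i, i < t → D.cn i h = 0 := by
          intro i hi
          by_contra hne
          have h2 : D.cn i h + D.cn t h ≤ D.fo S h := by
            unfold fo
            have : ∑ k ∈ ({i, t} : Finset ℕ), D.cn k h ≤ ∑ k ∈ Finset.range S, D.cn k h := by
              apply Finset.sum_le_sum_of_subset
              intro k hk
              simp only [Finset.mem_insert, Finset.mem_singleton] at hk
              rw [Finset.mem_range]
              omega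
            rw [Finset.sum_pair (by omega)] at this
            exact this
          omega
        have h3 : D.cn t h ≤ D.fo S h := by
          unfold fo
          exact Finset.single_le_sum (f := fun k => D.cn k h) (fun _ _ => Nat.zero_le _)
            (Finset.mem_range.mpr ht)
        simp only [A]
        rw [if_neg h1, if_pos (Or.inr hsum)]
        omega
  have pot : ∀ t, t ≤ S → ∑ h ∈ Finset.range t, A t h * D.W K h ≤ t := by
    intro t
    induction t with
    | zero => intro _; simp
    | succ t ih =>
      intro ht
      have ht' : t < S := ht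
      have iht := ih (by omega)
      rw [Finset.sum_range_succ]
      have hAt : A (t + 1) t ≤ 1 := by
        simp only [A]; split_ifs <;> omega
      have h1 : A (t + 1) t * D.W K t ≤ 1 + ∑ h ∈ Finset.range t, D.cn t h * (if K h then 0 else D.W K h) := by
        rw [← D.W_sum K t]
        calc A (t + 1) t * D.W K t ≤ 1 * D.W K t := Nat.mul_le_mul_right _ hAt
          _ = D.W K t := one_mul _
      have h2 : ∑ h ∈ Finset.range t, A (t + 1) h * D.W K h +
          ∑ h ∈ Finset.range t, D.cn t h * (if K h then 0 else D.W K h) ≤
          ∑ h ∈ Finset.range t, A t h * D.W K h := by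
        rw [← Finset.sum_add_distrib]
        apply Finset.sum_le_sum
        intro h hh
        have hs := step t ht' h (Finset.mem_range.mp hh)
        calc A (t + 1) h * D.W K h + D.cn t h * (if K h then 0 else D.W K h)
            = (A (t + 1) h + D.cn t h * (if K h then 0 else 1)) * D.W K h := by
              split_ifs <;> ring
          _ ≤ A t h * D.W K h := Nat.mul_le_mul_right _ hs
      omega
  intro i hi
  have h1 := pot (i + 1) hi
  rw [Finset.sum_range_succ] at h1
  have h2 : A (i + 1) i = 1 := by
    simp only [A]
    rw [if_pos]
    right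
    intro k hk
    exact D.cn_eq_zero (by omega)
  rw [h2, one_mul] at h1
  omega

/-- indicator of having a pivot -/
def y (f : ℕ → Option ℕ) (i : ℕ) : ℕ := if (f i).isSome then 1 else 0

/-- the number of wires of the skeleton -/
theorem r_le (D : Dag n) (K : ℕ → Bool) (S : ℕ) (hK : ∀ j < S, K j = decide (2 ≤ D.fo S j)) :
    (D.net K).r 0 S ≤ 4 * ∑ j ∈ Finset.range S, (D.fo S j - 1) := by
  set f := D.cp K with hf
  -- number of active operands
  let ac : ℕ → ℕ := fun i => ∑ h ∈ Finset.range S, D.cn i h * y f h
  have hac : ∀ i < S, ac i = (if (co f (D.a i)).isSome then 1 else 0) +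
      (if (co f (D.b i)).isSome then 1 else 0) := by
    intro i hi
    have aux : ∀ o : Opd n, (∀ j, o = Opd.gt j → j < i) →
        ∑ h ∈ Finset.range S, oc o h * y f h = if (co f o).isSome then 1 else 0 := by
      intro o ho
      rw [sum_oc (fun j hj => (ho j hj).trans hi)]
      cases o with
      | gt j => rfl
      | inp k => simp [co]
      | cst b => simp [co]
    simp only [ac]
    rw [← aux _ (D.ha i), ← aux _ (D.hb i), ← Finset.sum_add_distrib]
    apply Finset.sum_congr rfl
    intro h _
    unfold cn
    ring
  have hT : ∑ i ∈ Finset.range S, ac i = ∑ h ∈ Finset.range S, D.fo S h * y f h := by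
    simp only [ac]
    rw [Finset.sum_comm]
    apply Finset.sum_congr rfl
    intro h _
    unfold fo
    rw [Finset.sum_mul]
  have hT2 : ∑ h ∈ Finset.range S, D.fo S h * y f h ≤
      2 * ∑ j ∈ Finset.range S, (D.fo S j - 1) +
      ∑ h ∈ Finset.range S, (if K h then 0 else y f h) := by
    rw [Finset.mul_sum, ← Finset.sum_add_distrib]
    apply Finset.sum_le_sum
    intro h hh
    have hKh := hK h (Finset.mem_range.mp hh)
    have hy : y f h ≤ 1 := by unfold y; split_ifs <;> omega
    by_cases h2 : 2 ≤ D.fo S h
    · rw [hKh]
      simp only [h2, decide_true, if_true, add_zero]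
      calc D.fo S h * y f h ≤ D.fo S h * 1 := Nat.mul_le_mul_left _ hy
        _ ≤ 2 * (D.fo S h - 1) := by omega
    · rw [hKh]
      simp only [h2, decide_false, Bool.false_eq_true, if_false]
      calc D.fo S h * y f h ≤ 1 * y f h := Nat.mul_le_mul_right _ (by omega)
        _ ≤ 2 * (D.fo S h - 1) + y f h := by omega
  have hr : (D.net K).r 0 S + 2 * ∑ h ∈ Finset.range S, (if K h then 0 else y f h) ≤
      2 * ∑ i ∈ Finset.range S, ac i := by
    unfold Net.r
    rw [Finset.mul_sum, Finset.mul_sum]
    have : Finset.Ico 0 S = Finset.range S := by ext; simp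
    rw [this, ← Finset.sum_add_distrib]
    apply Finset.sum_le_sum
    intro i hi
    have hiS := Finset.mem_range.mp hi
    rw [hac i hiS]
    have hcpi : f i = comb (K i) i (co f (D.a i)) (co f (D.b i)) := D.cp_eq K i
    have ca : ∀ o : Option ℕ, Net.cnt 0 o = if o.isSome then 1 else 0 := by
      intro o
      cases o <;> simp [Net.cnt]
    unfold Net.w
    rw [ca, ca]
    by_cases hself : f i = some i
    · have hp : (D.net K).p i = co f (D.a i) := by
        show (if D.cp K i = some i then _ else none) = _
        rw [if_pos hself]
      have hq : (D.net K).q i = co f (D.b i) := by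
        show (if D.cp K i = some i then _ else none) = _
        rw [if_pos hself]
      rw [hp, hq]
      by_cases hKi : K i = true
      · rw [hKi]
        simp only [if_true]
        omega
      · have hKf : K i = false := by simpa using hKi
        rw [hKf]
        simp only [Bool.false_eq_true, if_false]
        have hy : y f i = 1 := by unfold y; rw [hself]; rfl
        rw [hy]
        rw [hKf, hself] at hcpi
        have hna : co f (D.a i) ≠ some i := fun h => by
          have := D.co_lt K (D.ha i) h; omega
        have hnb : co f (D.b i) ≠ some i := fun h => by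
          have := D.co_lt K (D.hb i) h; omega
        unfold comb at hcpi
        simp only [Bool.false_eq_true, if_false] at hcpi
        revert hcpi hna hnb
        cases co f (D.a i) <;> cases co f (D.b i) <;> simp <;> intro h1 <;> intro h2 <;>
          intros <;> simp_all
    · have hp : (D.net K).p i = none := by
        show (if D.cp K i = some i then _ else none) = _
        rw [if_neg hself]
      have hq : (D.net K).q i = none := by
        show (if D.cp K i = some i then _ else none) = _
        rw [if_neg hself]
      rw [hp, hq]
      simp only [Option.isSome_none, Bool.false_eq_true, if_false, add_zero, zero_add]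
      by_cases hKi : K i = true
      · rw [hKi]; simp
      · have hKf : K i = false := by simpa using hKi
        rw [hKf]
        simp only [Bool.false_eq_true, if_false]
        rw [hKf] at hcpi
        unfold comb at hcpi
        simp only [Bool.false_eq_true, if_false] at hcpi
        unfold y
        revert hcpi
        cases co f (D.a i) <;> cases co f (D.b i) <;> simp <;> intro h1 <;> simp_all
  omega

end Dag

end Pool.Agent.BoolCirc
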