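import Mathlib
import Pool.Agent.BoolCirc.Skeleton
import Pool.Agent.BoolCirc.Excess

/-!
The depth bound `O(log S + k / log k)` for circuits with `S` gates and `k` excess wires.
-/

namespace Pool.Agent.BoolCirc

variable {n : ℕ}

def Src.toOpd {i : ℕ} : Src n i → Opd n
  | input k => Opd.inp k
  | const b => Opd.cst b
  | gate j => Opd.gt j.1

def Gate.kind {i : ℕ} : Gate n i → Kind
  | and _ _ => Kind.and
  | or _ _ => Kind.or
  | not _ => Kind.not

def Gate.fst {i : ℕ} : Gate n i → Opd n
  | and a _ => a.toOpd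
  | or a _ => a.toOpd
  | not a => a.toOpd

def Gate.snd {i : ℕ} : Gate n i → Opd n
  | and _ b => b.toOpd
  | or _ b => b.toOpd
  | not _ => Opd.cst false

theorem Src.toOpd_lt {i : ℕ} (o : Src n i) : ∀ j, o.toOpd = Opd.gt j → j < i := by
  intro j h
  cases o with
  | input k => simp [toOpd] at h
  | const b => simp [toOpd] at h
  | gate k =>
    simp only [toOpd, Opd.gt.injEq] at h
    rw [← h]; exact k.2

def Circuit.toDag (C : Circuit n) : Dag n where
  kind := fun i => if h : i < C.size then (C.gate ⟨i, h⟩).kind else Kind.and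
  a := fun i => if h : i < C.size then (C.gate ⟨i, h⟩).fst else Opd.cst false
  b := fun i => if h : i < C.size then (C.gate ⟨i, h⟩).snd else Opd.cst false
  ha := by
    intro i j h
    split_ifs at h with hi
    cases hg : C.gate ⟨i, hi⟩ <;> rw [hg] at h <;> exact Src.toOpd_lt _ j h
  hb := by
    intro i j h
    split_ifs at h with hi
    cases hg : C.gate ⟨i, hi⟩ <;> rw [hg] at h
    · exact Src.toOpd_lt _ j h
    · exact Src.toOpd_lt _ j h
    · simp [Gate.snd] at h

theorem Circuit.toDag_val (C : Circuit n) (x : Fin n → Bool) :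
    ∀ (i : ℕ) (h : i < C.size), C.toDag.val i x = C.val x ⟨i, h⟩ := by
  intro i
  induction i using Nat.strong_induction_on with
  | _ i ih =>
    intro h
    rw [Dag.val_eq, Circuit.val]
    have hk : C.toDag.kind i = (C.gate ⟨i, h⟩).kind := by simp [toDag, h]
    have ha : C.toDag.a i = (C.gate ⟨i, h⟩).fst := by simp [toDag, h]
    have hb : C.toDag.b i = (C.gate ⟨i, h⟩).snd := by simp [toDag, h]
    simp only [hk, ha, hb]
    have aux : ∀ o : Src n i, Dag.ov C.toDag.val o.toOpd x =
        o.eval x (fun j => C.val x ⟨j.1, j.2.trans h⟩) := by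
      intro o
      cases o with
      | input k => rfl
      | const b => rfl
      | gate k => exact ih k.1 k.2 (k.2.trans h)
    cases hg : C.gate ⟨i, h⟩ with
    | and a b =>
      simp only [Gate.kind, Gate.fst, Gate.snd, Kind.fn, Gate.eval]
      rw [aux a, aux b]
    | or a b =>
      simp only [Gate.kind, Gate.fst, Gate.snd, Kind.fn, Gate.eval]
      rw [aux a, aux b]
    | not a =>
      simp only [Gate.kind, Gate.fst, Gate.snd, Kind.fn, Gate.eval]
      rw [aux a]

theorem Circuit.toDag_out (C : Circuit n) (x : Fin n → Bool) :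
    Dag.ov C.toDag.val C.out.toOpd x = C.eval x := by
  unfold Circuit.eval
  cases hg : C.out with
  | input k => rfl
  | const b => rfl
  | gate k => exact C.toDag_val x k.1 k.2

theorem Src.oc_toOpd {i : ℕ} (o : Src n i) (j : ℕ) : Dag.oc o.toOpd j = o.uses j := by
  cases o <;> rfl

theorem Circuit.toDag_fo (C : Circuit n) (j : ℕ) : C.toDag.fo C.size j = C.fanout j := by
  unfold Dag.fo Circuit.fanout
  rw [← Fin.sum_univ_eq_sum_range (fun i => C.toDag.cn i j) C.size]
  apply Finset.sum_congr rfl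
  intro i _
  have ha : C.toDag.a i.1 = (C.gate i).fst := by simp [toDag]
  have hb : C.toDag.b i.1 = (C.gate i).snd := by simp [toDag]
  unfold Dag.cn
  rw [ha, hb]
  cases hg : C.gate i with
  | and a b => simp only [Gate.fst, Gate.snd, Gate.uses, Src.oc_toOpd]
  | or a b => simp only [Gate.fst, Gate.snd, Gate.uses, Src.oc_toOpd]
  | not a =>
    simp only [Gate.fst, Gate.snd, Gate.uses, Src.oc_toOpd]
    rfl

/-- the bound with a free parameter `l` -/
theorem depthLE_param (C : Circuit n) (l : ℕ) :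
    DepthLE C.eval (4 * Real.logb 2 ((C.size : ℝ) + 1) +
      5 * (8 / ((l : ℝ) + 8)) * (4 * (C.excess : ℝ)) + 5 * 2 ^ l + 3) := by
  set S := C.size with hS
  set D := C.toDag with hD
  let K : ℕ → Bool := fun j => decide (2 ≤ D.fo S j)
  set D₀ : ℝ := 4 * Real.logb 2 ((S : ℝ) + 1) with hD₀
  have h0 : 0 ≤ D₀ := by
    have : 0 ≤ Real.logb 2 ((S : ℝ) + 1) := by
      apply Real.logb_nonneg (by norm_num)
      have : (0 : ℝ) ≤ S := Nat.cast_nonneg _
      linarith
    positivity
  have hW : ∀ i < S, D.W K i ≤ S := by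
    apply D.W_le K S
    intro j _ hj
    simp only [K, decide_eq_false_iff_not, not_le] at hj
    omega
  have hWo : ∀ o : Opd n, (∀ j, o = Opd.gt j → j < S) → D.Wo K o ≤ S := by
    intro o ho
    cases o with
    | gt j =>
      simp only [Dag.Wo]
      split_ifs
      · exact Nat.zero_le _
      · exact hW j (ho j rfl)
    | inp k => exact Nat.zero_le _
    | cst b => exact Nat.zero_le _
  have hF : ∀ (F : Fm n), F.gates ≤ S → DepthLE F.eval D₀ := fun F hF => Fm.spira S F hF
  -- tables of the skeleton (entries of gates outside the circuit are trivial)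
  have ht : ∀ i a b, DepthLE ((D.net K).t i a b) D₀ := by
    intro i α β
    let F : Fm n := (D.kind i).fm (D.fF K α (D.a i)) (D.fF K β (D.b i))
    have hFe : ∀ x, (D.net K).t i α β x = F.eval x := fun x => (Kind.eval_fm _ _ _ x).symm
    by_cases hi : i < S
    · apply (hF F ?_).congr hFe
      refine (Kind.gates_fm _ _ _).trans ?_
      have h1 := D.gates_fF_le K α (D.a i)
      have h2 := D.gates_fF_le K β (D.b i)
      have h3 := hW i hi
      rw [Dag.W_eq] at h3
      omega
    · have ha : D.a i = Opd.cst false := by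
        have : ¬ i < C.size := hi
        simp [hD, Circuit.toDag, this]
      have hb : D.b i = Opd.cst false := by
        have : ¬ i < C.size := hi
        simp [hD, Circuit.toDag, this]
      have : (D.net K).t i α β = fun _ => (D.kind i).fn false false := by
        funext x
        rw [hFe x]
        simp only [F]
        rw [Kind.eval_fm, ha, hb]
        rfl
      rw [this]
      exact DepthLE.const _ h0
  have hr : ((D.net K).r 0 S : ℝ) ≤ 4 * (C.excess : ℝ) := by
    have h1 := D.r_le K S (fun j _ => rfl)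
    have h2 : ∑ j ∈ Finset.range S, (D.fo S j - 1) = C.excess := by
      unfold Circuit.excess
      rw [← Fin.sum_univ_eq_sum_range (fun j => D.fo S j - 1) S]
      apply Finset.sum_congr rfl
      intro j _
      exact congrArg (· - 1) (C.toDag_fo j.1)
    rw [h2] at h1
    exact_mod_cast h1
  set B : ℝ := D₀ + 5 * (8 / ((l : ℝ) + 8)) * (4 * (C.excess : ℝ)) + 5 * 2 ^ l with hB
  have hB0 : D₀ ≤ B := by
    have : 0 ≤ 5 * (8 / ((l : ℝ) + 8)) * (4 * (C.excess : ℝ)) := by positivity
    have : (0 : ℝ) ≤ 5 * 2 ^ l := by positivity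
    linarith
  have ho : ∀ j, C.out.toOpd = Opd.gt j → j < S := Src.toOpd_lt C.out
  -- value of the pivot of the output
  let e : ℕ → (Fin n → Bool) → Bool := fun _ _ => false
  have hpiv : DepthLE (opt D.val (Dag.co (D.cp K) C.out.toOpd)) B := by
    cases h : Dag.co (D.cp K) C.out.toOpd with
    | none => exact DepthLE.const false (h0.trans hB0)
    | some p =>
      have hp : p < S := D.co_lt K ho h
      have hpp : D.cp K p = some p := by
        revert h
        cases C.out.toOpd with
        | gt j => exact fun h => D.cp_idem K j p h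
        | inp k => intro h; simp [Dag.co] at h
        | cst b => intro h; simp [Dag.co] at h
      have h1 := (D.net K).pv h0 ht l 0 S e D₀ (Nat.zero_le _) le_rfl
        (fun g hg => absurd hg (Nat.not_lt_zero _)) p (Nat.zero_le _) hp
      refine (h1.mono ?_).congr (fun x => (D.net_correct K e x p hpp).symm)
      rw [hB]
      have : 5 * (8 / ((l : ℝ) + 8)) * ((D.net K).r 0 S : ℝ) ≤
          5 * (8 / ((l : ℝ) + 8)) * (4 * (C.excess : ℝ)) :=
        mul_le_mul_of_nonneg_left hr (by positivity)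
      linarith
  have hFo : ∀ β, DepthLE (D.fF K β C.out.toOpd).eval D₀ := fun β =>
    hF _ ((D.gates_fF_le K β _).trans (hWo _ ho))
  have key := hpiv.ite ((hFo true).mono (by linarith)) ((hFo false).mono (by linarith))
  refine key.congr ?_
  intro x
  rw [← C.toDag_out x, ← D.fF_correct K x S C.out.toOpd ho]
  cases opt D.val (Dag.co (D.cp K) C.out.toOpd) x <;> simp

/-- a crude comparison of logarithm and square root -/
theorem logb_le_sqrt {y : ℝ} (hy : 1 ≤ y) : Real.logb 2 y ≤ 3 * Real.sqrt y := by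
  have h1 : Real.log y = 2 * Real.log (Real.sqrt y) := by
    rw [Real.log_sqrt (by linarith)]; ring
  have hs : 0 < Real.sqrt y := Real.sqrt_pos.mpr (by linarith)
  have h2 : Real.log (Real.sqrt y) ≤ Real.sqrt y - 1 := Real.log_le_sub_one_of_pos hs
  have h3 : (0.6931471803 : ℝ) < Real.log 2 := Real.log_two_gt_d9
  unfold Real.logb
  rw [div_le_iff₀ (by linarith)]
  nlinarith

/-- The main bound. -/
theorem depthLE_main (C : Circuit n) (hS : 2 ≤ C.size) :
    DepthLE C.eval (335 * (Real.logb 2 C.size + C.excess / Real.logb 2 (C.excess + 2))) := by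
  set k := C.excess with hk
  set L := Real.logb 2 ((k : ℝ) + 2) with hL
  have hk0 : (0 : ℝ) ≤ k := Nat.cast_nonneg _
  have hL1 : 1 ≤ L := by
    rw [hL, Real.le_logb_iff_rpow_le (by norm_num) (by linarith)]
    norm_num
  set l := Nat.log 2 (k + 2) / 2 with hl
  have hpow2 : (2 : ℕ) ^ Nat.log 2 (k + 2) ≤ k + 2 := Nat.pow_log_le_self 2 (by omega)
  have hsq : ((2 : ℝ) ^ l) ^ 2 ≤ (k : ℝ) + 2 := by
    have h1 : (2 ^ l) ^ 2 ≤ k + 2 := by
      calc (2 ^ l) ^ 2 = 2 ^ (l * 2) := by rw [pow_mul]
        _ ≤ 2 ^ Nat.log 2 (k + 2) := Nat.pow_le_pow_right (by norm_num) (by omega)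
        _ ≤ k + 2 := hpow2
    exact_mod_cast h1
  have hsqrt : (2 : ℝ) ^ l ≤ Real.sqrt ((k : ℝ) + 2) := by
    apply Real.le_sqrt_of_sq_le hsq
  have hLs : L ≤ 3 * Real.sqrt ((k : ℝ) + 2) := logb_le_sqrt (by linarith)
  have hprod : (2 : ℝ) ^ l * L ≤ 3 * ((k : ℝ) + 2) := by
    have hs0 : 0 ≤ Real.sqrt ((k : ℝ) + 2) := Real.sqrt_nonneg _
    have hss : Real.sqrt ((k : ℝ) + 2) * Real.sqrt ((k : ℝ) + 2) = (k : ℝ) + 2 :=
      Real.mul_self_sqrt (by linarith)
    calc (2 : ℝ) ^ l * L ≤ Real.sqrt ((k : ℝ) + 2) * (3 * Real.sqrt ((k : ℝ) + 2)) :=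
          mul_le_mul hsqrt hLs (by linarith) hs0
      _ = 3 * ((k : ℝ) + 2) := by nlinarith
  have hp : (2 : ℝ) ^ l ≤ 3 * (k / L) + 6 := by
    have h1 : (2 : ℝ) ^ l ≤ 3 * ((k : ℝ) + 2) / L := by
      rw [le_div_iff₀ (by linarith)]; exact hprod
    have h2 : 3 * ((k : ℝ) + 2) / L = 3 * (k / L) + 6 / L := by
      field_simp; ring
    have h3 : 6 / L ≤ 6 := by
      rw [div_le_iff₀ (by linarith)]; nlinarith
    linarith
  have hl8 : L ≤ 2 * ((l : ℝ) + 8) := by
    have h1 : k + 2 < 2 ^ (Nat.log 2 (k + 2) + 1) := Nat.lt_pow_succ_log_self (by norm_num) _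
    have h2 : L ≤ (Nat.log 2 (k + 2) : ℝ) + 1 := by
      rw [hL, Real.logb_le_iff_le_rpow (by norm_num) (by linarith)]
      have h3 : ((k : ℝ) + 2) ≤ (2 : ℝ) ^ (Nat.log 2 (k + 2) + 1) := by exact_mod_cast h1.le
      refine h3.trans (le_of_eq ?_)
      rw [← Real.rpow_natCast]
      push_cast
      rfl
    have h4 : (Nat.log 2 (k + 2) : ℝ) ≤ 2 * (l : ℝ) + 1 := by
      have : Nat.log 2 (k + 2) ≤ 2 * l + 1 := by omega
      exact_mod_cast this
    linarith
  have hfrac : 5 * (8 / ((l : ℝ) + 8)) * (4 * (k : ℝ)) ≤ 320 * (k / L) := by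
    have hl0 : (0 : ℝ) < (l : ℝ) + 8 := by positivity
    have e1 : 5 * (8 / ((l : ℝ) + 8)) * (4 * (k : ℝ)) = 160 * (k : ℝ) / ((l : ℝ) + 8) := by
      field_simp; ring
    have e2 : 320 * ((k : ℝ) / L) = 320 * (k : ℝ) / L := by ring
    rw [e1, e2, div_le_div_iff₀ hl0 (by linarith)]
    nlinarith
  have hS2 : (2 : ℝ) ≤ C.size := by exact_mod_cast hS
  have hlogS1 : 1 ≤ Real.logb 2 (C.size : ℝ) := by
    rw [Real.le_logb_iff_rpow_le (by norm_num) (by linarith)]
    simpa using hS2
  have hlogS : Real.logb 2 ((C.size : ℝ) + 1) ≤ Real.logb 2 (C.size : ℝ) + 1 := by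
    have h1 : Real.logb 2 ((C.size : ℝ) + 1) ≤ Real.logb 2 (2 * (C.size : ℝ)) :=
      Real.logb_le_logb_of_le (by norm_num) (by linarith) (by linarith)
    rw [Real.logb_mul (by norm_num) (by linarith), Real.logb_self_eq_one (by norm_num)] at h1
    linarith
  refine (depthLE_param C l).mono ?_
  rw [← hk]
  have hkL : 0 ≤ (k : ℝ) / L := by positivity
  linarith

end Pool.Agent.BoolCirc
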