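import Mathlib
import Pool.Agent.BoolCirc.Main
import Pool.Agent.BoolCirc.Build

/-!
Evaluation of a network in blocks: if all circuits with at most `B` gates have depth complexity at
most `d`, then networks with `O(B)` active nodes have depth complexity `O(d)` plus the depth of
their tables.
-/

namespace Pool.Agent.BoolCirc

/-- the selection formula -/
def selFm : Fm 6 :=
  Fm.or
    (Fm.or (Fm.and (Fm.and (Fm.not (Fm.inp 0)) (Fm.not (Fm.inp 1))) (Fm.inp 2))
      (Fm.and (Fm.and (Fm.not (Fm.inp 0)) (Fm.inp 1)) (Fm.inp 3)))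
    (Fm.or (Fm.and (Fm.and (Fm.inp 0) (Fm.not (Fm.inp 1))) (Fm.inp 4))
      (Fm.and (Fm.and (Fm.inp 0) (Fm.inp 1)) (Fm.inp 5)))

theorem selFm_gates : selFm.gates = 15 := rfl

theorem selFm_eval (y : Fin 6 → Bool) (t : Bool → Bool → Bool) (h2 : y 2 = t false false)
    (h3 : y 3 = t false true) (h4 : y 4 = t true false) (h5 : y 5 = t true true) :
    selFm.eval y = t (y 0) (y 1) := by
  simp only [selFm, Fm.eval, h2, h3, h4, h5]
  cases y 0 <;> cases y 1 <;> simp

namespace Net

variable {n : ℕ}

/-- the set of active nodes is closed under predecessors -/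
def Closed (N : Net n) (Act : ℕ → Prop) : Prop :=
  ∀ i, Act i → (∀ j, N.p i = some j → Act j) ∧ (∀ j, N.q i = some j → Act j)

/-- number of active nodes in an interval -/
noncomputable def nact (Act : ℕ → Prop) (lo hi : ℕ) : ℕ := by
  classical
  exact ((Finset.Ico lo hi).filter Act).card

theorem nact_succ_of (Act : ℕ → Prop) {lo hi : ℕ} (h : lo ≤ hi) (ha : Act hi) :
    nact Act lo (hi + 1) = nact Act lo hi + 1 := by
  classical
  unfold nact
  rw [show Finset.Ico lo (hi + 1) = insert hi (Finset.Ico lo hi) from by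
    ext x; simp only [Finset.mem_Ico, Finset.mem_insert]; omega]
  rw [Finset.filter_insert, if_pos ha, Finset.card_insert_of_notMem]
  simp

theorem nact_succ_of_not (Act : ℕ → Prop) {lo hi : ℕ} (h : lo ≤ hi) (ha : ¬ Act hi) :
    nact Act lo (hi + 1) = nact Act lo hi := by
  classical
  unfold nact
  rw [show Finset.Ico lo (hi + 1) = insert hi (Finset.Ico lo hi) from by
    ext x; simp only [Finset.mem_Ico, Finset.mem_insert]; omega]
  rw [Finset.filter_insert, if_neg ha]

theorem nact_split (Act : ℕ → Prop) {lo mid hi : ℕ} (h1 : lo ≤ mid) (h2 : mid ≤ hi) :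
    nact Act lo hi = nact Act lo mid + nact Act mid hi := by
  classical
  unfold nact
  rw [← Finset.card_union_of_disjoint, ← Finset.filter_union]
  · congr 1
    congr 1
    ext x
    simp only [Finset.mem_Ico, Finset.mem_union]
    omega
  · rw [Finset.disjoint_left]
    intro x hx hy
    simp only [Finset.mem_filter, Finset.mem_Ico] at hx hy
    omega

theorem nact_self (Act : ℕ → Prop) (lo : ℕ) : nact Act lo lo = 0 := by
  classical
  simp [nact]

theorem nact_one_le (Act : ℕ → Prop) (lo : ℕ) : nact Act lo (lo + 1) ≤ 1 := by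
  classical
  unfold nact
  refine (Finset.card_filter_le _ _).trans ?_
  simp

theorem nact_pos (Act : ℕ → Prop) {lo hi i : ℕ} (h1 : lo ≤ i) (h2 : i < hi) (ha : Act i) :
    1 ≤ nact Act lo hi := by
  classical
  unfold nact
  apply Finset.card_pos.mpr
  exact ⟨i, by simp [h1, h2, ha]⟩

/-- agreement on active nodes -/
theorem ev_congr_act (N : Net n) {Act : ℕ → Prop} (hA : N.Closed Act) {lo : ℕ}
    {e e' : ℕ → (Fin n → Bool) → Bool} (h : ∀ g < lo, Act g → e g = e' g) :
    ∀ i, Act i → N.ev lo e i = N.ev lo e' i := by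
  intro i
  induction i using Nat.strong_induction_on with
  | _ i ih =>
    intro hi
    by_cases hlo : i < lo
    · rw [ev_lt N e hlo, ev_lt N e' hlo, h i hlo hi]
    · rw [ev_ge N e (not_lt.mp hlo), ev_ge N e' (not_lt.mp hlo)]
      have h1 : ∀ o : Option ℕ, (∀ j, o = some j → j < i) → (∀ j, o = some j → Act j) →
          opt (N.ev lo e) o = opt (N.ev lo e') o := by
        intro o ho ho'
        cases o with
        | none => rfl
        | some j => exact ih j (ho j rfl) (ho' j rfl)
      rw [h1 _ (N.hp i) (hA i hi).1, h1 _ (N.hq i) (hA i hi).2]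

/-- nodes of an abstract network whose tables and environment are inputs -/
theorem comp (N : Net n) {Act : ℕ → Prop} (hA : N.Closed Act) (lo : ℕ)
    (e : ℕ → (Fin n → Bool) → Bool)
    (he : ∀ g (C : Circuit n), ∃ d, Avail C (e g) d)
    (ht : ∀ i a b (C : Circuit n), ∃ d, Avail C (N.t i a b) d) :
    ∀ hi, lo ≤ hi → ∃ C : Circuit n, C.size ≤ 15 * nact Act lo hi ∧
      ∀ i < hi, Act i → ∃ d, Avail C (N.ev lo e i) d := by
  intro hi hlo
  induction hi, hlo using Nat.le_induction with
  | base =>
    refine ⟨Circuit.empty n, Nat.zero_le _, fun i hi _ => ?_⟩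
    rw [ev_lt N e hi]
    exact he i _
  | succ hi hlo ih =>
    obtain ⟨C, hC1, hC2⟩ := ih
    by_cases hact : Act hi
    · -- add the node `hi`
      have hpre : ∀ o : Option ℕ, (∀ j, o = some j → j < hi) → (∀ j, o = some j → Act j) →
          ∃ d, Avail C (opt (N.ev lo e) o) d := by
        intro o ho ho'
        cases o with
        | none => exact ⟨0, Avail.const C false 0⟩
        | some j => exact hC2 j (ho j rfl) (ho' j rfl)
      obtain ⟨du, hu⟩ := hpre _ (N.hp hi) (hA hi hact).1
      obtain ⟨dv, hv⟩ := hpre _ (N.hq hi) (hA hi hact).2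
      obtain ⟨d00, h00⟩ := ht hi false false C
      obtain ⟨d01, h01⟩ := ht hi false true C
      obtain ⟨d10, h10⟩ := ht hi true false C
      obtain ⟨d11, h11⟩ := ht hi true true C
      let g : Fin 6 → (Fin n → Bool) → Bool := ![opt (N.ev lo e) (N.p hi), opt (N.ev lo e) (N.q hi),
        N.t hi false false, N.t hi false true, N.t hi true false, N.t hi true true]
      obtain ⟨C', h1, h2, h3⟩ := ext_fm selFm g (du + dv + d00 + d01 + d10 + d11) C (by
        intro i
        fin_cases i
        · exact hu.mono (by omega)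
        · exact hv.mono (by omega)
        · exact h00.mono (by omega)
        · exact h01.mono (by omega)
        · exact h10.mono (by omega)
        · exact h11.mono (by omega))
      refine ⟨C', ?_, ?_⟩
      · rw [h2, selFm_gates, nact_succ_of Act hlo hact]; omega
      · intro i hi' hi''
        rcases Nat.lt_succ_iff_lt_or_eq.mp hi' with h | h
        · obtain ⟨d, hd⟩ := hC2 i h hi''
          exact ⟨d, h1 _ _ hd⟩
        · subst h
          refine ⟨_, h3.congr ?_⟩
          intro x
          rw [ev_ge N e hlo]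
          exact (selFm_eval (fun i => g i x) (fun a b => N.t i a b x) rfl rfl rfl rfl).symm
    · refine ⟨C, ?_, ?_⟩
      · rw [nact_succ_of_not Act hlo hact]; exact hC1
      · intro i hi' hi''
        rcases Nat.lt_succ_iff_lt_or_eq.mp hi' with h | h
        · exact hC2 i h hi''
        · exact absurd (h ▸ hi'') hact

/-- code of a table entry -/
def code (a b : Bool) : ℕ := 2 * a.toNat + b.toNat

theorem code_lt (a b : Bool) : code a b < 4 := by cases a <;> cases b <;> decide

/-- the network with its tables replaced by new inputs -/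
def lift (N : Net n) (S : ℕ) : Net (5 * S) where
  p := N.p
  q := N.q
  hp := N.hp
  hq := N.hq
  t := fun i a b y => if h : i < S then y ⟨5 * i + code a b, by have := code_lt a b; omega⟩ else false

/-- new inputs for the values of the earlier nodes -/
def envL (S : ℕ) : ℕ → (Fin (5 * S) → Bool) → Bool := fun j y =>
  if h : j < S then y ⟨5 * j + 4, by omega⟩ else false

/-- the functions to be substituted for the new inputs -/
def sb (N : Net n) (S : ℕ) (e : ℕ → (Fin n → Bool) → Bool) (k : Fin (5 * S)) :
    (Fin n → Bool) → Bool :=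
  if k.1 % 5 = 4 then e (k.1 / 5) else
    N.t (k.1 / 5) (decide (2 ≤ k.1 % 5)) (decide (k.1 % 5 % 2 = 1))

theorem sb_env (N : Net n) (S : ℕ) (e : ℕ → (Fin n → Bool) → Bool) {j : ℕ} (h : j < S)
    (x : Fin n → Bool) : envL S j (fun k => N.sb S e k x) = e j x := by
  simp only [envL, h, dif_pos, sb]
  rw [if_pos (by omega)]
  rw [show (5 * j + 4) / 5 = j by omega]

theorem sb_t (N : Net n) (S : ℕ) (e : ℕ → (Fin n → Bool) → Bool) {j : ℕ} (h : j < S)
    (a b : Bool) (x : Fin n → Bool) :
    (N.lift S).t j a b (fun k => N.sb S e k x) = N.t j a b x := by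
  have hc := code_lt a b
  simp only [lift, h, dif_pos, sb]
  rw [if_neg (by omega)]
  rw [show (5 * j + code a b) / 5 = j by omega]
  have h5 : (5 * j + code a b) % 5 = code a b := by omega
  rw [h5]
  cases a <;> cases b <;> rfl

theorem lift_ev (N : Net n) (S lo : ℕ) (e : ℕ → (Fin n → Bool) → Bool) (x : Fin n → Bool) :
    ∀ i < S, (N.lift S).ev lo (envL S) i (fun k => N.sb S e k x) = N.ev lo e i x := by
  intro i
  induction i using Nat.strong_induction_on with
  | _ i ih =>
    intro hi
    by_cases hlo : i < lo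
    · rw [ev_lt _ _ hlo, ev_lt _ _ hlo]
      exact N.sb_env S e hi x
    · rw [ev_ge _ _ (not_lt.mp hlo), ev_ge _ _ (not_lt.mp hlo)]
      have h1 : ∀ o : Option ℕ, (∀ j, o = some j → j < i) →
          opt ((N.lift S).ev lo (envL S)) o (fun k => N.sb S e k x) = opt (N.ev lo e) o x := by
        intro o ho
        cases o with
        | none => rfl
        | some j => exact ih j (ho j rfl) ((ho j rfl).trans hi)
      show (N.lift S).t i (opt _ (N.p i) _) (opt _ (N.q i) _) _ = _
      rw [h1 _ (N.hp i), h1 _ (N.hq i), N.sb_t S e hi]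

/-- the block property: a block with at most `b` active nodes costs `δ` -/
def BlockCost (N : Net n) (Act : ℕ → Prop) (S b : ℕ) (D₀ δ : ℝ) : Prop :=
  ∀ (lo hi : ℕ) (e : ℕ → (Fin n → Bool) → Bool) (Δ : ℝ), lo ≤ hi → hi ≤ S →
    nact Act lo hi ≤ b → D₀ ≤ Δ → (∀ g < lo, Act g → DepthLE (e g) Δ) →
    ∀ i, lo ≤ i → i < hi → Act i → DepthLE (N.ev lo e i) (Δ + δ)

theorem blockCost_one (N : Net n) {Act : ℕ → Prop} (hA : N.Closed Act) (S : ℕ) {D₀ : ℝ}
    (h0 : 0 ≤ D₀) (ht : ∀ i a b, DepthLE (N.t i a b) D₀) : N.BlockCost Act S 1 D₀ 5 := by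
  intro lo hi e Δ hlh _ hn hΔ he i hi1 hi2 hact
  rw [ev_ge N e hi1]
  have hpre : ∀ o : Option ℕ, (∀ k, o = some k → k < i) → (∀ k, o = some k → Act k) →
      DepthLE (opt (N.ev lo e) o) Δ := by
    intro o ho ho'
    cases o with
    | none => exact DepthLE.const false (h0.trans hΔ)
    | some k =>
      show DepthLE (N.ev lo e k) _
      have hk := ho k rfl
      have hkA := ho' k rfl
      by_cases hlo : k < lo
      · rw [ev_lt N e hlo]
        exact he k hlo hkA
      · exfalso
        have h1 : 1 ≤ nact Act lo (k + 1) := nact_pos Act (not_lt.mp hlo) (Nat.lt_succ_self k) hkA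
        have h2 : 1 ≤ nact Act (k + 1) hi := nact_pos Act hk hi2 hact
        have h3 := nact_split Act (show lo ≤ k + 1 by omega) (show k + 1 ≤ hi by omega)
        omega
  exact DepthLE.node (t := N.t i) (hpre (N.p i) (N.hp i) (hA i hact).1)
    (hpre (N.q i) (N.hq i) (hA i hact).2) (fun u v => (ht i u v).mono hΔ)

theorem blockCost_of (N : Net n) {Act : ℕ → Prop} (hA : N.Closed Act) (S b B : ℕ) {D₀ δ : ℝ}
    (h0 : 0 ≤ D₀) (ht : ∀ i a b, DepthLE (N.t i a b) D₀) (hb : 15 * b ≤ B)
    (H : ∀ (m : ℕ) (E : Circuit m), E.size ≤ B → DepthLE E.eval δ) :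
    N.BlockCost Act S b D₀ δ := by
  classical
  intro lo hi e Δ hlh hhS hn hΔ he i hi1 hi2 hact
  -- clean environment
  let e' : ℕ → (Fin n → Bool) → Bool := fun g => if g < lo ∧ Act g then e g else fun _ => false
  have hee : ∀ g < lo, Act g → e g = e' g := by
    intro g hg hg'
    simp [e', hg, hg']
  rw [ev_congr_act N hA hee i hact]
  have he' : ∀ g, DepthLE (e' g) Δ := by
    intro g
    simp only [e']
    split_ifs with h
    · exact he g h.1 h.2
    · exact DepthLE.const false (h0.trans hΔ)
  have hA' : (N.lift S).Closed Act := hA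
  obtain ⟨C, hC1, hC2⟩ := (N.lift S).comp hA' lo (envL S) (by
      intro g C
      by_cases h : g < S
      · exact ⟨0, (Avail.input C ⟨5 * g + 4, by omega⟩ 0).congr (fun x => by simp [envL, h])⟩
      · exact ⟨0, (Avail.const C false 0).congr (fun x => by simp [envL, h])⟩) (by
      intro j a c C
      by_cases h : j < S
      · exact ⟨0, (Avail.input C ⟨5 * j + code a c, by have := code_lt a c; omega⟩ 0).congr
          (fun x => by simp [lift, h])⟩
      · exact ⟨0, (Avail.const C false 0).congr (fun x => by simp [lift, h])⟩) hi hlh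
  obtain ⟨d, hd⟩ := hC2 i hi2 hact
  obtain ⟨E, hE1, _, hE3⟩ := hd.exists_circuit
  have hE : DepthLE E.eval δ := H _ E (by rw [hE3]; refine hC1.trans ?_; refine le_trans ?_ hb; omega)
  have hsub := hE.subst (g := N.sb S e') (t := Δ) (by
    intro k
    unfold sb
    split_ifs
    · exact he' _
    · exact (ht _ _ _).mono hΔ) (h0.trans hΔ)
  refine hsub.congr ?_
  intro x
  rw [hE1]
  exact (N.lift_ev S lo e' x i (hi2.trans_le hhS)).symm

/-- iteration over blocks -/
theorem iterate (N : Net n) {Act : ℕ → Prop} (S b : ℕ) {D₀ δ : ℝ} (hδ : 0 ≤ δ)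
    (hb : N.BlockCost Act S b D₀ δ) (e : ℕ → (Fin n → Bool) → Bool) :
    ∀ (t hi : ℕ), hi ≤ S → nact Act 0 hi ≤ t * b → ∀ i < hi, Act i →
      DepthLE (N.ev 0 e i) (D₀ + t * δ) := by
  intro t
  induction t with
  | zero =>
    intro hi _ hn i hi' hact
    have := nact_pos Act (Nat.zero_le i) hi' hact
    omega
  | succ t ih =>
    intro hi hS hn i hi' hact
    have hex : ∃ mid, mid ≤ hi ∧ nact Act mid hi ≤ b ∧ nact Act 0 mid ≤ t * b := by
      by_cases h0 : nact Act 0 hi ≤ b
      · exact ⟨0, Nat.zero_le _, h0, by rw [nact_self]; exact Nat.zero_le _⟩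
      · classical
        have hex2 : ∃ mid, mid ≤ hi ∧ nact Act mid hi ≤ b := ⟨hi, le_rfl, by rw [nact_self]; exact Nat.zero_le _⟩
        have hsp := Nat.find_spec hex2
        set mid := Nat.find hex2 with hmid
        have hmid0 : mid ≠ 0 := by
          intro h
          rw [h] at hsp
          exact h0 hsp.2
        obtain ⟨w, hw⟩ := Nat.exists_eq_succ_of_ne_zero hmid0
        have hnot := Nat.find_min hex2 (m := w) (by omega)
        have hw1 : w ≤ hi := by omega
        have hgt : b < nact Act w hi := by
          by_contra hc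
          exact hnot ⟨hw1, not_lt.mp hc⟩
        have h1 := nact_split Act (show w ≤ w + 1 by omega) (show w + 1 ≤ hi by omega)
        have h2 := nact_one_le Act w
        have h3 : nact Act mid hi = nact Act (w + 1) hi := by rw [hw]
        have h4 := nact_split Act (Nat.zero_le mid) hsp.1
        refine ⟨mid, hsp.1, hsp.2, ?_⟩
        have h5 : b ≤ nact Act mid hi := by omega
        have h6 : (t + 1) * b = t * b + b := by ring
        omega
    obtain ⟨mid, hm1, hm2, hm3⟩ := hex
    have ihm := ih mid (hm1.trans hS) hm3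
    by_cases hlt : i < mid
    · refine (ihm i hlt hact).mono ?_
      push_cast
      linarith
    · have h1 := hb mid hi (N.ev 0 e) (D₀ + t * δ) hm1 hS hm2 (by
        have : 0 ≤ (t : ℝ) * δ := by positivity
        linarith) ihm i (not_lt.mp hlt) hi' hact
      rw [N.ev_ev (Nat.zero_le mid) e i] at h1
      refine h1.mono ?_
      push_cast
      linarith

end Net

/-! ### circuits -/

variable {n : ℕ}

/-- the active nodes of the skeleton -/
def Dag.Act (D : Dag n) (K : ℕ → Bool) (i : ℕ) : Prop := D.cp K i = some i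

theorem Dag.closed (D : Dag n) (K : ℕ → Bool) : (D.net K).Closed (D.Act K) := by
  intro i hi
  have aux : ∀ o : Opd n, ∀ j, Dag.co (D.cp K) o = some j → D.Act K j := by
    intro o j h
    cases o with
    | gt k => exact D.cp_idem K k j h
    | inp k => simp [Dag.co] at h
    | cst b => simp [Dag.co] at h
  have hi' : D.cp K i = some i := hi
  refine ⟨fun j h => aux (D.a i) j ?_, fun j h => aux (D.b i) j ?_⟩
  · have : (D.net K).p i = Dag.co (D.cp K) (D.a i) := by
      show (if D.cp K i = some i then _ else none) = _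
      rw [if_pos hi']
    rw [← this]; exact h
  · have : (D.net K).q i = Dag.co (D.cp K) (D.b i) := by
      show (if D.cp K i = some i then _ else none) = _
      rw [if_pos hi']
    rw [← this]; exact h

/-- tables of the skeleton of a circuit -/
theorem Circuit.tables (C : Circuit n) (K : ℕ → Bool)
    (hK : ∀ j < C.size, K j = false → C.toDag.fo C.size j ≤ 1) :
    ∀ i a b, DepthLE ((C.toDag.net K).t i a b) (4 * Real.logb 2 ((C.size : ℝ) + 1)) := by
  set S := C.size with hS
  set D := C.toDag with hD
  set D₀ : ℝ := 4 * Real.logb 2 ((S : ℝ) + 1) with hD₀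
  have h0 : 0 ≤ D₀ := by
    have : 0 ≤ Real.logb 2 ((S : ℝ) + 1) := by
      apply Real.logb_nonneg (by norm_num)
      have : (0 : ℝ) ≤ S := Nat.cast_nonneg _
      linarith
    positivity
  have hW : ∀ i < S, D.W K i ≤ S := D.W_le K S hK
  have hF : ∀ (F : Fm n), F.gates ≤ S → DepthLE F.eval D₀ := fun F hF => Fm.spira S F hF
  intro i α β
  let F : Fm n := (D.kind i).fm (D.fF K α (D.a i)) (D.fF K β (D.b i))
  have hFe : ∀ x, (D.net K).t i α β x = F.eval x := fun x => (Kind.eval_fm _ _ _ x).symm
  by_cases hi : i < S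
  · apply (hF F ?_).congr hFe
    refine (Kind.gates_fm _ _ _).trans ?_
    have h1 := D.gates_fF_le K α (D.a i)
    have h2 := D.gates_fF_le K β (D.b i)
    have h3 := hW i hi
    rw [Dag.W_eq] at h3
    omega
  · have ha : D.a i = Opd.cst false := by
      have : ¬ i < C.size := hi
      simp [hD, Circuit.toDag, this]
    have hb : D.b i = Opd.cst false := by
      have : ¬ i < C.size := hi
      simp [hD, Circuit.toDag, this]
    have : (D.net K).t i α β = fun _ => (D.kind i).fn false false := by
      funext x
      rw [hFe x]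
      simp only [F]
      rw [Kind.eval_fm, ha, hb]
      rfl
    rw [this]
    exact DepthLE.const _ h0

/-- from the pivots to the output -/
theorem Circuit.depthLE_of_pivots (C : Circuit n) (K : ℕ → Bool)
    (hK : ∀ j < C.size, K j = false → C.toDag.fo C.size j ≤ 1) {B : ℝ}
    (hB0 : 4 * Real.logb 2 ((C.size : ℝ) + 1) ≤ B)
    (hpv : ∀ i < C.size, C.toDag.Act K i →
      DepthLE ((C.toDag.net K).ev 0 (fun _ _ => false) i) B) :
    DepthLE C.eval (B + 3) := by
  set S := C.size with hS
  set D := C.toDag with hD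
  set D₀ : ℝ := 4 * Real.logb 2 ((S : ℝ) + 1) with hD₀
  have h0 : 0 ≤ D₀ := by
    have : 0 ≤ Real.logb 2 ((S : ℝ) + 1) := by
      apply Real.logb_nonneg (by norm_num)
      have : (0 : ℝ) ≤ S := Nat.cast_nonneg _
      linarith
    positivity
  have hW : ∀ i < S, D.W K i ≤ S := D.W_le K S hK
  have hWo : ∀ o : Opd n, (∀ j, o = Opd.gt j → j < S) → D.Wo K o ≤ S := by
    intro o ho
    cases o with
    | gt j =>
      simp only [Dag.Wo]
      split_ifs
      · exact Nat.zero_le _
      · exact hW j (ho j rfl)
    | inp k => exact Nat.zero_le _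
    | cst b => exact Nat.zero_le _
  have ho : ∀ j, C.out.toOpd = Opd.gt j → j < S := Src.toOpd_lt C.out
  let e : ℕ → (Fin n → Bool) → Bool := fun _ _ => false
  have hpiv : DepthLE (opt D.val (Dag.co (D.cp K) C.out.toOpd)) B := by
    cases h : Dag.co (D.cp K) C.out.toOpd with
    | none => exact DepthLE.const false (h0.trans hB0)
    | some p =>
      have hp : p < S := D.co_lt K ho h
      have hpp : D.cp K p = some p := by
        revert h
        cases C.out.toOpd with
        | gt j => exact fun h => D.cp_idem K j p h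
        | inp k => intro h; simp [Dag.co] at h
        | cst b => intro h; simp [Dag.co] at h
      exact (hpv p hp hpp).congr (fun x => (D.net_correct K e x p hpp).symm)
  have hFo : ∀ β, DepthLE (D.fF K β C.out.toOpd).eval D₀ := fun β =>
    Fm.spira S _ ((D.gates_fF_le K β _).trans (hWo _ ho))
  have key := hpiv.ite ((hFo true).mono (by linarith)) ((hFo false).mono (by linarith))
  refine key.congr ?_
  intro x
  rw [← C.toDag_out x, ← D.fF_correct K x S C.out.toOpd ho]
  cases opt D.val (Dag.co (D.cp K) C.out.toOpd) x <;> simp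

/-- the number of active nodes of the skeleton -/
theorem Circuit.nact_le (C : Circuit n) (K : ℕ → Bool)
    (hK : ∀ j < C.size, K j = decide (2 ≤ C.toDag.fo C.size j)) :
    Net.nact (C.toDag.Act K) 0 C.size ≤ 3 * C.excess := by
  classical
  set S := C.size with hS
  set D := C.toDag with hD
  have hex : ∑ j ∈ Finset.range S, (D.fo S j - 1) = C.excess := by
    unfold Circuit.excess
    rw [← Fin.sum_univ_eq_sum_range (fun j => D.fo S j - 1) S]
    apply Finset.sum_congr rfl
    intro j _
    exact congrArg (· - 1) (C.toDag_fo j.1)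
  have hr := D.r_le K S hK
  rw [hex] at hr
  -- nodes of fan-out at least two
  have h1 : ((Finset.range S).filter (fun j => K j = true)).card ≤ C.excess := by
    rw [← hex, Finset.card_filter]
    apply Finset.sum_le_sum
    intro j hj
    split_ifs with h
    · rw [hK j (Finset.mem_range.mp hj)] at h
      have : 2 ≤ D.fo S j := by simpa using h
      omega
    · exact Nat.zero_le _
  have h2 : 2 * ((Finset.range S).filter (fun j => K j = false ∧ D.Act K j)).card ≤
      (D.net K).r 0 S := by
    unfold Net.r
    rw [show Finset.Ico 0 S = Finset.range S from by ext; simp, Finset.card_filter, Finset.mul_sum]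
    apply Finset.sum_le_sum
    intro i _
    split_ifs with h
    · obtain ⟨hKf, hself⟩ := h
      have hself' : D.cp K i = some i := hself
      have hcpi : D.cp K i = Dag.comb (K i) i (Dag.co (D.cp K) (D.a i)) (Dag.co (D.cp K) (D.b i)) :=
        D.cp_eq K i
      have hp : (D.net K).p i = Dag.co (D.cp K) (D.a i) := by
        show (if D.cp K i = some i then _ else none) = _
        rw [if_pos hself']
      have hq : (D.net K).q i = Dag.co (D.cp K) (D.b i) := by
        show (if D.cp K i = some i then _ else none) = _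
        rw [if_pos hself']
      have hna : Dag.co (D.cp K) (D.a i) ≠ some i := fun h => by
        have := D.co_lt K (D.ha i) h; omega
      have hnb : Dag.co (D.cp K) (D.b i) ≠ some i := fun h => by
        have := D.co_lt K (D.hb i) h; omega
      unfold Net.w
      rw [hp, hq]
      rw [hKf, hself'] at hcpi
      unfold Dag.comb at hcpi
      simp only [Bool.false_eq_true, if_false] at hcpi
      revert hcpi hna hnb
      cases Dag.co (D.cp K) (D.a i) <;> cases Dag.co (D.cp K) (D.b i) <;> simp [Net.cnt] <;>
        intros <;> omega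
    · exact Nat.zero_le _
  have h3 : Net.nact (D.Act K) 0 S ≤ ((Finset.range S).filter (fun j => K j = true)).card +
      ((Finset.range S).filter (fun j => K j = false ∧ D.Act K j)).card := by
    unfold Net.nact
    refine le_trans (Finset.card_le_card ?_) (Finset.card_union_le _ _)
    intro j hj
    simp only [Finset.mem_filter, Finset.mem_Ico, Finset.mem_union, Finset.mem_range] at hj ⊢
    cases hKj : K j
    · right; exact ⟨hj.1.2, rfl, hj.2⟩
    · left; exact ⟨hj.1.2, rfl⟩
  omega

end Pool.Agent.BoolCirc
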