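import Mathlib
import Pool.Agent.BoolCirc.Excess
import Pool.Agent.BoolCirc.Build

/-!
Removal of the gates that cannot reach the output. If the function depends on all `n ≥ 2`
variables then the pruned circuit has at most `size - n + 1` excess wires.
-/

namespace Pool.Agent.BoolCirc

variable {n : ℕ}

/-- variable number `v` is essential for the function `f`: changing it can change the value -/
def Essential (f : (Fin n → Bool) → Bool) (v : Fin n) : Prop :=
  ∃ x : Fin n → Bool, f (Function.update x v true) ≠ f (Function.update x v false)

/-- `1` if the node is input `v` -/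
def Src.usesIn {i : ℕ} (v : Fin n) : Src n i → ℕ
  | input k => if k = v then 1 else 0
  | const _ => 0
  | gate _ => 0

/-- number of wires from input `v` into the gate -/
def Gate.usesIn {i : ℕ} (v : Fin n) : Gate n i → ℕ
  | and a b => a.usesIn v + b.usesIn v
  | or a b => a.usesIn v + b.usesIn v
  | not a => a.usesIn v

theorem Src.sum_uses {i S : ℕ} (o : Src n i) :
    ∑ j ∈ Finset.range S, o.uses j + ∑ v : Fin n, o.usesIn v ≤ 1 := by
  cases o with
  | input k => simp [uses, usesIn]
  | const b => simp [uses, usesIn]
  | gate k =>
    simp only [uses, usesIn, Finset.sum_const_zero, add_zero]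
    rw [Finset.sum_ite_eq]
    split_ifs <;> omega

theorem Gate.sum_uses {i S : ℕ} (g : Gate n i) :
    ∑ j ∈ Finset.range S, g.uses j + ∑ v : Fin n, g.usesIn v ≤ 2 := by
  cases g with
  | and a b =>
    simp only [uses, usesIn, Finset.sum_add_distrib]
    have h1 := Src.sum_uses (S := S) a
    have h2 := Src.sum_uses (S := S) b
    omega
  | or a b =>
    simp only [uses, usesIn, Finset.sum_add_distrib]
    have h1 := Src.sum_uses (S := S) a
    have h2 := Src.sum_uses (S := S) b
    omega
  | not a =>
    simp only [uses, usesIn]
    have h1 := Src.sum_uses (S := S) a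
    omega

theorem Src.eval_congr {i : ℕ} (o : Src n i) {x x' : Fin n → Bool} {v v' : Fin i → Bool}
    (h : ∀ j : Fin i, 0 < o.uses j.1 → v j = v' j) (h' : ∀ k : Fin n, 0 < o.usesIn k → x k = x' k) :
    o.eval x v = o.eval x' v' := by
  cases o with
  | input k => exact h' k (by simp [usesIn])
  | const b => rfl
  | gate k => exact h k (by simp [uses])

theorem Gate.eval_congr {i : ℕ} (g : Gate n i) {x x' : Fin n → Bool} {v v' : Fin i → Bool}
    (h : ∀ j : Fin i, 0 < g.uses j.1 → v j = v' j) (h' : ∀ k : Fin n, 0 < g.usesIn k → x k = x' k) :
    g.eval x v = g.eval x' v' := by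
  cases g with
  | and a b =>
    simp only [eval]
    rw [a.eval_congr (fun j hj => h j (Nat.add_pos_left hj _)) (fun j hj => h' j (Nat.add_pos_left hj _)),
      b.eval_congr (fun j hj => h j (Nat.add_pos_right _ hj)) (fun j hj => h' j (Nat.add_pos_right _ hj))]
  | or a b =>
    simp only [eval]
    rw [a.eval_congr (fun j hj => h j (Nat.add_pos_left hj _)) (fun j hj => h' j (Nat.add_pos_left hj _)),
      b.eval_congr (fun j hj => h j (Nat.add_pos_right _ hj)) (fun j hj => h' j (Nat.add_pos_right _ hj))]
  | not a =>
    simp only [eval]
    rw [a.eval_congr (fun j hj => h j hj) (fun j hj => h' j hj)]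

namespace Circuit

/-- gates from which the output can be reached -/
inductive Reach (C : Circuit n) : ℕ → Prop
  | out (j : Fin C.size) (h : C.out = Src.gate j) : Reach C j.1
  | step (i : Fin C.size) (j : ℕ) (hi : Reach C i.1) (h : 0 < (C.gate i).uses j) : Reach C j

open Classical in
/-- gates that do not reach the output are made trivial -/
noncomputable def prune (C : Circuit n) : Circuit n where
  size := C.size
  gate := fun i => if C.Reach i.1 then C.gate i else Gate.and (Src.const false) (Src.const false)
  out := C.out

theorem prune_gate_pos (C : Circuit n) {i : Fin C.size} (h : C.Reach i.1) :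
    C.prune.gate i = C.gate i := by
  classical
  simp only [prune]
  rw [if_pos h]

theorem prune_gate_neg (C : Circuit n) {i : Fin C.size} (h : ¬ C.Reach i.1) :
    C.prune.gate i = Gate.and (Src.const false) (Src.const false) := by
  classical
  simp only [prune]
  rw [if_neg h]

theorem prune_val (C : Circuit n) (x : Fin n → Bool) :
    ∀ (i : ℕ) (hi : i < C.size), C.Reach i → C.prune.val x ⟨i, hi⟩ = C.val x ⟨i, hi⟩ := by
  intro i
  induction i using Nat.strong_induction_on with
  | _ i ih =>
    intro hi hr
    rw [val, val]
    have hg : C.prune.gate ⟨i, hi⟩ = C.gate ⟨i, hi⟩ := C.prune_gate_pos hr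
    rw [hg]
    apply Gate.eval_congr
    · intro j hj
      exact ih j.1 j.2 (j.2.trans hi) (Reach.step ⟨i, hi⟩ j.1 hr hj)
    · intro k _; rfl

theorem prune_eval (C : Circuit n) (x : Fin n → Bool) : C.prune.eval x = C.eval x := by
  unfold eval
  have ho : C.prune.out = C.out := rfl
  rw [ho]
  cases h : C.out with
  | input k => rfl
  | const b => rfl
  | gate j => exact C.prune_val x j.1 j.2 (Reach.out j h)

/-- a variable that is used nowhere does not matter -/
theorem eval_update (C : Circuit n) (v : Fin n) (h : ∀ i, (C.gate i).usesIn v = 0)
    (ho : C.out ≠ Src.input v) (x : Fin n → Bool) (b : Bool) :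
    C.eval (Function.update x v b) = C.eval x := by
  have hval : ∀ (i : ℕ) (hi : i < C.size),
      C.val (Function.update x v b) ⟨i, hi⟩ = C.val x ⟨i, hi⟩ := by
    intro i
    induction i using Nat.strong_induction_on with
    | _ i ih =>
      intro hi
      rw [val, val]
      apply Gate.eval_congr
      · intro j _
        exact ih j.1 j.2 (j.2.trans hi)
      · intro k hk
        have hkv : k ≠ v := by
          rintro rfl
          rw [h] at hk
          exact lt_irrefl _ hk
        rw [Function.update_of_ne hkv]
  unfold eval
  cases hout : C.out with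
  | input k =>
    have hkv : k ≠ v := by
      rintro rfl
      exact ho hout
    show Function.update x v b k = x k
    rw [Function.update_of_ne hkv]
  | const c => rfl
  | gate j => exact hval j.1 j.2

theorem usesIn_pos_of_essential (C : Circuit n) (v : Fin n) (h : Essential C.eval v)
    (ho : C.out ≠ Src.input v) : ∃ i, 0 < (C.gate i).usesIn v := by
  by_contra hc
  have hc' : ∀ i, (C.gate i).usesIn v = 0 := fun i =>
    Nat.le_zero.mp (not_lt.mp (fun h => hc ⟨i, h⟩))
  obtain ⟨x, hx⟩ := h
  apply hx
  rw [C.eval_update v hc' ho, C.eval_update v hc' ho]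

/-- if the function depends on all of its `n ≥ 2` variables then the output is a gate -/
theorem out_gate (C : Circuit n) (hn : 2 ≤ n) (h : ∀ v, Essential C.eval v) :
    ∃ j, C.out = Src.gate j := by
  cases hout : C.out with
  | input k =>
    exfalso
    obtain ⟨v, hv⟩ : ∃ v : Fin n, v ≠ k := by
      have : Nontrivial (Fin n) := Fin.nontrivial_iff_two_le.mpr hn
      exact exists_ne k
    obtain ⟨x, hx⟩ := h v
    apply hx
    unfold eval
    rw [hout]
    show Function.update x v true k = Function.update x v false k
    rw [Function.update_of_ne hv.symm, Function.update_of_ne hv.symm]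
  | const b =>
    exfalso
    obtain ⟨x, hx⟩ := h ⟨0, by omega⟩
    apply hx
    unfold eval
    rw [hout]
    rfl
  | gate j => exact ⟨j, rfl⟩

/-- The pruned circuit has few excess wires. -/
theorem excess_prune (C : Circuit n) (hn : 2 ≤ n) (h : ∀ v, Essential C.eval v) :
    C.prune.excess + n ≤ C.size + 1 := by
  classical
  obtain ⟨j₀, hj₀⟩ := C.out_gate hn h
  set R : Finset (Fin C.size) := Finset.univ.filter (fun i => C.Reach i.1) with hR
  -- all wires
  have h1 : ∑ j : Fin C.size, C.prune.fanout j + n ≤ 2 * R.card := by
    have e1 : ∑ j : Fin C.size, C.prune.fanout j =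
        ∑ i : Fin C.size, ∑ j ∈ Finset.range C.size, (C.prune.gate i).uses j := by
      rw [Fin.sum_univ_eq_sum_range (fun j => C.prune.fanout j) C.size]
      unfold fanout
      rw [Finset.sum_comm]
      rfl
    have e2 : n ≤ ∑ i : Fin C.size, ∑ v : Fin n, (C.prune.gate i).usesIn v := by
      rw [Finset.sum_comm]
      calc n = ∑ v : Fin n, 1 := by simp
        _ ≤ _ := by
          apply Finset.sum_le_sum
          intro v _
          have hdep : Essential C.prune.eval v := by
            obtain ⟨x, hx⟩ := h v
            exact ⟨x, by rw [C.prune_eval, C.prune_eval]; exact hx⟩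
          obtain ⟨i, hi⟩ := C.prune.usesIn_pos_of_essential v hdep (by
            show C.out ≠ _
            rw [hj₀]
            exact fun h => by cases h)
          exact le_trans hi (Finset.single_le_sum
            (f := fun i : Fin C.size => (C.prune.gate i).usesIn v) (fun _ _ => Nat.zero_le _)
            (Finset.mem_univ i))
    have e3 : ∀ i : Fin C.size, ∑ j ∈ Finset.range C.size, (C.prune.gate i).uses j +
        ∑ v : Fin n, (C.prune.gate i).usesIn v ≤ if C.Reach i.1 then 2 else 0 := by
      intro i
      split_ifs with hr
      · exact Gate.sum_uses _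
      · have hg : C.prune.gate i = Gate.and (Src.const false) (Src.const false) :=
          C.prune_gate_neg hr
        rw [hg]
        simp [Gate.uses, Gate.usesIn, Src.uses, Src.usesIn]
    have e4 : ∑ i : Fin C.size, (if C.Reach i.1 then 2 else 0) = 2 * R.card := by
      rw [hR, Finset.card_filter, Finset.mul_sum]
      apply Finset.sum_congr rfl
      intro i _
      split_ifs <;> rfl
    calc ∑ j : Fin C.size, C.prune.fanout j + n
        ≤ ∑ i : Fin C.size, ∑ j ∈ Finset.range C.size, (C.prune.gate i).uses j +
          ∑ i : Fin C.size, ∑ v : Fin n, (C.prune.gate i).usesIn v := by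
            rw [e1]; exact Nat.add_le_add_left e2 _
      _ = ∑ i : Fin C.size, (∑ j ∈ Finset.range C.size, (C.prune.gate i).uses j +
          ∑ v : Fin n, (C.prune.gate i).usesIn v) := by rw [Finset.sum_add_distrib]
      _ ≤ ∑ i : Fin C.size, (if C.Reach i.1 then 2 else 0) := Finset.sum_le_sum (fun i _ => e3 i)
      _ = 2 * R.card := e4
  -- reachable gates except the output are used
  have h2 : R.card ≤ (Finset.univ.filter (fun j : Fin C.size => 1 ≤ C.prune.fanout j)).card + 1 := by
    rw [← Finset.card_singleton j₀]
    refine le_trans (Finset.card_le_card ?_) (Finset.card_union_le _ _)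
    intro j hj
    rw [hR, Finset.mem_filter] at hj
    rw [Finset.mem_union, Finset.mem_singleton, Finset.mem_filter]
    by_cases hjo : j = j₀
    · right; exact hjo
    · left
      refine ⟨Finset.mem_univ _, ?_⟩
      have hr := hj.2
      generalize hk : j.1 = k at hr
      cases hr with
      | out j' h' =>
        exfalso
        rw [hj₀] at h'
        apply hjo
        have : j₀ = j' := Src.gate.inj h'
        rw [this]
        exact Fin.ext hk
      | step i _ hi hu =>
        have hg : C.prune.gate i = C.gate i := C.prune_gate_pos hi
        have hu' : 0 < (C.prune.gate i).uses j.1 := by rw [hg, hk]; exact hu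
        rw [← hk]
        exact le_trans hu' (Finset.single_le_sum
          (f := fun i : Fin C.size => (C.prune.gate i).uses j.1) (fun _ _ => Nat.zero_le _)
          (Finset.mem_univ i))
  have h3 : C.prune.excess + (Finset.univ.filter (fun j : Fin C.size => 1 ≤ C.prune.fanout j)).card
      = ∑ j : Fin C.size, C.prune.fanout j := by
    rw [Finset.card_filter]
    unfold excess
    show ∑ j : Fin C.size, (C.prune.fanout j - 1) + _ = _
    rw [← Finset.sum_add_distrib]
    apply Finset.sum_congr rfl
    intro j _
    split_ifs <;> omega
  have h4 : R.card ≤ C.size := by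
    refine (Finset.card_le_univ _).trans ?_
    simp
  omega

end Circuit

end Pool.Agent.BoolCirc
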