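import Mathlib
import Pool.Agent.BoolCirc.Prune
import Pool.Agent.BoolCirc.Kernel

/-!
Padding: a small circuit on arbitrarily many variables is turned into a circuit on exactly `n`
variables, all of which matter, with at most `n` additional gates.
-/

namespace Pool.Agent.BoolCirc

variable {m n : ℕ}

/-- changing variables on which the function does not depend -/
theorem eval_mask (f : (Fin m → Bool) → Bool) (x x' : Fin m → Bool) (s : Finset (Fin m))
    (hs : ∀ v ∈ s, ¬ Essential f v) : f (fun j => if j ∈ s then x' j else x j) = f x := by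
  classical
  induction s using Finset.induction_on with
  | empty => simp
  | insert v s hv ih =>
    have ih' := ih (fun w hw => hs w (Finset.mem_insert_of_mem hw))
    rw [← ih']
    have hnd := hs v (Finset.mem_insert_self v s)
    unfold Essential at hnd
    have hnd' : ∀ z : Fin m → Bool, f (Function.update z v true) = f (Function.update z v false) :=
      fun z => by
        by_contra h
        exact hnd ⟨z, h⟩
    have key : ∀ (z : Fin m → Bool) (b : Bool), f (Function.update z v b) = f z := by
      intro z b
      have h1 : f z = f (Function.update z v (z v)) := by rw [Function.update_eq_self]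
      rw [h1]
      cases b <;> cases z v <;> first | rfl | exact hnd' z | exact (hnd' z).symm
    have h2 : (fun j => if j ∈ insert v s then x' j else x j) =
        Function.update (fun j => if j ∈ s then x' j else x j) v (x' v) := by
      funext j
      by_cases hj : j = v
      · subst hj; simp
      · rw [Function.update_of_ne hj]
        simp [Finset.mem_insert, hj]
    rw [h2, key]

theorem eval_eq_of_agree (f : (Fin m → Bool) → Bool) (x x' : Fin m → Bool)
    (h : ∀ v, Essential f v → x v = x' v) : f x = f x' := by
  classical
  have h1 := eval_mask f x x' (Finset.univ.filter (fun v => ¬ Essential f v)) (by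
    intro v hv
    exact (Finset.mem_filter.mp hv).2)
  rw [← h1]
  congr 1
  funext j
  by_cases hj : Essential f j
  · simp only [Finset.mem_filter, Finset.mem_univ, true_and, hj, not_true_eq_false, if_false]
    exact h j hj
  · simp [hj]

/-- replacing inputs by inputs or constants -/
def Src.sub {i : ℕ} (σ : Fin m → Fin n ⊕ Bool) : Src m i → Src n i
  | input k => match σ k with
    | Sum.inl l => input l
    | Sum.inr b => const b
  | const b => const b
  | gate j => gate j

def Gate.sub {i : ℕ} (σ : Fin m → Fin n ⊕ Bool) : Gate m i → Gate n i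
  | and a b => and (a.sub σ) (b.sub σ)
  | or a b => or (a.sub σ) (b.sub σ)
  | not a => not (a.sub σ)

def Circuit.sub (E : Circuit m) (σ : Fin m → Fin n ⊕ Bool) : Circuit n where
  size := E.size
  gate := fun i => (E.gate i).sub σ
  out := E.out.sub σ

/-- the substituted input -/
def subVal (σ : Fin m → Fin n ⊕ Bool) (y : Fin n → Bool) (k : Fin m) : Bool :=
  match σ k with
  | Sum.inl l => y l
  | Sum.inr b => b

theorem Src.eval_sub {i : ℕ} (σ : Fin m → Fin n ⊕ Bool) (o : Src m i) (y : Fin n → Bool)
    (v : Fin i → Bool) : (o.sub σ).eval y v = o.eval (subVal σ y) v := by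
  cases o with
  | input k =>
    simp only [sub, eval, subVal]
    cases σ k <;> rfl
  | const b => rfl
  | gate j => rfl

theorem Gate.eval_sub {i : ℕ} (σ : Fin m → Fin n ⊕ Bool) (g : Gate m i) (y : Fin n → Bool)
    (v : Fin i → Bool) : (g.sub σ).eval y v = g.eval (subVal σ y) v := by
  cases g <;> simp only [sub, eval, Src.eval_sub]

theorem Circuit.val_sub (E : Circuit m) (σ : Fin m → Fin n ⊕ Bool) (y : Fin n → Bool) :
    ∀ (i : ℕ) (hi : i < E.size), (E.sub σ).val y ⟨i, hi⟩ = E.val (subVal σ y) ⟨i, hi⟩ := by
  intro i
  induction i using Nat.strong_induction_on with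
  | _ i ih =>
    intro hi
    rw [Circuit.val, Circuit.val]
    show ((E.gate ⟨i, hi⟩).sub σ).eval y _ = _
    rw [Gate.eval_sub]
    congr 1
    funext j
    exact ih j.1 j.2 (j.2.trans hi)

theorem Circuit.eval_sub (E : Circuit m) (σ : Fin m → Fin n ⊕ Bool) (y : Fin n → Bool) :
    (E.sub σ).eval y = E.eval (subVal σ y) := by
  unfold Circuit.eval
  refine (Src.eval_sub σ E.out y _).trans ?_
  congr 1
  funext j
  exact E.val_sub σ y j.1 j.2

/-- a circuit whose output is a gate depends on at most `2 * size` variables -/
theorem Circuit.card_essential (E : Circuit m) (V : Finset (Fin m))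
    (hV : ∀ v ∈ V, Essential E.eval v) (ho : ∀ k, E.out ≠ Src.input k) : V.card ≤ 2 * E.size := by
  have h1 : V.card ≤ ∑ i : Fin E.size, ∑ v : Fin m, (E.gate i).usesIn v := by
    rw [Finset.sum_comm]
    calc V.card = ∑ v ∈ V, 1 := by simp
      _ ≤ ∑ v ∈ V, ∑ i : Fin E.size, (E.gate i).usesIn v := by
        apply Finset.sum_le_sum
        intro v hv
        obtain ⟨i, hi⟩ := E.usesIn_pos_of_essential v (hV v hv) (ho v)
        exact le_trans hi (Finset.single_le_sum
          (f := fun i : Fin E.size => (E.gate i).usesIn v) (fun _ _ => Nat.zero_le _)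
          (Finset.mem_univ i))
      _ ≤ ∑ v : Fin m, ∑ i : Fin E.size, (E.gate i).usesIn v :=
        Finset.sum_le_sum_of_subset (Finset.subset_univ V)
  refine h1.trans ?_
  calc ∑ i : Fin E.size, ∑ v : Fin m, (E.gate i).usesIn v ≤ ∑ i : Fin E.size, 2 := by
        apply Finset.sum_le_sum
        intro i _
        have := (E.gate i).sum_uses (S := 0)
        omega
    _ = 2 * E.size := by simp [mul_comm]

theorem Circuit.gateDepth_le (C : Circuit m) : ∀ (i : ℕ) (hi : i < C.size),
    C.gateDepth ⟨i, hi⟩ ≤ i + 1 := by
  intro i
  induction i using Nat.strong_induction_on with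
  | _ i ih =>
    intro hi
    rw [Circuit.gateDepth]
    have aux : ∀ o : Src m i, o.depth (fun j => C.gateDepth ⟨j.1, j.2.trans hi⟩) ≤ i := by
      intro o
      cases o with
      | input k => exact Nat.zero_le _
      | const b => exact Nat.zero_le _
      | gate j => exact (ih j.1 j.2 (j.2.trans hi)).trans j.2
    cases hg : C.gate ⟨i, hi⟩ with
    | and a b => simp only [Gate.depth]; have := aux a; have := aux b; omega
    | or a b => simp only [Gate.depth]; have := aux a; have := aux b; omega
    | not a => simp only [Gate.depth]; have := aux a; omega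

theorem Circuit.depth_le_size (C : Circuit m) : C.depth ≤ C.size := by
  unfold Circuit.depth
  cases C.out with
  | input k => exact Nat.zero_le _
  | const b => exact Nat.zero_le _
  | gate j => exact (C.gateDepth_le j.1 j.2).trans j.2

/-- Padding. -/
theorem depthLE_pad {n B κ : ℕ} {d : ℝ} (hd : 1 ≤ d) (hB : 2 * B ≤ n) (hBκ : B ≤ κ)
    (H : ∀ C : Circuit n, (∀ v, Essential C.eval v) → 2 ≤ C.size → C.size ≤ n + κ →
      DepthLE C.eval d) :
    ∀ (m : ℕ) (E : Circuit m), E.size ≤ B → DepthLE E.eval d := by
  classical
  intro m E hE
  -- trivial outputs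
  by_cases hout : ∃ k, E.out = Src.input k
  · obtain ⟨k, hk⟩ := hout
    refine (DepthLE.input k (by linarith)).congr (fun x => ?_)
    unfold Circuit.eval
    rw [hk]
    rfl
  have hout' : ∀ k, E.out ≠ Src.input k := fun k hk => hout ⟨k, hk⟩
  set V : Finset (Fin m) := Finset.univ.filter (fun v => Essential E.eval v) with hV
  have hVmem : ∀ v, v ∈ V ↔ Essential E.eval v := by intro v; simp [hV]
  have hVcard : V.card ≤ n :=
    (E.card_essential V (fun v hv => (hVmem v).mp hv) hout').trans (by omega)
  set v := V.card with hv
  have ι : Fin v ≃ V := V.equivFin.symm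
  by_cases hv0 : v = 0
  · -- constant function
    have hVe : V = ∅ := Finset.card_eq_zero.mp hv0
    refine (DepthLE.const (E.eval (fun _ => false)) (by linarith)).congr (fun x => ?_)
    apply eval_eq_of_agree
    intro w hw
    have := (hVmem w).mpr hw
    rw [hVe] at this
    simp at this
  -- substitutions
  let σ : Fin m → Fin n ⊕ Bool := fun j =>
    if h : j ∈ V then Sum.inl ⟨(ι.symm ⟨j, h⟩).1, (ι.symm ⟨j, h⟩).2.trans_le hVcard⟩
    else Sum.inr false
  let g : (Fin n → Bool) → Bool := (E.sub σ).eval
  let τ : (Fin m → Bool) → Fin n → Bool := fun x j => if h : j.1 < v then x (ι ⟨j.1, h⟩).1 else true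
  have hστ : ∀ (x : Fin m → Bool) (w : Fin m), w ∈ V → subVal σ (τ x) w = x w := by
    intro x w hw
    simp only [subVal, σ, hw, dif_pos, τ]
    have h1 : (ι.symm ⟨w, hw⟩).1 < v := (ι.symm ⟨w, hw⟩).2
    rw [dif_pos h1]
    simp
  have hgτ : ∀ (x : Fin m → Bool), g (τ x) = E.eval x := by
    intro x
    show (E.sub σ).eval (τ x) = _
    rw [Circuit.eval_sub]
    apply eval_eq_of_agree
    intro w hw
    exact hστ x w ((hVmem w).mpr hw)
  -- `g` only looks at the first `v` inputs
  have hgloc : ∀ y y' : Fin n → Bool, (∀ j : Fin n, j.1 < v → y j = y' j) → g y = g y' := by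
    intro y y' h
    show (E.sub σ).eval y = (E.sub σ).eval y'
    rw [Circuit.eval_sub, Circuit.eval_sub]
    congr 1
    funext w
    by_cases hw : w ∈ V
    · simp only [subVal, σ, hw, dif_pos]
      exact h _ (ι.symm ⟨w, hw⟩).2
    · simp only [subVal, σ, hw, dif_neg, not_false_eq_true]
  -- the padded circuit
  have hpad : ∀ t, v + t ≤ n → ∃ C : Circuit n, C.size = E.size + t ∧
      ∃ e, Avail C (fun y => g y && decide (∀ j : Fin n, v ≤ j.1 → j.1 < v + t → y j = true)) e := by
    intro t
    induction t with
    | zero =>
      intro _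
      refine ⟨E.sub σ, rfl, (E.sub σ).depth, (E.sub σ).out, fun y => ?_, le_rfl⟩
      show g y = _
      have : (∀ j : Fin n, v ≤ j.1 → j.1 < v + 0 → y j = true) := fun j h1 h2 => by omega
      show g y = (g y && decide _)
      rw [decide_eq_true this, Bool.and_true]
    | succ t ih =>
      intro ht
      obtain ⟨C, hC1, e, hC2⟩ := ih (by omega)
      obtain ⟨C', _, h2, h3⟩ := ext_and hC2 (Avail.input C ⟨v + t, by omega⟩ 0)
      refine ⟨C', by omega, _, h3.congr ?_⟩
      intro y
      rw [Bool.and_assoc]
      congr 1
      rw [Bool.eq_iff_iff]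
      simp only [decide_eq_true_eq, Bool.and_eq_true]
      constructor
      · intro h
        exact ⟨fun j h1 h2 => h j h1 (by omega), h ⟨v + t, by omega⟩ (by simp) (by simp)⟩
      · rintro ⟨h1, h2⟩ j h3 h4
        by_cases hj : j.1 < v + t
        · exact h1 j h3 hj
        · have : j = ⟨v + t, by omega⟩ := Fin.ext (by simp; omega)
          rw [this]; exact h2
  obtain ⟨C₀, hC₀, e, hav⟩ := hpad (n - v) (by omega)
  obtain ⟨C, hC1, _, hC3⟩ := hav.exists_circuit
  have hCe : ∀ y, C.eval y = (g y && decide (∀ j : Fin n, v ≤ j.1 → y j = true)) := by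
    intro y
    rw [hC1 y]
    congr 1
    rw [Bool.eq_iff_iff]
    simp only [decide_eq_true_eq]
    constructor
    · intro h j hj; exact h j hj (by have := j.2; omega)
    · intro h j hj _; exact h j hj
  -- a point where `g` is true
  obtain ⟨y₀, hy₀⟩ : ∃ y₀, g y₀ = true := by
    have : 0 < v := Nat.pos_of_ne_zero hv0
    have hw := (hVmem _).mp (ι ⟨0, this⟩).2
    obtain ⟨x, hx⟩ := hw
    cases h1 : E.eval (Function.update x (ι ⟨0, this⟩).1 true) with
    | true => exact ⟨_, (hgτ _).trans h1⟩
    | false =>
      cases h2 : E.eval (Function.update x (ι ⟨0, this⟩).1 false) with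
      | true => exact ⟨_, (hgτ _).trans h2⟩
      | false => exact absurd (h1.trans h2.symm) hx
  have hdep : ∀ i, Essential C.eval i := by
    intro i
    by_cases hi : i.1 < v
    · obtain ⟨x, hx⟩ := (hVmem _).mp (ι ⟨i.1, hi⟩).2
      refine ⟨τ x, ?_⟩
      have key : ∀ b, C.eval (Function.update (τ x) i b) =
          E.eval (Function.update x (ι ⟨i.1, hi⟩).1 b) := by
        intro b
        rw [hCe, ← hgτ (Function.update x (ι ⟨i.1, hi⟩).1 b)]
        have h1 : (∀ j : Fin n, v ≤ j.1 → Function.update (τ x) i b j = true) := by
          intro j hj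
          have hji : j ≠ i := by rintro rfl; omega
          rw [Function.update_of_ne hji]
          simp only [τ]
          rw [dif_neg (by omega)]
        rw [decide_eq_true h1, Bool.and_true]
        apply hgloc
        intro j hj
        by_cases hji : j = i
        · subst hji
          rw [Function.update_self]
          simp only [τ]
          rw [dif_pos hj, Function.update_self]
        · rw [Function.update_of_ne hji]
          simp only [τ]
          rw [dif_pos hj, dif_pos hj]
          have : (ι ⟨j.1, hj⟩).1 ≠ (ι ⟨i.1, hi⟩).1 := by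
            intro h
            have h2 := ι.injective (Subtype.ext h)
            apply hji
            exact Fin.ext (by simpa using h2)
          rw [Function.update_of_ne this]
      rw [key, key]
      exact hx
    · refine ⟨fun j => if j.1 < v then y₀ j else true, ?_⟩
      have h1 : ∀ b, g (Function.update (fun j => if j.1 < v then y₀ j else true) i b) = true := by
        intro b
        rw [← hy₀]
        apply hgloc
        intro j hj
        have hji : j ≠ i := by rintro rfl; exact hi hj
        rw [Function.update_of_ne hji, if_pos hj]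
      rw [hCe, hCe, h1, h1]
      have h2 : (∀ j : Fin n, v ≤ j.1 →
          Function.update (fun j : Fin n => if j.1 < v then y₀ j else true) i true j = true) := by
        intro j hj
        by_cases hji : j = i
        · subst hji; rw [Function.update_self]
        · rw [Function.update_of_ne hji, if_neg (by omega)]
      have h3 : ¬ (∀ j : Fin n, v ≤ j.1 →
          Function.update (fun j : Fin n => if j.1 < v then y₀ j else true) i false j = true) := by
        intro h
        have := h i (not_lt.mp hi)
        rw [Function.update_self] at this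
        exact absurd this (by decide)
      rw [decide_eq_true h2, decide_eq_false h3]
      exact fun h => by cases h
  have hCd : DepthLE C.eval d := by
    by_cases h2 : 2 ≤ C.size
    · exact H C hdep h2 (by rw [hC3, hC₀]; omega)
    · refine C.depthLE (fun _ => rfl) ?_
      have h3 := C.depth_le_size
      have h4 : C.depth ≤ 1 := by omega
      have h5 : (C.depth : ℝ) ≤ 1 := by exact_mod_cast h4
      linarith
  have hsub := hCd.subst (m := m) (g := fun j x => τ x j) (t := 0) (by
    intro j
    simp only [τ]
    by_cases h : j.1 < v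
    · simp only [h, dif_pos]; exact DepthLE.input _ le_rfl
    · simp only [h, dif_neg, not_false_eq_true]; exact DepthLE.const true le_rfl) le_rfl
  refine (hsub.mono (by linarith)).congr ?_
  intro x
  rw [hCe]
  have h1 : (∀ j : Fin n, v ≤ j.1 → τ x j = true) := by
    intro j hj
    simp only [τ]
    rw [dif_neg (by omega)]
  have h2 := hgτ x
  rw [decide_eq_true h1, Bool.and_true]
  exact h2.symm

end Pool.Agent.BoolCirc
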