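import Mathlib
import Pool.Agent.BoolCirc.Build

/-!
Evaluation of tree-shaped constraint satisfaction problems in small depth.
-/

namespace Pool.Agent.BoolCirc

open Classical in
theorem DepthLE.bigAnd {n : ℕ} {ι : Type*} (f : ι → (Fin n → Bool) → Bool) {t : ℝ} (ht : 0 ≤ t) :
    ∀ (k : ℕ) (s : Finset ι), s.card ≤ 2 ^ k → (∀ i ∈ s, DepthLE (f i) t) →
      DepthLE (fun x => decide (∀ i ∈ s, f i x = true)) (t + k) := by
  intro k
  induction k with
  | zero =>
    intro s hs h
    have hs' : s.card ≤ 1 := by simpa using hs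
    rcases Nat.le_one_iff_eq_zero_or_eq_one.mp hs' with h0 | h1
    · rw [Finset.card_eq_zero] at h0
      subst h0
      refine (DepthLE.const (n := n) true (t := t + (0 : ℕ)) (by simpa using ht)).congr ?_
      intro x; simp
    · obtain ⟨i, rfl⟩ := Finset.card_eq_one.mp h1
      refine ((h i (Finset.mem_singleton_self i)).mono (by simp)).congr ?_
      intro x; simp
  | succ k ih =>
    intro s hs h
    by_cases hk : s.card ≤ 2 ^ k
    · exact (ih s hk h).mono (by push_cast; linarith)
    · obtain ⟨s₁, hs₁, hc⟩ := Finset.exists_subset_card_eq (s := s) (n := 2 ^ k) (by omega)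
      have h2 : (s \ s₁).card ≤ 2 ^ k := by
        rw [Finset.card_sdiff_of_subset hs₁, hc]
        rw [pow_succ] at hs
        omega
      have d1 := ih s₁ hc.le (fun i hi => h i (hs₁ hi))
      have d2 := ih (s \ s₁) h2 (fun i hi => h i (Finset.mem_sdiff.mp hi).1)
      refine ((d1.and d2).mono (by push_cast; linarith)).congr ?_
      intro x
      rw [← Bool.decide_and]
      congr 1
      rw [eq_iff_iff]
      constructor
      · intro H
        exact ⟨fun i hi => H i (hs₁ hi), fun i hi => H i (Finset.mem_sdiff.mp hi).1⟩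
      · rintro ⟨H1, H2⟩ i hi
        by_cases hi1 : i ∈ s₁
        · exact H1 i hi1
        · exact H2 i (Finset.mem_sdiff.mpr ⟨hi, hi1⟩)

open Classical in
theorem DepthLE.bigOr {n : ℕ} {ι : Type*} (f : ι → (Fin n → Bool) → Bool) {t : ℝ} (ht : 0 ≤ t) :
    ∀ (k : ℕ) (s : Finset ι), s.card ≤ 2 ^ k → (∀ i ∈ s, DepthLE (f i) t) →
      DepthLE (fun x => decide (∃ i ∈ s, f i x = true)) (t + k) := by
  intro k
  induction k with
  | zero =>
    intro s hs h
    have hs' : s.card ≤ 1 := by simpa using hs
    rcases Nat.le_one_iff_eq_zero_or_eq_one.mp hs' with h0 | h1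
    · rw [Finset.card_eq_zero] at h0
      subst h0
      refine (DepthLE.const (n := n) false (t := t + (0 : ℕ)) (by simpa using ht)).congr ?_
      intro x; simp
    · obtain ⟨i, rfl⟩ := Finset.card_eq_one.mp h1
      refine ((h i (Finset.mem_singleton_self i)).mono (by simp)).congr ?_
      intro x; simp
  | succ k ih =>
    intro s hs h
    by_cases hk : s.card ≤ 2 ^ k
    · exact (ih s hk h).mono (by push_cast; linarith)
    · obtain ⟨s₁, hs₁, hc⟩ := Finset.exists_subset_card_eq (s := s) (n := 2 ^ k) (by omega)
      have h2 : (s \ s₁).card ≤ 2 ^ k := by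
        rw [Finset.card_sdiff_of_subset hs₁, hc]
        rw [pow_succ] at hs
        omega
      have d1 := ih s₁ hc.le (fun i hi => h i (hs₁ hi))
      have d2 := ih (s \ s₁) h2 (fun i hi => h i (Finset.mem_sdiff.mp hi).1)
      refine ((d1.or d2).mono (by push_cast; linarith)).congr ?_
      intro x
      rw [← Bool.decide_or]
      congr 1
      rw [eq_iff_iff]
      constructor
      · rintro ⟨i, hi, H⟩
        by_cases hi1 : i ∈ s₁
        · exact Or.inl ⟨i, hi1, H⟩
        · exact Or.inr ⟨i, Finset.mem_sdiff.mpr ⟨hi, hi1⟩, H⟩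
      · rintro (⟨i, hi, H⟩ | ⟨i, hi, H⟩)
        · exact ⟨i, hs₁ hi, H⟩
        · exact ⟨i, (Finset.mem_sdiff.mp hi).1, H⟩

section Tree

variable {n : ℕ} {α : Type*}

/-- The tree-shaped constraint satisfaction problem: a pattern for every node of `N`, local checks
at the nodes of `U`, compatibility along all edges inside `N`. The nodes are addresses in the
infinite rooted binary tree, the children of `t` are `false :: t` and `true :: t`. -/
def Sat (N : Finset (List Bool)) (u : List Bool → α → (Fin n → Bool) → Bool)
    (cp : List Bool → Bool → α → α → Prop) (P : List Bool → Finset α) (U : Finset (List Bool))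
    (x : Fin n → Bool) : Prop :=
  ∃ π : List Bool → α, (∀ t ∈ N, π t ∈ P t) ∧ (∀ t ∈ U, u t (π t) x = true) ∧
    ∀ (t : List Bool) (β : Bool), t ∈ N → (β :: t) ∈ N → cp t β (π t) (π (β :: t))

/-- The neighbours of `U` outside `U` have at most one pattern. -/
def Bdry (N : Finset (List Bool)) (P : List Bool → Finset α) (U : Finset (List Bool)) : Prop :=
  ∀ (t : List Bool) (β : Bool), t ∈ N → (β :: t) ∈ N →
    (t ∈ U → (β :: t) ∉ U → (P (β :: t)).card ≤ 1) ∧ ((β :: t) ∈ U → t ∉ U → (P t).card ≤ 1)

variable {N : Finset (List Bool)} {u : List Bool → α → (Fin n → Bool) → Bool}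
  {cp : List Bool → Bool → α → α → Prop}

theorem sat_mono {P : List Bool → Finset α} {U V : Finset (List Bool)} (h : V ⊆ U)
    {x : Fin n → Bool} (hs : Sat N u cp P U x) : Sat N u cp P V x := by
  obtain ⟨π, h1, h2, h3⟩ := hs
  exact ⟨π, h1, fun t ht => h2 t (h ht), h3⟩

theorem sat_split {P : List Bool → Finset α} {A B : Finset (List Bool)}
    (hb : Bdry N P (A ∪ B))
    (h1 : ∀ (t : List Bool) (β : Bool), t ∈ A → (β :: t) ∉ B)
    (h2 : ∀ (t : List Bool) (β : Bool), t ∈ B → (β :: t) ∉ A) (x : Fin n → Bool) :
    Sat N u cp P (A ∪ B) x ↔ Sat N u cp P A x ∧ Sat N u cp P B x := by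
  classical
  constructor
  · intro h
    exact ⟨sat_mono Finset.subset_union_left h, sat_mono Finset.subset_union_right h⟩
  · rintro ⟨⟨π₁, p1, p2, p3⟩, ⟨π₂, q1, q2, q3⟩⟩
    refine ⟨fun t => if t ∈ A then π₁ t else π₂ t, ?_, ?_, ?_⟩
    · intro t ht
      dsimp only
      split_ifs
      · exact p1 t ht
      · exact q1 t ht
    · intro t ht
      dsimp only
      split_ifs with hA
      · exact p2 t hA
      · exact q2 t ((Finset.mem_union.mp ht).resolve_left hA)
    · intro t β ht hβ
      have e3 := p3 t β ht hβ
      have f3 := q3 t β ht hβ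
      dsimp only
      by_cases hA : t ∈ A <;> by_cases hA' : (β :: t) ∈ A
      · rw [if_pos hA, if_pos hA']; exact e3
      · rw [if_pos hA, if_neg hA']
        have hB : (β :: t) ∉ B := h1 t β hA
        have := (hb t β ht hβ).1 (Finset.mem_union_left _ hA) (by
          rw [Finset.mem_union]; tauto)
        have heq : π₂ (β :: t) = π₁ (β :: t) :=
          Finset.card_le_one.mp this _ (q1 _ hβ) _ (p1 _ hβ)
        rw [heq]; exact e3
      · rw [if_neg hA, if_pos hA']
        have hB : t ∉ B := fun h => h2 t β h hA'
        have := (hb t β ht hβ).2 (Finset.mem_union_left _ hA') (by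
          rw [Finset.mem_union]; tauto)
        have heq : π₂ t = π₁ t := Finset.card_le_one.mp this _ (q1 _ ht) _ (p1 _ ht)
        rw [heq]; exact e3
      · rw [if_neg hA, if_neg hA']; exact f3

theorem sat_fix [DecidableEq α] {P : List Bool → Finset α} {U : Finset (List Bool)}
    {v : List Bool} (hv : v ∈ U) (hvN : v ∈ N) (x : Fin n → Bool) :
    Sat N u cp P U x ↔
      ∃ ρ ∈ P v, u v ρ x = true ∧ Sat N u cp (Function.update P v {ρ}) (U.erase v) x := by
  constructor
  · rintro ⟨π, h1, h2, h3⟩
    refine ⟨π v, h1 v hvN, h2 v hv, π, ?_, fun t ht => h2 t (Finset.mem_of_mem_erase ht), h3⟩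
    intro t ht
    by_cases h : t = v
    · subst h; simp
    · rw [Function.update_of_ne h]; exact h1 t ht
  · rintro ⟨ρ, hρ, hu, π, h1, h2, h3⟩
    have hπ : π v = ρ := by
      have := h1 v hvN
      simpa using this
    refine ⟨π, ?_, ?_, h3⟩
    · intro t ht
      by_cases h : t = v
      · subst h; rw [hπ]; exact hρ
      · have := h1 t ht
        rwa [Function.update_of_ne h] at this
    · intro t ht
      by_cases h : t = v
      · subst h; rw [hπ]; exact hu
      · exact h2 t (Finset.mem_erase.mpr ⟨h, ht⟩)

/-- every finite set of nodes has a centroid -/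
theorem exists_centroid (U : Finset (List Bool)) (hU : U.Nonempty) :
    ∃ v : List Bool, (∀ β : Bool, (U.filter (fun t => (β :: v) <:+ t)).card ≤ U.card / 2) ∧
      (U.filter (fun t => ¬ v <:+ t)).card ≤ U.card / 2 := by
  classical
  have hpos : 0 < U.card := Finset.card_pos.mpr hU
  -- lengths are bounded
  obtain ⟨M, hM⟩ : ∃ M, ∀ t ∈ U, t.length ≤ M := ⟨U.sup List.length, fun t ht => Finset.le_sup ht⟩
  let Q : ℕ → Prop := fun l => ∃ v : List Bool, v.length = l ∧
    U.card < 2 * (U.filter (fun t => v <:+ t)).card
  have hQ0 : Q 0 := by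
    refine ⟨[], rfl, ?_⟩
    have : U.filter (fun t => [] <:+ t) = U := by
      apply Finset.filter_true_of_mem
      intro t _
      exact List.nil_suffix
    rw [this]; omega
  have hQM : ∀ l, Q l → l ≤ M := by
    rintro l ⟨v, rfl, hv⟩
    have : 0 < (U.filter (fun t => v <:+ t)).card := by omega
    obtain ⟨t, ht⟩ := Finset.card_pos.mp this
    rw [Finset.mem_filter] at ht
    exact ht.2.length_le.trans (hM t ht.1)
  obtain ⟨l, hl, hmax⟩ : ∃ l, Q l ∧ ∀ l', Q l' → l' ≤ l := by
    refine ⟨Nat.findGreatest Q M, ?_, ?_⟩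
    · exact Nat.findGreatest_spec (Nat.zero_le M) hQ0
    · intro l' h'
      exact Nat.le_findGreatest (hQM l' h') h'
  obtain ⟨v, hvl, hv⟩ := hl
  refine ⟨v, ?_, ?_⟩
  · intro β
    by_contra hcon
    rw [not_le] at hcon
    have : Q (l + 1) := ⟨β :: v, by simp [hvl], by omega⟩
    have := hmax _ this
    omega
  · have := Finset.card_filter_add_card_filter_not (s := U) (fun t => v <:+ t)
    omega

theorem not_both {v t : List Bool} (h1 : (false :: v) <:+ t) (h2 : (true :: v) <:+ t) : False := by
  have := List.suffix_of_suffix_length_le h1 h2 (by simp)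
  have h3 := this.eq_of_length (by simp)
  simp at h3

theorem suffix_tail {v t : List Bool} {β : Bool} (h : (β :: v) <:+ t) : v <:+ t :=
  (List.suffix_cons β v).trans h

theorem suffix_child {v t : List Bool} (h : v <:+ t) (hne : t ≠ v) :
    (false :: v) <:+ t ∨ (true :: v) <:+ t := by
  obtain ⟨w, rfl⟩ := h
  rcases List.eq_nil_or_concat' w with rfl | ⟨w', β, rfl⟩
  · simp at hne
  · cases β
    · left; exact ⟨w', by simp⟩
    · right; exact ⟨w', by simp⟩

theorem bdry_of_update [DecidableEq α] {P : List Bool → Finset α} {U V : Finset (List Bool)}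
    {v : List Bool} {ρ : α} (hb : Bdry N P U)
    (hV : V ⊆ U) (h1 : ∀ (t : List Bool) (β : Bool), t ∈ V → (β :: t) ∈ U → (β :: t) ∉ V →
      (β :: t) = v) (h2 : ∀ (t : List Bool) (β : Bool), (β :: t) ∈ V → t ∈ U → t ∉ V → t = v) :
    Bdry N (Function.update P v {ρ}) V := by
  intro t β ht hβ
  constructor
  · intro a1 a2
    by_cases h : (β :: t) = v
    · rw [h]; simp
    · rw [Function.update_of_ne h]
      have : (β :: t) ∉ U := fun hh => h (h1 t β a1 hh a2)
      exact (hb t β ht hβ).1 (hV a1) this
  · intro a1 a2
    by_cases h : t = v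
    · rw [h]; simp
    · rw [Function.update_of_ne h]
      have : t ∉ U := fun hh => h (h2 t β a1 hh a2)
      exact (hb t β ht hβ).2 (hV a1) this

theorem bdry_of_sub {P : List Bool → Finset α} {U V : Finset (List Bool)}
    (hb : Bdry N P U)
    (hV : V ⊆ U) (h1 : ∀ (t : List Bool) (β : Bool), t ∈ V → (β :: t) ∈ U → (β :: t) ∈ V)
    (h2 : ∀ (t : List Bool) (β : Bool), (β :: t) ∈ V → t ∈ U → t ∈ V) :
    Bdry N P V := by
  intro t β ht hβ
  constructor
  · intro a1 a2
    exact (hb t β ht hβ).1 (hV a1) (fun hh => a2 (h1 t β a1 hh))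
  · intro a1 a2
    exact (hb t β ht hβ).2 (hV a1) (fun hh => a2 (h2 t β a1 hh))

open Classical in
theorem depth_sat {D : ℝ} (hD : 0 ≤ D) {L : ℕ}
    (hu : ∀ t ∈ N, ∀ ρ, DepthLE (u t ρ) D) :
    ∀ (m : ℕ) (U : Finset (List Bool)) (P : List Bool → Finset α), U.card = m → U ⊆ N →
      (∀ t ∈ N, (P t).card ≤ 2 ^ L) → Bdry N P U →
      DepthLE (fun x => decide (Sat N u cp P U x)) (D + (L + 3) * Nat.size m) := by
  intro m
  induction m using Nat.strong_induction_on with
  | _ m ih =>
    intro U P hm hUN hP hb
    rcases U.eq_empty_or_nonempty with rfl | hne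
    · -- constant
      have hm0 : m = 0 := by simpa using hm.symm
      subst hm0
      have hc : ∀ x y : Fin n → Bool, Sat N u cp P ∅ x ↔ Sat N u cp P ∅ y := by
        intro x y
        constructor <;>
        · rintro ⟨π, h1, _, h3⟩
          exact ⟨π, h1, fun t ht => absurd ht (Finset.notMem_empty t), h3⟩
      refine (DepthLE.const (n := n) (decide (Sat N u cp P ∅ (fun _ => false)))
        (t := D + (L + 3) * (Nat.size 0 : ℕ)) (by simpa using hD)).congr ?_
      intro x
      exact decide_eq_decide.mpr (hc _ _)
    · obtain ⟨v, hv1, hv2⟩ := exists_centroid U hne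
      have hcard : 0 < U.card := Finset.card_pos.mpr hne
      have hm0 : 0 < m := by omega
      have hsz : Nat.size m = Nat.size (m / 2) + 1 := by
        have := Nat.size_bit (b := m.bodd) (n := m.div2) (by
          rw [Nat.bit_bodd_div2]; omega)
        rw [Nat.bit_bodd_div2] at this
        rw [this, Nat.div2_val]
      set E : ℝ := D + (L + 3) * Nat.size (m / 2) with hE
      have hE0 : 0 ≤ E := by positivity
      have hDE : D ≤ E := by
        have : (0 : ℝ) ≤ (L + 3) * Nat.size (m / 2) := by positivity
        linarith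
      have hEm : E + (L + 3) = D + (L + 3) * Nat.size m := by
        rw [hE, hsz]; push_cast; ring
      set A := U.filter (fun t => (false :: v) <:+ t) with hA
      set B := U.filter (fun t => (true :: v) <:+ t) with hB
      set W := U.filter (fun t => ¬ v <:+ t) with hW
      have cA : A.card ≤ m / 2 := by rw [← hm]; exact hv1 false
      have cB : B.card ≤ m / 2 := by rw [← hm]; exact hv1 true
      have cW : W.card ≤ m / 2 := by rw [← hm]; exact hv2
      have hlt : m / 2 < m := Nat.div_lt_self hm0 (by norm_num)
      have AU : A ⊆ U := Finset.filter_subset _ _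
      have BU : B ⊆ U := Finset.filter_subset _ _
      have WU : W ⊆ U := Finset.filter_subset _ _
      have mA : ∀ t, t ∈ A ↔ t ∈ U ∧ (false :: v) <:+ t := fun t => Finset.mem_filter
      have mB : ∀ t, t ∈ B ↔ t ∈ U ∧ (true :: v) <:+ t := fun t => Finset.mem_filter
      have mW : ∀ t, t ∈ W ↔ t ∈ U ∧ ¬ v <:+ t := fun t => Finset.mem_filter
      -- recursive bound
      have rec1 : ∀ (V : Finset (List Bool)) (P' : List Bool → Finset α), V.card ≤ m / 2 →
          V ⊆ U → (∀ t ∈ N, (P' t).card ≤ 2 ^ L) → Bdry N P' V →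
          DepthLE (fun x => decide (Sat N u cp P' V x)) E := by
        intro V P' hV hVU hP' hb'
        refine (ih V.card (by omega) V P' rfl (hVU.trans hUN) hP' hb').mono ?_
        have h1 : Nat.size V.card ≤ Nat.size (m / 2) := Nat.size_le_size hV
        have h2 : (Nat.size V.card : ℝ) ≤ Nat.size (m / 2) := by exact_mod_cast h1
        have h3 : (0 : ℝ) ≤ L + 3 := by positivity
        rw [hE]
        nlinarith [mul_le_mul_of_nonneg_left h2 h3]
      -- adjacency facts
      have adjA1 : ∀ (t : List Bool) (β : Bool), t ∈ A → (β :: t) ∈ U → (β :: t) ∈ A := by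
        intro t β h1 h2
        rw [mA] at h1 ⊢
        exact ⟨h2, h1.2.trans (List.suffix_cons _ _)⟩
      have adjB1 : ∀ (t : List Bool) (β : Bool), t ∈ B → (β :: t) ∈ U → (β :: t) ∈ B := by
        intro t β h1 h2
        rw [mB] at h1 ⊢
        exact ⟨h2, h1.2.trans (List.suffix_cons _ _)⟩
      have adjA2 : ∀ (t : List Bool) (β : Bool), (β :: t) ∈ A → t ∈ U → t ≠ v → t ∈ A := by
        intro t β h1 h2 h3
        rw [mA] at h1 ⊢
        refine ⟨h2, ?_⟩
        rcases List.suffix_cons_iff.mp h1.2 with h | h
        · exact absurd (List.cons.inj h).2.symm h3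
        · exact h
      have adjB2 : ∀ (t : List Bool) (β : Bool), (β :: t) ∈ B → t ∈ U → t ≠ v → t ∈ B := by
        intro t β h1 h2 h3
        rw [mB] at h1 ⊢
        refine ⟨h2, ?_⟩
        rcases List.suffix_cons_iff.mp h1.2 with h | h
        · exact absurd (List.cons.inj h).2.symm h3
        · exact h
      have adjW1 : ∀ (t : List Bool) (β : Bool), t ∈ W → (β :: t) ∈ U → (β :: t) ≠ v →
          (β :: t) ∈ W := by
        intro t β h1 h2 h3
        rw [mW] at h1 ⊢
        refine ⟨h2, fun h => ?_⟩
        rcases List.suffix_cons_iff.mp h with h | h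
        · exact h3 h.symm
        · exact h1.2 h
      have adjW2 : ∀ (t : List Bool) (β : Bool), (β :: t) ∈ W → t ∈ U → t ∈ W := by
        intro t β h1 h2
        rw [mW] at h1 ⊢
        exact ⟨h2, fun h => h1.2 (h.trans (List.suffix_cons _ _))⟩
      have dAB : ∀ t ∈ A, t ∉ B := fun t h1 h2 => not_both ((mA t).mp h1).2 ((mB t).mp h2).2
      have dAW : ∀ t ∈ A, t ∉ W := fun t h1 h2 =>
        ((mW t).mp h2).2 (suffix_tail ((mA t).mp h1).2)
      have dBW : ∀ t ∈ B, t ∉ W := fun t h1 h2 =>
        ((mW t).mp h2).2 (suffix_tail ((mB t).mp h1).2)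
      have vA : v ∉ A := fun h => by
        have := ((mA v).mp h).2.length_le
        simp at this
      have vB : v ∉ B := fun h => by
        have := ((mB v).mp h).2.length_le
        simp at this
      have vW : v ∉ W := fun h => ((mW v).mp h).2 (List.suffix_refl v)
      have hUe : U.erase v = A ∪ (B ∪ W) := by
        ext t
        simp only [Finset.mem_erase, Finset.mem_union, mA, mB, mW]
        constructor
        · rintro ⟨h1, h2⟩
          by_cases h : v <:+ t
          · rcases suffix_child h h1 with h3 | h3
            · exact Or.inl ⟨h2, h3⟩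
            · exact Or.inr (Or.inl ⟨h2, h3⟩)
          · exact Or.inr (Or.inr ⟨h2, h⟩)
        · rintro (h | h | h)
          · exact ⟨fun e => vA (by rw [mA, ← e]; exact ⟨h.1, by simpa [e] using h.2⟩), h.1⟩
          · exact ⟨fun e => vB (by rw [mB, ← e]; exact ⟨h.1, by simpa [e] using h.2⟩), h.1⟩
          · exact ⟨fun e => h.2 (e ▸ List.suffix_refl v), h.1⟩
      -- the three-way split for suitable patterns
      have three : ∀ P' : List Bool → Finset α, (∀ t ∈ N, (P' t).card ≤ 2 ^ L) →
          (∀ V : Finset (List Bool), V ⊆ U → v ∉ V →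
            (∀ (t : List Bool) (β : Bool), t ∈ V → (β :: t) ∈ U → (β :: t) ≠ v → (β :: t) ∈ V) →
            (∀ (t : List Bool) (β : Bool), (β :: t) ∈ V → t ∈ U → t ≠ v → t ∈ V) →
            Bdry N P' V) →
          DepthLE (fun x => decide (Sat N u cp P' (U.erase v) x)) (E + 2) := by
        intro P' hP' hb'
        have bA : Bdry N P' A := hb' A AU vA (fun t β h1 h2 _ => adjA1 t β h1 h2) adjA2
        have bB : Bdry N P' B := hb' B BU vB (fun t β h1 h2 _ => adjB1 t β h1 h2) adjB2
        have bW : Bdry N P' W := hb' W WU vW adjW1 (fun t β h1 h2 _ => adjW2 t β h1 h2)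
        have bBW : Bdry N P' (B ∪ W) := by
          refine hb' _ (Finset.union_subset BU WU) (by rw [Finset.mem_union]; tauto) ?_ ?_
          · intro t β h1 h2 h3
            rw [Finset.mem_union] at h1 ⊢
            rcases h1 with h | h
            · exact Or.inl (adjB1 t β h h2)
            · exact Or.inr (adjW1 t β h h2 h3)
          · intro t β h1 h2 h3
            rw [Finset.mem_union] at h1 ⊢
            rcases h1 with h | h
            · exact Or.inl (adjB2 t β h h2 h3)
            · exact Or.inr (adjW2 t β h h2)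
        have bABW : Bdry N P' (A ∪ (B ∪ W)) := by
          rw [← hUe]
          refine hb' _ (Finset.erase_subset _ _) (Finset.notMem_erase _ _) ?_ ?_
          · intro t β _ h2 h3
            exact Finset.mem_erase.mpr ⟨h3, h2⟩
          · intro t β _ h2 h3
            exact Finset.mem_erase.mpr ⟨h3, h2⟩
        have rA := rec1 A P' cA AU hP' bA
        have rB := rec1 B P' cB BU hP' bB
        have rW := rec1 W P' cW WU hP' bW
        have r1 := rB.and rW
        have r2 := (rA.mono (by linarith : E ≤ E + 1)).and r1
        refine (r2.mono (by linarith)).congr ?_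
        intro x
        rw [hUe, ← Bool.decide_and, ← Bool.decide_and]
        congr 1
        rw [eq_iff_iff]
        have e2 : Sat N u cp P' (B ∪ W) x ↔ Sat N u cp P' B x ∧ Sat N u cp P' W x := by
          refine sat_split bBW ?_ ?_ x
          · intro t β h1 h2
            exact dBW _ (adjB1 t β h1 (WU h2)) h2
          · intro t β h1 h2
            have h3 : t ≠ v := fun e => vW (e ▸ h1)
            exact dBW _ (adjB2 t β h2 (WU h1) h3) h1
        have e1 : Sat N u cp P' (A ∪ (B ∪ W)) x ↔ Sat N u cp P' A x ∧ Sat N u cp P' (B ∪ W) x := by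
          refine sat_split bABW ?_ ?_ x
          · intro t β h1 h2
            rcases Finset.mem_union.mp h2 with h | h
            · exact dAB _ (adjA1 t β h1 (BU h)) h
            · exact dAW _ (adjA1 t β h1 (WU h)) h
          · intro t β h1 h2
            have htU : t ∈ U := by
              rcases Finset.mem_union.mp h1 with h | h
              · exact BU h
              · exact WU h
            have h3 : t ≠ v := by
              rintro rfl
              rcases Finset.mem_union.mp h1 with h | h
              · exact vB h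
              · exact vW h
            have := adjA2 t β h2 htU h3
            rcases Finset.mem_union.mp h1 with h | h
            · exact dAB t this h
            · exact dAW t this h
        rw [e1, e2]
      by_cases hvU : v ∈ U
      · -- fix the pattern at v
        have hvN := hUN hvU
        have key : ∀ ρ ∈ P v, DepthLE (fun x => u v ρ x &&
            decide (Sat N u cp (Function.update P v {ρ}) (U.erase v) x)) (E + 3) := by
          intro ρ hρ
          have h1 := three (Function.update P v {ρ}) (by
            intro t ht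
            by_cases h : t = v
            · rw [h]; simp; exact Nat.one_le_two_pow
            · rw [Function.update_of_ne h]; exact hP t ht) (by
            intro V hVU hvV g1 g2
            refine bdry_of_update hb hVU ?_ ?_
            · intro t β a1 a2 a3
              by_contra hcon
              exact a3 (g1 t β a1 a2 hcon)
            · intro t β a1 a2 a3
              by_contra hcon
              exact a3 (g2 t β a1 a2 hcon))
          have h2 := (hu v hvN ρ).mono (by linarith : D ≤ E + 2)
          exact (h2.and h1).mono (by linarith)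
        have h3 := DepthLE.bigOr _ (by linarith : (0 : ℝ) ≤ E + 3) L (P v) (hP v hvN) key
        refine (h3.mono (by rw [← hEm]; linarith)).congr ?_
        intro x
        congr 1
        rw [eq_iff_iff, sat_fix hvU hvN x]
        constructor
        · rintro ⟨ρ, h4, h5, h6⟩
          exact ⟨ρ, h4, by simp [h5, h6]⟩
        · rintro ⟨ρ, h4, h5⟩
          rw [Bool.and_eq_true, decide_eq_true_eq] at h5
          exact ⟨ρ, h4, h5.1, h5.2⟩
      · have h1 := three P hP (by
          intro V hVU hvV g1 g2
          refine bdry_of_sub hb hVU ?_ ?_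
          · intro t β a1 a2
            exact g1 t β a1 a2 (fun e => hvU (e ▸ a2))
          · intro t β a1 a2
            exact g2 t β a1 a2 (fun e => hvU (e ▸ a2)))
        rw [Finset.erase_eq_of_notMem hvU] at h1
        refine h1.mono ?_
        rw [← hEm]
        have : (0 : ℝ) ≤ L := Nat.cast_nonneg _
        linarith

end Tree

end Pool.Agent.BoolCirc
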